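import Pool.Agent.U191.FK.Conv

/-!
# The factorization theorem in terms of the small definitions
-/

set_option autoImplicit false
set_option linter.unusedSectionVars false

open CategoryTheory AlgebraicGeometry

universe u v

namespace Pool.Agent.U191.FL

open Pool.Agent.H914 Pool.Agent.H914.VarClass Pool.Agent.H914.VarClass.Obj Pool.Agent.W492.BB
  Pool.Agent.W550.Corr Pool.Agent.TH133 Pool.Agent.U191.EY
open Pool.Agent.W484.CK (iterate Nilpotence)
open Pool.Agent.U926.SF (IsBuiltFrom)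

variable {k : Type u} [Field k] {𝒱 : VarClass k} {C : TheoryData.{u, v, 0} 𝒱 ℚ}
  [hC : IsChowProj C] {H : WeilTheoryData.{u, v, 0} C ℂ} [hH : IsWeilProj H]
  {D : ∀ V : 𝒱.Obj, HodgeRing (H.A V)}

/-- **Pairs of small Hodge level factor through products of few curves.** -/
theorem IsLevelPair.thr (hD : IsHodgeTheory H D) (hN : KimuraTheorem H) {ℓ : ℕ} {V : 𝒱.Obj}
    {e : C.A (V.prod V)} (h : IsLevelPair H D ℓ V e) :
    e ∈ FK.thr C (fun W _ => IsShortProduct ℓ W) V V 0 := by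
  cases h with
  | element B L a hB hL ha =>
    obtain ⟨K, _, _, hK, hL⟩ := hL
    have hact : ∀ c ∈ L, c.IsAction := fun c hc => (hL c hc).1
    have hnil : Nilpotence H (prodL B L) :=
      hN.nilpotence ⟨B, L, hB, le_top, fun c hc => (hact c hc).dim_eq, rfl⟩
    refine FK.level_element hD.toIsHodge hK.conv L hact (fun c hc => (hL c hc).2.conv) hnil ?_ a
      ha.beyond
    intro L' δ h1 h2 _
    exact ⟨B, L', hB, by exact_mod_cast h1, fun c hc => (hact c (h2 c hc)).dim_eq, rfl⟩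
  | variety B L Y hB hL hcut hl =>
    obtain ⟨K, _, _, hK, hL⟩ := hL
    have hact : ∀ c ∈ L, c.IsAction := fun c hc => (hL c hc).1
    have hnil : Nilpotence H (prodL B L) :=
      hN.nilpotence ⟨B, L, hB, le_top, fun c hc => (hact c hc).dim_eq, rfl⟩
    obtain ⟨a, α, β, h⟩ := isCut_conv hcut
    refine FK.level_summand hD.toIsHodge hK.conv L hact (fun c hc => (hL c hc).2.conv) hnil ?_ h
      hl.conv
    intro L' δ h1 h2
    exact ⟨B, L', hB, by exact_mod_cast h1, fun c hc => (hact c (h2 c hc)).dim_eq, rfl⟩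

theorem IsBuiltOfLevel.thr (hD : IsHodgeTheory H D) (hN : KimuraTheorem H) {ℓ : ℕ} {M : 𝒱.Obj}
    {p : C.A (M.prod M)} (h : IsBuiltOfLevel H D ℓ p) :
    p ∈ FK.thr C (fun W _ => IsShortProduct ℓ W) M M 0 := by
  refine (show Submodule.span ℚ _ ≤ FK.thr C (fun W _ => IsShortProduct ℓ W) M M 0 from
    Submodule.span_le.2 ?_) h
  rintro _ ⟨V, e, n, α, β, he, hα, hβ, rfl⟩
  have h1 := IsLevelPair.thr hD hN he
  have hα' : α ∈ C.gr (M.prod V) (V.dim + (M.dim - n - V.dim)) := by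
    have e1 : (V.dim : ℤ) + (M.dim - n - V.dim) = M.dim - n := by ring
    rw [e1]
    exact hα
  exact FK.thr_comp (e' := n) hβ (FK.comp_thr (P' := fun W _ => IsShortProduct ℓ W) hα' h1
    (fun _ _ h => h) rfl) (by ring)

/-- **Varieties of small Hodge level are built from products of few curves.** -/
theorem IsBuiltOfLevel.isBuiltFrom (hD : IsHodgeTheory H D) (hN : KimuraTheorem H) {ℓ : ℕ}
    {Y : 𝒱.Obj} (hY : IsBuiltOfLevel H D ℓ (gph C (𝟙 Y))) :
    IsBuiltFrom C (IsShortProduct ℓ) Y :=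
  FK.isBuiltFrom_of_thr (P := fun W _ => IsShortProduct ℓ W) (fun _ _ h => h)
    (IsBuiltOfLevel.thr hD hN hY)

/-- **Motives of level at most two are dominated by surfaces.** -/
theorem IsBuiltOfLevel.throughSurfaces (hD : IsHodgeTheory H D)
    (hN : KimuraTheorem H) {T : 𝒱.Obj} (hT : T.dim = 1) {M : 𝒱.Obj} {p : C.A (M.prod M)}
    (h : IsBuiltOfLevel H D 2 p) : p ∈ X308.S.throughSurfaces C M := by
  refine FK.thr_le_throughSurfaces (FK.thr_surfaces (H := H) hT (FK.thr_mono ?_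
    (IsBuiltOfLevel.thr hD hN h)))
  rintro W _ ⟨B, L, h1, h2, h3, h4⟩
  exact ⟨B, L, h1, by exact_mod_cast h2, h3, h4⟩

/-- **Level and coniveau**: elements of the group algebra. -/
theorem mixed_element (hD : IsHodgeTheory H D) (hN : KimuraTheorem H) {ℓ c : ℕ} {B : 𝒱.Obj}
    (hB : B.dim = 0) {L : List (GCurve 𝒱)} (hL : AreGood H D L) {a : Grp L → ℚ}
    (ha : Kills (D (prodL B L)) ℓ c (groupAct H B L a)) :
    groupCorr C B L a ∈ FK.thr C (fun W δ => IsShortProduct ℓ W ∨ (c : ℤ) ≤ δ) (prodL B L)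
      (prodL B L) 0 := by
  obtain ⟨K, _, _, hK, hL⟩ := hL
  have hact : ∀ c ∈ L, c.IsAction := fun c hc => (hL c hc).1
  have hnil : Nilpotence H (prodL B L) :=
    hN.nilpotence ⟨B, L, hB, le_top, fun c hc => (hact c hc).dim_eq, rfl⟩
  refine FK.mixed_element hD.toIsHodge hK.conv L hact (fun c hc => (hL c hc).2.conv) hnil ?_ a
    ha.mixed
  intro L' δ h1 h2 _
  rcases h1 with h1 | h1
  · exact Or.inl ⟨B, L', hB, by exact_mod_cast h1, fun c hc => (hact c (h2 c hc)).dim_eq, rfl⟩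
  · exact Or.inr h1

/-- **Level and coniveau**: varieties of the same dimension. -/
theorem mixed_variety (hD : IsHodgeTheory H D) (hN : KimuraTheorem H) {ℓ c : ℕ} {B : 𝒱.Obj}
    (hB : B.dim = 0) {L : List (GCurve 𝒱)} (hL : AreGood H D L) {Y : 𝒱.Obj} (hY : IsCut C B L Y)
    (hdim : Y.dim = (prodL B L).dim) (hl : HasLevel (D Y) ℓ c) :
    dg C Y ∈ FK.thr C (fun W δ => IsShortProduct ℓ W ∨ (c : ℤ) ≤ δ) Y Y 0 := by
  obtain ⟨a, α, β, h⟩ := isCut_conv hY
  have ha : Kills (D (prodL B L)) ℓ c (groupAct H B L a) := by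
    intro p q x hpq hmin hx
    have h1 := hD.act _ Y α p q x h.deg_left hx
    have h2 : corrAct H α x = 0 := hl p q _ hpq hmin h1
    have h3 : groupAct H B L a x = cohOp H B L a x := rfl
    change groupAct H B L a x = 0
    rw [h3, EY.cohOp_eq, ← FK.act_cl_gcor, ← FK.groupCorr_eq, ← h.corr, FK.act_cl_comp]
    have h4 : H.act (H.cl α) x = 0 := h2
    rw [h4]
    exact H.act_map_zero _
  have h1 := mixed_element hD hN hB hL ha
  have h2 : dg C Y = C.comp β (C.comp (FK.groupCorr C B L a) α) := by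
    rw [← h.corr, comp_assoc, h.diag, comp_dg, h.diag]
  rw [h2]
  have hα : α ∈ C.gr ((prodL B L).prod Y) ((prodL B L).dim + 0) := by
    rw [add_zero]
    exact h.deg_left
  have hβ : β ∈ C.gr (Y.prod (prodL B L)) ((prodL B L).dim + 0) := by
    rw [add_zero, ← hdim]
    exact h.deg_right
  refine FK.comp_thr hβ (FK.thr_comp hα h1 (zero_add _)) ?_ (by rw [hdim]; ring)
  intro W δ h3
  rw [add_zero]
  exact h3

end Pool.Agent.U191.FL
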