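import Pool.Agent.U191.FK.SmCyc
import Pool.Agent.U191.FK.Thm

/-!
# Homologically trivial cycles on varieties of level at most one
-/

set_option autoImplicit false
set_option linter.unusedSectionVars false

open CategoryTheory AlgebraicGeometry

universe u v

namespace Pool.Agent.U191.FL

open Pool.Agent.H914 Pool.Agent.H914.VarClass Pool.Agent.H914.VarClass.Obj Pool.Agent.W492.BB
  Pool.Agent.W550.Corr Pool.Agent.TH133 Pool.Agent.U191.EY

variable {k : Type u} [Field k] {𝒱 : VarClass k} {C : TheoryData.{u, v, 0} 𝒱 ℚ}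
  [hC : IsChowProj C] {H : WeilTheoryData.{u, v, 0} C ℂ} [hH : IsWeilProj H]
  {D : ∀ V : 𝒱.Obj, HodgeRing (H.A V)}

omit hH in
lemma act_deg {X Y : 𝒱.Obj} {Γ : C.A (X.prod Y)} {d m : ℤ} (hΓ : Γ ∈ C.gr (X.prod Y) d) {z : C.A X}
    (hz : z ∈ C.gr X m) : C.act Γ z ∈ C.gr Y (m + d - X.dim) := by
  rw [TheoryData.act_apply]
  have h := C.push_mem (snd X Y) (C.mul_mem hΓ (C.pull_mem (fst X Y) hz))
  have e1 : d + m + 1 * ((Y.dim : ℤ) - ((X.prod Y).dim : ℤ)) = m + d - X.dim := by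
    rw [dim_prod]; push_cast; ring
  rwa [e1] at h

/-- Homologically trivial classes of codimension zero are zero. -/
lemma codim_zero {X : 𝒱.Obj} {z : C.A X} (hz : z ∈ C.gr X 0) (h : H.cl z = 0) : z = 0 := by
  obtain ⟨q, rfl⟩ := hC.gr_zero X z hz
  have h1 : H.cl (q • (1 : C.A X)) = (q : ℂ) • (1 : H.A X) := by
    rw [cl_smul, map_one]
  rw [h1] at h
  have h2 := (smul_eq_zero.1 h).resolve_right (hH.one_ne_zero X)
  have h3 : q = 0 := by exact_mod_cast h2
  rw [h3, zero_smul]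

lemma shortDim {W : 𝒱.Obj} (hW : IsShortProduct (1 : ℕ) W) : W.dim ≤ 1 := by
  obtain ⟨B, L, hB, hL, hL1, rfl⟩ := hW
  match L, hL, hL1 with
  | [], _, _ =>
    change B.dim ≤ 1
    omega
  | [c], _, h =>
    change (c.V.prod B).dim ≤ 1
    rw [dim_prod, h c (by simp), hB]
  | c :: c' :: L, h, _ =>
    have h' : (c :: c' :: L).length ≤ 1 := by exact_mod_cast h
    simp only [List.length_cons] at h'
    omega

/-- A family `N` of classes which is stable under correspondences, consists of homologically trivial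
classes, and is zero on curves, is zero on the varieties which are built from curves and points,
as far as the dimension of the cycles is less than `c`. -/
lemma eq_zero_of_thr {N : ∀ X : 𝒱.Obj, ℤ → C.A X → Prop}
    (hom : ∀ {X : 𝒱.Obj} {m : ℤ} {z : C.A X}, N X m z → z ∈ C.gr X m ∧ H.cl z = 0)
    {Y : 𝒱.Obj} {m : ℤ} {z : C.A Y} (hz : N Y m z) {P : 𝒱.Obj → ℤ → Prop}
    (act : ∀ {W : 𝒱.Obj} {δ : ℤ} {a : C.A (Y.prod W)}, C.Deg (W.dim + δ) a →
      N W (W.dim + δ + m - Y.dim) (C.act a z))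
    (curve : ∀ {T : 𝒱.Obj} {a : C.A (Y.prod T)}, T.dim = 1 → C.Deg (Y.dim + 1 - m) a →
      C.act a z = 0)
    (hP : ∀ W δ, P W δ → W.dim ≤ 1 ∨ (Y.dim : ℤ) < m + δ) {e : ℤ} {p : C.A (Y.prod Y)}
    (hp : p ∈ FK.thr C P Y Y e) : C.act p z = 0 := by
  refine (show FK.thr C P Y Y e ≤ LinearMap.ker ((actB C).flip z) from
    Submodule.span_le.2 ?_) hp
  rintro _ ⟨W, δ, a, b, hW, ha, hb, rfl⟩
  change C.act (C.comp a b) z = 0
  rw [C.act_comp]
  have h1 := act (W := W) (δ := δ) ha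
  obtain ⟨h2, h3⟩ := hom h1
  have h4 : C.act a z = 0 := by
    rcases hP W δ hW with h | h
    · rcases lt_or_ge ((W.dim : ℤ) + δ + m - Y.dim) 0 with h5 | h5
      · rw [C.gr_neg _ _ h5] at h2
        exact (Submodule.mem_bot _).1 h2
      · rcases eq_or_lt_of_le h5 with h6 | h6
        · rw [← h6] at h2
          exact codim_zero (H := H) h2 h3
        · rcases lt_or_ge (W.dim : ℤ) ((W.dim : ℤ) + δ + m - Y.dim) with h7 | h7
          · exact hC.gr_top W _ _ h2 h7
          · have h8 : W.dim = 1 := by omega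
            refine curve h8 ?_
            have e1 : (W.dim : ℤ) + δ = Y.dim + 1 - m := by omega
            rw [← e1]
            exact ha
    · exact hC.gr_top W _ _ h2 (by omega)
  rw [h4]
  exact C.act_map_zero _

lemma homTrivial_act {X Y : 𝒱.Obj} {Γ : C.A (X.prod Y)} {d m : ℤ} (hΓ : Γ ∈ C.gr (X.prod Y) d)
    {z : C.A X} (hz : z ∈ C.gr X m ∧ H.cl z = 0) :
    C.act Γ z ∈ C.gr Y (m + d - X.dim) ∧ H.cl (C.act Γ z) = 0 := by
  refine ⟨act_deg hΓ hz.1, ?_⟩
  rw [cl_act, hz.2, H.act_map_zero]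

/-- The vanishing of homologically trivial cycles. -/
theorem homVanishing_of_thr (hA : AbelTheorem H) {P : 𝒱.Obj → ℤ → Prop} {Y : 𝒱.Obj} {m : ℤ}
    (hP : ∀ W δ, P W δ → W.dim ≤ 1 ∨ (Y.dim : ℤ) < m + δ)
    (hY : C.graph (𝟙 Y) ∈ FK.thr C P Y Y 0) : HomVanishing H Y m := by
  intro h0 z hz
  have h1 : C.act (C.graph (𝟙 Y)) z = 0 := by
    refine eq_zero_of_thr (H := H) (N := fun X m z => z ∈ C.gr X m ∧ H.cl z = 0) (fun h => h)
      (m := m) ⟨hz.1, hz.2⟩ (fun {W δ a} ha => ?_) (fun {T a} hT ha => ?_) hP hY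
    · have h2 := homTrivial_act (H := H) ha ⟨hz.1, hz.2⟩
      have e1 : m + ((W.dim : ℤ) + δ) - Y.dim = W.dim + δ + m - Y.dim := by ring
      rwa [e1] at h2
    · refine hA Y T m a z hT ha (fun x hx => ?_) hz
      have h2 : x = 0 := h0 x hx
      change H.act (H.cl a) x = 0
      rw [h2]
      exact H.act_map_zero _
  have h2 : C.act (C.graph (𝟙 Y)) z = z := act_dg C z
  exact h2.symm.trans h1

theorem homVanishing_of_level (hD : IsHodgeTheory H D) (hN : KimuraTheorem H)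
    (hA : AbelTheorem H) {M : 𝒱.Obj} (hM : IsBuiltOfLevel H D 1 (gph C (𝟙 M))) (m : ℤ) :
    HomVanishing H M m :=
  homVanishing_of_thr hA (fun _ _ h => Or.inl (shortDim h)) (IsBuiltOfLevel.thr hD hN hM)

theorem homVanishing_of_mixed (hD : IsHodgeTheory H D) (hN : KimuraTheorem H)
    (hA : AbelTheorem H) {B : 𝒱.Obj} (hB : B.dim = 0) {L : List (GCurve 𝒱)}
    (hL : AreGood H D L) {Y : 𝒱.Obj} (hY : IsCut C B L Y) (hdim : Y.dim = (prodL B L).dim) {c : ℕ}
    (hl : HasLevel (D Y) 1 c) {m : ℤ} (hm : (Y.dim : ℤ) < m + c) : HomVanishing H Y m := by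
  refine homVanishing_of_thr hA (fun W δ h => ?_) (mixed_variety hD hN hB hL hY hdim hl)
  rcases h with h | h
  · exact Or.inl (shortDim h)
  · exact Or.inr (by omega)

end Pool.Agent.U191.FL
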