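import Pool.Agent.U191.FK.SmAJ
import Pool.Agent.U191.FK.Cyc

/-!
# Injectivity of the Abel-Jacobi maps
-/

set_option autoImplicit false
set_option linter.unusedSectionVars false

open CategoryTheory AlgebraicGeometry

universe u v

namespace Pool.Agent.U191.FL

open Pool.Agent.H914 Pool.Agent.H914.VarClass Pool.Agent.H914.VarClass.Obj Pool.Agent.W492.BB
  Pool.Agent.W550.Corr Pool.Agent.TH133 Pool.Agent.U191.EY

variable {k : Type u} [Field k] {𝒱 : VarClass k} {C : TheoryData.{u, v, 0} 𝒱 ℚ}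
  [hC : IsChowProj C] {H : WeilTheoryData.{u, v, 0} C ℂ} [hH : IsWeilProj H]
  {D : ∀ V : 𝒱.Obj, HodgeRing (H.A V)} {A : AbelJacobiMaps H}

/-- The kernel of the Abel-Jacobi map is stable under correspondences. -/
lemma ker_act {X Y : 𝒱.Obj} {m r : ℤ} {Γ : C.A (X.prod Y)} (hΓ : C.Deg r Γ) {z : C.A X}
    (hz : IsHomTrivial H m z) (h : A.aj X m z = 0) :
    IsHomTrivial H (m + r - X.dim) (C.act Γ z) ∧ A.aj Y (m + r - X.dim) (C.act Γ z) = 0 := by
  refine ⟨homTrivial_act (H := H) hΓ ⟨hz.1, hz.2⟩, ?_⟩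
  obtain ⟨φ, hφ⟩ := A.functorial X Y m r Γ hΓ
  rw [hφ z hz, h, map_zero]

/-- Injectivity of the Abel-Jacobi maps for varieties built from others: level and coniveau. -/
theorem ajInjective_of_thr {P : 𝒱.Obj → ℤ → Prop} {Y : 𝒱.Obj} {m : ℤ}
    (hP : ∀ W δ, P W δ → (∀ j, AJInjective A W j) ∨ (Y.dim : ℤ) < m + δ)
    (hY : C.graph (𝟙 Y) ∈ FK.thr C P Y Y 0) : AJInjective A Y m := by
  intro z hz haj
  have h1 : C.act (C.graph (𝟙 Y)) z = 0 := by
    refine (show FK.thr C P Y Y 0 ≤ LinearMap.ker ((actB C).flip z) from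
      Submodule.span_le.2 ?_) hY
    rintro _ ⟨W, δ, a, b, hW, ha, hb, rfl⟩
    change C.act (C.comp a b) z = 0
    rw [C.act_comp]
    obtain ⟨h2, h3⟩ := ker_act (A := A) ha hz haj
    have h4 : C.act a z = 0 := by
      rcases hP W δ hW with h | h
      · exact h _ _ h2 h3
      · exact hC.gr_top W _ _ h2.1 (by omega)
    rw [h4]
    exact C.act_map_zero _
  have h2 : C.act (C.graph (𝟙 Y)) z = z := act_dg C z
  exact h2.symm.trans h1

/-- The Abel-Jacobi maps of curves and points are injective. -/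
lemma ajInjective_curve {W : 𝒱.Obj} (hW : W.dim ≤ 1) (j : ℤ) : AJInjective A W j := by
  intro z hz haj
  rcases lt_or_ge j 0 with h5 | h5
  · have h1 := hz.1
    have h2 : z ∈ C.gr W j := h1
    rw [C.gr_neg _ _ h5] at h2
    exact (Submodule.mem_bot _).1 h2
  · rcases eq_or_lt_of_le h5 with h6 | h6
    · subst h6
      exact codim_zero (H := H) hz.1 hz.2
    · rcases lt_or_ge (W.dim : ℤ) j with h7 | h7
      · exact hC.gr_top W _ _ hz.1 h7
      · have h8 : W.dim = 1 := by omega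
        have h9 : j = 1 := by omega
        subst h9
        exact A.abel W z h8 hz haj

theorem ajInjective_of_level (hD : IsHodgeTheory H D) (hN : KimuraTheorem H) {ℓ : ℕ}
    (hA : ∀ W : 𝒱.Obj, IsShortProduct ℓ W → ∀ j, AJInjective A W j) {M : 𝒱.Obj}
    (hM : IsBuiltOfLevel H D ℓ (gph C (𝟙 M))) (m : ℤ) : AJInjective A M m :=
  ajInjective_of_thr (fun W _ h => Or.inl (hA W h)) (IsBuiltOfLevel.thr hD hN hM)

theorem ajInjective_of_mixed (hD : IsHodgeTheory H D) (hN : KimuraTheorem H) {ℓ : ℕ}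
    (hA : ∀ W : 𝒱.Obj, IsShortProduct ℓ W → ∀ j, AJInjective A W j)
    {B : 𝒱.Obj} (hB : B.dim = 0) {L : List (GCurve 𝒱)}
    (hL : AreGood H D L) {Y : 𝒱.Obj} (hY : IsCut C B L Y) (hdim : Y.dim = (prodL B L).dim) {c : ℕ}
    (hl : HasLevel (D Y) ℓ c) {m : ℤ} (hm : (Y.dim : ℤ) < m + c) : AJInjective A Y m := by
  refine ajInjective_of_thr (fun W δ h => ?_) (mixed_variety hD hN hB hL hY hdim hl)
  rcases h with h | h
  · exact Or.inl (hA W h)
  · exact Or.inr (by omega)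

lemma ajInjective_short {W : 𝒱.Obj} (hW : IsShortProduct (1 : ℕ) W) (j : ℤ) :
    AJInjective A W j := ajInjective_curve (shortDim hW) j

end Pool.Agent.U191.FL
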