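import Pool.Agent.U191.EY.Base

/-!
# Characters with values in a number field: the definitions used in the statements
-/

set_option autoImplicit false

open CategoryTheory AlgebraicGeometry

universe u v

namespace Pool.Agent.U191.FK

open Pool.Agent.H914 Pool.Agent.H914.VarClass Pool.Agent.H914.VarClass.Obj Pool.Agent.W492.BB
  Pool.Agent.W550.Corr Pool.Agent.TH133 Pool.Agent.U191.EY

/-- The number field `K` is totally real, or it is a CM field of degree two or four: complex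
conjugation acts on `K` (compatibly with all embeddings), and `K` has at most two archimedean places
or all embeddings are real. -/
structure IsGoodField (K : Type) [Field K] : Prop where
  conj : ∀ x : K, ∃ y : K, ∀ σ : K →+* ℂ, σ y = starRingEnd ℂ (σ x)
  places : (∃ σ₁ σ₂ : K →+* ℂ, ∀ σ : K →+* ℂ,
    σ = σ₁ ∨ σ = (starRingEnd ℂ).comp σ₁ ∨ σ = σ₂ ∨ σ = (starRingEnd ℂ).comp σ₂) ∨
    ∀ σ : K →+* ℂ, (starRingEnd ℂ).comp σ = σ

variable {k : Type u} [Field k] {𝒱 : VarClass k} {C : TheoryData.{u, v, 0} 𝒱 ℚ}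

/-- The `χ`-isotypic part of `H^{p,q}(V)` is not zero, where `χ` is an irreducible character of the
group `G` acting on `V`. -/
def HasPart (H : WeilTheoryData.{u, v, 0} C ℂ) (D : ∀ V : 𝒱.Obj, HodgeRing (H.A V))
    (s : GCurve 𝒱) (χ : s.G → ℂ) (p q : ℕ) : Prop :=
  ∃ x ∈ (D s.V).hdg p q, x ≠ 0 ∧
    χ 1 • ∑ g, χ g • H.up (s.ρ g) x = (Fintype.card s.G : ℂ) • x

/-- For the characters `σ ∘ χ`, where `σ` runs through the embeddings of `K`, the isotypic parts of
`H^1(V) = H^{1,0}(V) ⊕ H^{0,1}(V)` are of the same kind: all are zero, or all contain both types, or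
all have exactly one type (which may depend on `σ`). -/
def SameKind (H : WeilTheoryData.{u, v, 0} C ℂ) (D : ∀ V : 𝒱.Obj, HodgeRing (H.A V))
    (s : GCurve 𝒱) {K : Type} [Field K] (χ : s.G → K) : Prop :=
  ∀ σ τ : K →+* ℂ,
    (HasPart H D s (fun g => σ (χ g)) 1 0 ∨ HasPart H D s (fun g => σ (χ g)) 0 1 →
      HasPart H D s (fun g => τ (χ g)) 1 0 ∨ HasPart H D s (fun g => τ (χ g)) 0 1) ∧
    (HasPart H D s (fun g => σ (χ g)) 1 0 ∧ HasPart H D s (fun g => σ (χ g)) 0 1 →
      HasPart H D s (fun g => τ (χ g)) 1 0 ∧ HasPart H D s (fun g => τ (χ g)) 0 1)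

/-- All irreducible characters of the group `G` of the curve have values in the field `K`
(embedded by some `σ₀`), and `K` has only one archimedean place (`K` is `ℚ` or imaginary quadratic)
or the characters satisfy `SameKind`. -/
def HasCharactersInField (H : WeilTheoryData.{u, v, 0} C ℂ) (D : ∀ V : 𝒱.Obj, HodgeRing (H.A V))
    (K : Type) [Field K] (s : GCurve 𝒱) : Prop :=
  ∃ (Φ : Type) (_ : Fintype Φ) (n : Φ → ℕ)
    (ρ : ∀ φ, s.G →* Matrix (Fin (n φ)) (Fin (n φ)) ℂ) (σ₀ : K →+* ℂ) (χ : Φ → s.G → K),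
    IsComplete ρ ∧ (∀ φ g, σ₀ (χ φ g) = (ρ φ g).trace) ∧
      ((∀ σ τ : K →+* ℂ, τ = σ ∨ τ = (starRingEnd ℂ).comp σ) ∨ ∀ φ, SameKind H D s (χ φ))

/-- The variety has Hodge level at most `ℓ`: `H^{p,q} = 0` for `|p - q| > ℓ`. -/
def HasLevel {M : Type v} [Ring M] [Algebra ℂ M] (D : HodgeRing M) (ℓ : ℕ) : Prop :=
  ∀ p q : ℕ, p + ℓ < q ∨ q + ℓ < p → D.hdg p q = ⊥

/-- The map `F` is zero on the spaces `H^{p,q}` with `|p - q| > ℓ`. -/
def KillsBeyond {M : Type v} [Ring M] [Algebra ℂ M] (D : HodgeRing M) (ℓ : ℕ) (F : M → M) : Prop :=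
  ∀ p q : ℕ, p + ℓ < q ∨ q + ℓ < p → ∀ x ∈ D.hdg p q, F x = 0

/-- The correspondence `∑ a(γ) [γ]`, the sum of the multiples of the graphs of the automorphisms
`γ` of the product. -/
noncomputable def groupCorr (C : TheoryData.{u, v, 0} 𝒱 ℚ) (B : 𝒱.Obj) (L : List (GCurve 𝒱))
    (a : Grp L → ℚ) : C.A ((prodL B L).prod (prodL B L)) :=
  ∑ᶠ γ, a γ • C.graph (mapL B L γ)

/-- The motive of `Y` is the direct summand of the motive of the product
`X = C_1 × ⋯ × C_n × B` which is cut out by the element `a` of the rational group algebra: there are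
correspondences `α` from `X` to `Y` and `β` from `Y` to `X` of degree zero such that the
composition `Y → X → Y` is the diagonal and the composition `X → Y → X` is `∑ a(γ) [γ]`. -/
structure CutsOut (C : TheoryData.{u, v, 0} 𝒱 ℚ) (B : 𝒱.Obj) (L : List (GCurve 𝒱))
    (a : Grp L → ℚ) (Y : 𝒱.Obj) (α : C.A ((prodL B L).prod Y)) (β : C.A (Y.prod (prodL B L))) :
    Prop where
  deg_left : C.Deg (prodL B L).dim α
  deg_right : C.Deg Y.dim β
  diag : C.comp β α = dg C Y
  corr : C.comp α β = groupCorr C B L a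

/-- The morphism `f : X ⟶ Y` of varieties of the same dimension is the quotient of the product
`X = C_1 × ⋯ × C_n × B` by the (nonempty) subset `S` of `G_1 × ⋯ × G_n`, for instance a subgroup:
as correspondences `f_* f^* = |S|` and `f^* f_* = ∑_{γ ∈ S} γ_*`. -/
structure IsQuotientC (C : TheoryData.{u, v, 0} 𝒱 ℚ) (B : 𝒱.Obj) (L : List (GCurve 𝒱))
    (S : Set (Grp L)) (Y : 𝒱.Obj) (f : prodL B L ⟶ Y) : Prop where
  nonempty : S.Nonempty
  dim_eq : Y.dim = (prodL B L).dim
  diag : C.comp (C.cograph f) (C.graph f) = (Nat.card S : ℚ) • dg C Y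
  corr : C.comp (C.graph f) (C.cograph f) = ∑ᶠ γ ∈ S, C.graph (mapL B L γ)

end Pool.Agent.U191.FK
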