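import Pool.Agent.U191.FK.Main

/-!
# The factorization theorem for varieties of small Hodge level
-/

set_option autoImplicit false
set_option linter.unusedSectionVars false

open CategoryTheory AlgebraicGeometry

universe u v

namespace Pool.Agent.U191.FK

open Pool.Agent.H914 Pool.Agent.H914.VarClass Pool.Agent.H914.VarClass.Obj Pool.Agent.W492.BB
  Pool.Agent.W550.Corr Pool.Agent.TH133 Pool.Agent.U191.EY
open Pool.Agent.W484.CK (iterate Nilpotence)

variable {k : Type u} [Field k] {𝒱 : VarClass k} {C : TheoryData.{u, v, 0} 𝒱 ℚ}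
  [hC : IsChowProj C] {H : WeilTheoryData.{u, v, 0} C ℂ} [hH : IsWeilProj H]
  {B : 𝒱.Obj} {K : Type} [Field K] [NumberField K]
  {D : ∀ V : 𝒱.Obj, HodgeRing (H.A V)}

lemma hasPart_iff (hD : IsHodge H D) {c : GCurve 𝒱} {χ : c.G → K} {d : ℚ} (hd : d ≠ 0)
    (h1 : χ 1 = (d : K)) (σ : K →+* ℂ) {p q : ℕ} (hpq : p + q = 1) :
    HasPart H D c (fun g => σ (χ g)) p q ↔
      ∃ x, x ≠ 0 ∧ Eig H (⟨c, χ, d⟩ : Fac 𝒱 K) σ 1 x ∧ x ∈ (toData D).hdg c.V p q := by
  have hd' : (d : ℂ) ≠ 0 := by exact_mod_cast hd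
  have key : ∀ x : H.A c.V, (σ (χ 1) • ∑ g, σ (χ g) • H.up (c.ρ g) x =
      (Fintype.card c.G : ℂ) • x ↔ ∑ g, σ (χ g) • H.pull (c.ρ g) x =
        (((⟨c, χ, d⟩ : Fac 𝒱 K).l : ℚ) : ℂ) • x) := by
    intro x
    have hl : (((⟨c, χ, d⟩ : Fac 𝒱 K).l : ℚ) : ℂ) = (Fintype.card c.G : ℂ) / d := by
      change (((Fintype.card c.G : ℚ) / d : ℚ) : ℂ) = _
      push_cast
      rfl
    rw [hl, h1, map_ratCast]
    constructor
    · intro h
      have h2 := congrArg (fun v => (d : ℂ)⁻¹ • v) h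
      simp only [smul_smul, inv_mul_cancel₀ hd', one_smul] at h2
      rw [div_eq_inv_mul]
      exact h2
    · intro h
      change (d : ℂ) • ∑ g, σ (χ g) • H.pull (c.ρ g) x = _
      rw [h, smul_smul, mul_div_cancel₀ _ hd']
  constructor
  · rintro ⟨x, hx, hx0, h⟩
    refine ⟨x, hx0, ⟨?_, (key x).1 h⟩, hx⟩
    have h2 := hD.toData.hdg_deg c.V p q x hx
    have h3 : ((p : ℤ) + q) = 1 := by exact_mod_cast hpq
    rwa [h3] at h2
  · rintro ⟨x, hx0, hx, hxp⟩
    exact ⟨x, hxp, hx0, (key x).2 hx.2⟩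

lemma goodChars (hD : IsHodge H D) (hK : IsGoodField K) {c : GCurve 𝒱}
    (h : HasCharactersInField H D K c) : GoodChars (toData D) K c := by
  classical
  obtain ⟨Φ, hΦ, n, ρ, σ₀, χ, hρ, hχ, hkind⟩ := h
  have hirr : ∀ φ, IsIrr (fun g => σ₀ (χ φ g)) (n φ) := by
    intro φ
    have h1 : (fun g => σ₀ (χ φ g)) = chi ρ φ := funext fun g => hχ φ g
    rw [h1]
    exact hρ.isIrr φ
  have hirrK : ∀ φ, IsIrrK K (χ φ) (n φ) := by
    intro φ
    refine ⟨(hirr φ).pos, ?_, fun σ g => ?_, fun g g' => ?_, fun g => ?_⟩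
    · apply σ₀.injective
      rw [map_ratCast]
      exact (hirr φ).one
    · obtain ⟨y, hy⟩ := hK.conj (χ φ g)
      have h1 : χ φ g⁻¹ = y := by
        apply σ₀.injective
        rw [hy]
        exact (hirr φ).inv g
      rw [h1, hy]
    · apply σ₀.injective
      rw [map_sum, map_mul, map_mul, map_ratCast]
      exact (hirr φ).func g g'
    · apply σ₀.injective
      rw [map_sum, map_mul, map_ratCast]
      simp_rw [map_mul]
      exact (hirr φ).conv g
  refine ⟨Φ, hΦ, n, χ, hirrK, fun φ => ?_, fun g => ?_⟩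
  · have hn : ((n φ : ℕ) : ℚ) ≠ 0 := (hirrK φ).pos.ne'
    rcases hkind with hone | hkind
    · intro σ τ
      rcases hone σ τ with rfl | rfl
      · exact ⟨id, id⟩
      · have h1 := posA_bar_iff (K := K) hD.toData (f := ⟨c, χ φ, n φ⟩) (σ := σ)
        have h2 := posB_bar_iff (K := K) hD.toData (f := ⟨c, χ φ, n φ⟩) (σ := σ)
        change _ ∧ (_ → PosA (toData D) (bar σ) _ ∧ PosB (toData D) (bar σ) _)
        constructor
        · change _ → PosA (toData D) (bar σ) _ ∨ PosB (toData D) (bar σ) _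
          rw [h1, h2]
          exact Or.symm
        · rw [h1, h2]
          exact And.symm
    · intro σ τ
      have hA : ∀ σ : K →+* ℂ, HasPart H D c (fun g => σ (χ φ g)) 1 0 ↔
          PosA (toData D) σ (⟨c, χ φ, n φ⟩ : Fac 𝒱 K) :=
        fun σ => hasPart_iff hD hn (hirrK φ).one σ rfl
      have hB : ∀ σ : K →+* ℂ, HasPart H D c (fun g => σ (χ φ g)) 0 1 ↔
          PosB (toData D) σ (⟨c, χ φ, n φ⟩ : Fac 𝒱 K) :=
        fun σ => hasPart_iff hD hn (hirrK φ).one σ rfl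
      have h1 := hkind φ σ τ
      rw [hA, hA, hB, hB] at h1
      exact h1
  · apply σ₀.injective
    have h1 := hρ.sum_chi g
    rw [map_sum]
    have h2 : ∀ φ, σ₀ ((n φ : K) * χ φ g) = (n φ : ℂ) * chi ρ φ g := by
      intro φ
      rw [map_mul, map_natCast, hχ]
      rfl
    rw [Finset.sum_congr rfl fun φ _ => h2 φ, h1]
    split_ifs
    · rw [map_natCast]
    · rw [map_zero]

lemma groupCorr_eq (L : List (GCurve 𝒱)) (a : Grp L → ℚ) :
    groupCorr C B L a = gcor C B L a := finsum_eq_sum_of_fintype _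

/-- **Factorization for elements of the group algebra.** -/
theorem level_element (hD : IsHodge H D) (hK : IsGoodField K) (L : List (GCurve 𝒱))
    (hact : ∀ c ∈ L, c.IsAction) (hchar : ∀ c ∈ L, HasCharactersInField H D K c)
    (hN : Nilpotence H (prodL B L)) {ℓ : ℕ} {P : 𝒱.Obj → ℤ → Prop}
    (hP : ∀ (L' : List (GCurve 𝒱)) (δ : ℤ), L'.length ≤ ℓ → (∀ c ∈ L', c ∈ L) → 0 ≤ δ →
      P (prodL B L') δ)
    (a : Grp L → ℚ) (ha : KillsBeyond (D (prodL B L)) ℓ (cohOp H B L a)) :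
    groupCorr C B L a ∈ thr C P (prodL B L) (prodL B L) 0 := by
  rw [groupCorr_eq]
  refine main hD.toData L hact (fun c hc => goodChars hD hK (hchar c hc)) hN
    (fun p q => p + ℓ < q ∨ q + ℓ < p) ?_ a ?_
  · rintro L₁ rfl hL hbal h
    refine goodT_level (ℓ := ℓ) hD.toData hK.places hL hbal (fun σ p q w h1 h2 h3 => ?_)
      (fun L' δ h1 h2 h3 => ?_)
    · have := h σ p q w h1 h2 h3
      omega
    · refine hP (cs L') δ (by rw [List.length_map]; exact h1) ?_ h3
      intro c hc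
      obtain ⟨f, hf, rfl⟩ := List.mem_map.1 hc
      exact List.mem_map.2 ⟨f, h2 f hf, rfl⟩
  · intro p q hpq x hx
    rw [← cohOp_eq]
    exact ha p q hpq x hx

/-- The summand `Y` inherits the level condition. -/
lemma kills_of_level (hD : IsHodge H D) {L : List (GCurve 𝒱)} {a : Grp L → ℚ} {Y : 𝒱.Obj}
    {α : C.A ((prodL B L).prod Y)} {β : C.A (Y.prod (prodL B L))} (hY : CutsOut C B L a Y α β)
    {ℓ : ℕ} (hl : HasLevel (D Y) ℓ) : KillsBeyond (D (prodL B L)) ℓ (cohOp H B L a) := by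
  intro p q hpq x hx
  have h1 := hD.act _ Y α p q x hY.deg_left hx
  rw [hl p q hpq, Submodule.mem_bot] at h1
  rw [cohOp_eq, ← act_cl_gcor, ← groupCorr_eq, ← hY.corr, act_cl_comp, h1]
  exact H.act_map_zero _

/-- **Factorization for summands of small level.** -/
theorem level_summand (hD : IsHodge H D) (hK : IsGoodField K) (L : List (GCurve 𝒱))
    (hact : ∀ c ∈ L, c.IsAction) (hchar : ∀ c ∈ L, HasCharactersInField H D K c)
    (hN : Nilpotence H (prodL B L)) {ℓ : ℕ} {P : 𝒱.Obj → ℤ → Prop}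
    (hP : ∀ (L' : List (GCurve 𝒱)) (δ : ℤ), L'.length ≤ ℓ → (∀ c ∈ L', c ∈ L) →
      P (prodL B L') δ)
    {a : Grp L → ℚ} {Y : 𝒱.Obj}
    {α : C.A ((prodL B L).prod Y)} {β : C.A (Y.prod (prodL B L))} (hY : CutsOut C B L a Y α β)
    (hl : HasLevel (D Y) ℓ) : dg C Y ∈ thr C P Y Y 0 := by
  have h1 := level_element hD hK L hact hchar hN
    (P := fun W δ => ∃ (L' : List (GCurve 𝒱)), L'.length ≤ ℓ ∧ (∀ c ∈ L', c ∈ L) ∧
      W = prodL B L') (fun L' δ h h' _ => ⟨L', h, h', rfl⟩) a (kills_of_level hD hY hl)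
  have h2 : dg C Y = C.comp β (C.comp (groupCorr C B L a) α) := by
    rw [← hY.corr, comp_assoc, hY.diag, comp_dg, hY.diag]
  rw [h2]
  have hα : α ∈ C.gr ((prodL B L).prod Y) ((prodL B L).dim + 0) := by
    rw [add_zero]
    exact hY.deg_left
  have hβ : β ∈ C.gr (Y.prod (prodL B L)) ((prodL B L).dim + (Y.dim - (prodL B L).dim)) := by
    have h3 : ((prodL B L).dim : ℤ) + (Y.dim - (prodL B L).dim) = Y.dim := by ring
    rw [h3]
    exact hY.deg_right
  refine comp_thr hβ (thr_comp hα h1 (zero_add _)) ?_ (by ring)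
  rintro W δ ⟨L', h3, h4, rfl⟩
  exact hP L' _ h3 h4

open Classical in
/-- Quotients are summands. -/
lemma IsQuotientC.cutsOut {L : List (GCurve 𝒱)} {S : Set (Grp L)} {Y : 𝒱.Obj}
    {f : prodL B L ⟶ Y} (hY : IsQuotientC C B L S Y f) :
    CutsOut C B L (fun γ => if γ ∈ S then (Nat.card S : ℚ)⁻¹ else 0) Y (C.graph f)
      ((Nat.card S : ℚ)⁻¹ • C.cograph f) := by
  have h5 : (Nat.card S : ℚ) ≠ 0 := by
    have := hY.nonempty.to_subtype
    have : 0 < Nat.card S := Nat.card_pos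
    exact_mod_cast this.ne'
  refine ⟨?_, ?_, ?_, ?_⟩
  · have h1 := graph_deg (C := C) f
    rw [hY.dim_eq] at h1
    exact h1
  · refine Submodule.smul_mem _ _ ?_
    have h := C.push_mem (Obj.lift f (𝟙 (prodL B L))) (C.one_mem (prodL B L))
    have e1 : (0 : ℤ) + 1 * (((Y.prod (prodL B L)).dim : ℤ) - ((prodL B L).dim : ℤ)) = Y.dim := by
      rw [dim_prod]; push_cast; ring
    rwa [e1] at h
  · rw [smul_comp', hY.diag, smul_smul, inv_mul_cancel₀ h5, one_smul]
  · rw [comp_smul', hY.corr, finsum_subgroup, groupCorr_eq, gcor, Finset.smul_sum]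
    refine Finset.sum_congr rfl fun γ _ => ?_
    by_cases h : γ ∈ S
    · rw [if_pos h, if_pos h, one_smul]
    · rw [if_neg h, if_neg h, zero_smul, smul_zero]

/-- **The generalized Bloch conjecture for elements of the group algebra.** -/
theorem coniveau_element (hD : IsHodge H D) (hK : IsGoodField K) (L : List (GCurve 𝒱))
    (hact : ∀ c ∈ L, c.IsAction) (hchar : ∀ c ∈ L, HasCharactersInField H D K c)
    (hN : Nilpotence H (prodL B L)) {c : ℕ} (hB : NoHomTrivial H B c)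
    (a : Grp L → ℚ) (ha : (D (prodL B L)).Agree c (cohOp H B L a) 0) :
    AgreeOnCycles H (prodL B L) c (chowOp C B L a) 0 := by
  have h1 : gcor C B L a ∈ thr C (fun W δ => 0 ≤ δ ∧ (c ≤ δ ∨ W = B)) (prodL B L)
      (prodL B L) 0 := by
    refine main hD.toData L hact (fun c hc => goodChars hD hK (hchar c hc)) hN
      (fun p q => p ≠ q ∧ min p q < c) ?_ a ?_
    · rintro L₁ rfl hL hbal h
      refine goodT_coniveau (c := c) hD.toData hK.places hL hbal (fun σ p q w h1 h2 h3 => ?_)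
        (fun W δ h1 h2 => ⟨h1, h2⟩)
      have := h σ p q w h1 h2 h3
      by_cases hpq : p = q
      · exact Or.inl hpq
      · right
        have h4 : ¬ min p q < c := fun h => this ⟨hpq, h⟩
        rw [min_lt_iff] at h4
        omega
    · rintro p q ⟨hpq, hmin⟩ x hx
      rw [← cohOp_eq]
      exact ha p q hpq hmin x hx
  intro j z hz hcl hj
  have h2 : chowOp C B L a z = C.act (gcor C B L a) z := by
    rw [chowOp_eq, opC, gcor, act_sum]
    refine Finset.sum_congr rfl fun γ _ => ?_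
    rw [← C.act_graph, TheoryData.act_apply, TheoryData.act_apply, smul_mul_assoc, map_smul]
  rw [h2]
  change C.act (gcor C B L a) z = 0
  refine (show thr C (fun W δ => 0 ≤ δ ∧ (c ≤ δ ∨ W = B)) (prodL B L) (prodL B L) 0 ≤
    LinearMap.ker ((actB C).flip z) from Submodule.span_le.2 ?_) h1
  rintro _ ⟨W, δ, α, β, ⟨hδ, hW⟩, hα, hβ, rfl⟩
  change C.act (C.comp α β) z = 0
  rw [C.act_comp]
  have h3 : C.act α z ∈ C.gr W (j + W.dim + δ - (prodL B L).dim) := by
    rw [TheoryData.act_apply]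
    have h := C.push_mem (snd (prodL B L) W) (C.mul_mem hα (C.pull_mem (fst (prodL B L) W) hz))
    have e1 : (W.dim : ℤ) + δ + j + 1 * ((W.dim : ℤ) - (((prodL B L).prod W).dim : ℤ)) =
        j + W.dim + δ - (prodL B L).dim := by
      rw [dim_prod]; push_cast; ring
    rwa [e1] at h
  have h4 : C.act α z = 0 := by
    by_cases hc : (c : ℤ) ≤ δ
    · exact hC.gr_top W _ _ h3 (by omega)
    · rcases hW with hW | rfl
      · exact absurd hW hc
      · have h5 : H.cl (C.act α z) = 0 := by rw [cl_act, hcl, H.act_map_zero]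
        refine hB _ _ h3 h5 ?_
        · change (W.dim : ℤ) < j + W.dim + δ - (prodL W L).dim + c
          omega
  rw [h4]
  exact C.act_map_zero _

end Pool.Agent.U191.FK
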