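import Pool.Agent.U191.FK.BuiltDefs
import Pool.Agent.U191.FK.Final
import Pool.Agent.U926.SF.Defs

/-!
# Motives of small Hodge level are built from products of few curves
-/

set_option autoImplicit false
set_option linter.unusedSectionVars false

open CategoryTheory AlgebraicGeometry

universe u v

namespace Pool.Agent.U191.FK

open Pool.Agent.H914 Pool.Agent.H914.VarClass Pool.Agent.H914.VarClass.Obj Pool.Agent.W492.BB
  Pool.Agent.W550.Corr Pool.Agent.TH133 Pool.Agent.U191.EY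
open Pool.Agent.W484.CK (iterate Nilpotence)
open Pool.Agent.U926.SF (IsBuiltFrom)

variable {k : Type u} [Field k] {𝒱 : VarClass k} {C : TheoryData.{u, v, 0} 𝒱 ℚ}
  [hC : IsChowProj C] {H : WeilTheoryData.{u, v, 0} C ℂ} [hH : IsWeilProj H]
  {D : ∀ V : 𝒱.Obj, HodgeRing (H.A V)}

/-- **Pairs of small Hodge level factor through products of few curves.** -/
theorem IsLevelPair.thr (hD : IsHodge H D) (hN : KimuraTheorem H) {ℓ : ℕ} {V : 𝒱.Obj}
    {e : C.A (V.prod V)} (h : IsLevelPair H D ℓ V e) :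
    e ∈ FK.thr C (fun W _ => IsShortProduct ℓ W) V V 0 := by
  cases h with
  | element B L a hB hL ha =>
    obtain ⟨K, _, _, hK, hL⟩ := hL
    have hact : ∀ c ∈ L, c.IsAction := fun c hc => (hL c hc).1
    have hnil : Nilpotence H (prodL B L) :=
      hN L.length _ ⟨B, L, hB, le_rfl, fun c hc => (hact c hc).dim_eq, rfl⟩
    refine level_element hD hK L hact (fun c hc => (hL c hc).2) hnil ?_ a ha
    intro L' δ h1 h2 _
    exact ⟨B, L', hB, h1, fun c hc => (hact c (h2 c hc)).dim_eq, rfl⟩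
  | variety B L Y hB hL hcut hl =>
    obtain ⟨K, _, _, hK, hL⟩ := hL
    have hact : ∀ c ∈ L, c.IsAction := fun c hc => (hL c hc).1
    have hnil : Nilpotence H (prodL B L) :=
      hN L.length _ ⟨B, L, hB, le_rfl, fun c hc => (hact c hc).dim_eq, rfl⟩
    have key : ∀ {a : Grp L → ℚ} {α : C.A ((prodL B L).prod V)} {β : C.A (V.prod (prodL B L))},
        CutsOut C B L a V α β → dg C V ∈ FK.thr C (fun W _ => IsShortProduct ℓ W) V V 0 := by
      intro a α β h
      refine level_summand hD hK L hact (fun c hc => (hL c hc).2) hnil ?_ h hl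
      intro L' δ h1 h2
      exact ⟨B, L', hB, h1, fun c hc => (hact c (h2 c hc)).dim_eq, rfl⟩
    cases hcut with
    | summand a α β h => exact key h
    | quotient S f h => exact key h.cutsOut

theorem IsBuiltOfLevel.thr (hD : IsHodge H D) (hN : KimuraTheorem H) {ℓ : ℕ} {M : 𝒱.Obj}
    {p : C.A (M.prod M)} (h : IsBuiltOfLevel H D ℓ p) :
    p ∈ FK.thr C (fun W _ => IsShortProduct ℓ W) M M 0 := by
  refine (show _ ≤ FK.thr C (fun W _ => IsShortProduct ℓ W) M M 0 from
    Submodule.span_le.2 ?_) h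
  rintro _ ⟨V, e, n, α, β, he, hα, hβ, rfl⟩
  have h1 := IsLevelPair.thr hD hN he
  have hα' : α ∈ C.gr (M.prod V) (V.dim + (M.dim - n - V.dim)) := by
    have e1 : (V.dim : ℤ) + (M.dim - n - V.dim) = M.dim - n := by ring
    rw [e1]
    exact hα
  exact thr_comp (e' := n) hβ (comp_thr (P' := fun W _ => IsShortProduct ℓ W) hα' h1
    (fun _ _ h => h) rfl) (by ring)

omit hH in
lemma isBuiltFrom_of_thr {P : 𝒱.Obj → ℤ → Prop} {G : 𝒱.Obj → Prop} (h : ∀ W δ, P W δ → G W)
    {Y : 𝒱.Obj} (hY : C.graph (𝟙 Y) ∈ FK.thr C P Y Y 0) : IsBuiltFrom C G Y := by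
  refine Submodule.span_mono ?_ hY
  rintro _ ⟨W, δ, α, β, hW, hα, hβ, rfl⟩
  refine ⟨W, Y.dim - W.dim - δ, α, β, h W δ hW, ?_, ?_, rfl⟩
  · have e1 : (Y.dim : ℤ) - (Y.dim - W.dim - δ) = W.dim + δ := by ring
    rw [e1]
    exact hα
  · have e1 : (W.dim : ℤ) + (Y.dim - W.dim - δ) = Y.dim - δ + 0 := by ring
    rw [e1]
    exact hβ

/-- **Varieties of small Hodge level are built from products of few curves.** -/
theorem IsBuiltOfLevel.isBuiltFrom (hD : IsHodge H D) (hN : KimuraTheorem H) {ℓ : ℕ} {Y : 𝒱.Obj}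
    (hY : IsBuiltOfLevel H D ℓ (C.graph (𝟙 Y))) : IsBuiltFrom C (IsShortProduct ℓ) Y :=
  isBuiltFrom_of_thr (P := fun W _ => IsShortProduct ℓ W) (fun _ _ h => h)
    (IsBuiltOfLevel.thr hD hN hY)

end Pool.Agent.U191.FK
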