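import Pool.Agent.U191.FK.Base

/-!
# Motives of small Hodge level of abelian quotient type: the definitions used in the statements
-/

set_option autoImplicit false

open CategoryTheory AlgebraicGeometry

universe u v

namespace Pool.Agent.U191.FK

open Pool.Agent.H914 Pool.Agent.H914.VarClass Pool.Agent.H914.VarClass.Obj Pool.Agent.W492.BB
  Pool.Agent.W550.Corr Pool.Agent.TH133 Pool.Agent.U191.EY
open Pool.Agent.W484.CK (Nilpotence)

variable {k : Type u} [Field k] {𝒱 : VarClass k} {C : TheoryData.{u, v, 0} 𝒱 ℚ}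

/-- `W` is a product of at most `ℓ` curves (and a variety of dimension zero). -/
def IsShortProduct (ℓ : ℕ) (W : 𝒱.Obj) : Prop :=
  ∃ (B : 𝒱.Obj) (L : List (GCurve 𝒱)), B.dim = 0 ∧ L.length ≤ ℓ ∧ (∀ c ∈ L, c.V.dim = 1) ∧
    W = prodL B L

/-- **Kimura's theorem** for products of curves `W`: a correspondence of degree zero from `W` to `W`
which acts as zero on the cohomology is nilpotent. -/
def KimuraTheorem (H : WeilTheoryData.{u, v, 0} C ℂ) : Prop :=
  ∀ (ℓ : ℕ) (W : 𝒱.Obj), IsShortProduct ℓ W → Nilpotence H W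

/-- The members of the list are curves `C_i` with actions of finite groups `G_i`, and all irreducible
characters of the groups `G_i` have values in one good number field `K`. -/
def AreGood (H : WeilTheoryData.{u, v, 0} C ℂ) (D : ∀ V : 𝒱.Obj, HodgeRing (H.A V))
    (L : List (GCurve 𝒱)) : Prop :=
  ∃ (K : Type) (_ : Field K) (_ : NumberField K), IsGoodField K ∧
    ∀ c ∈ L, c.IsAction ∧ HasCharactersInField H D K c

/-- `Y` is a direct summand of the product `X = C_1 × ⋯ × C_n × B` cut out by an element of the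
rational group algebra of `G_1 × ⋯ × G_n`, or a quotient of `X` by a subset (for instance a subgroup)
of `G_1 × ⋯ × G_n`. -/
inductive IsCut (C : TheoryData.{u, v, 0} 𝒱 ℚ) (B : 𝒱.Obj) (L : List (GCurve 𝒱)) : 𝒱.Obj → Prop
  | summand (Y : 𝒱.Obj) (a : Grp L → ℚ) (α : C.A ((prodL B L).prod Y))
      (β : C.A (Y.prod (prodL B L))) : CutsOut C B L a Y α β → IsCut C B L Y
  | quotient (Y : 𝒱.Obj) (S : Set (Grp L)) (f : prodL B L ⟶ Y) :
      IsQuotientC C B L S Y f → IsCut C B L Y

/-- The pairs `(V, e)` of Hodge level at most `ℓ`, for products `X = C_1 × ⋯ × C_n × B` (`B` of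
dimension zero) of curves with good groups `G_i` (`AreGood`):

* `V = X` and `e = ∑ a(γ) [γ]`, where `a` is an element of the rational group algebra of
  `G_1 × ⋯ × G_n` which acts as zero on the spaces `H^{p,q}(X)` with `|p - q| > ℓ`;
* `V = Y` is cut out of `X` (for instance a quotient), `Y` has Hodge level at most `ℓ`, and `e` is
  the diagonal. -/
inductive IsLevelPair (H : WeilTheoryData.{u, v, 0} C ℂ) (D : ∀ V : 𝒱.Obj, HodgeRing (H.A V))
    (ℓ : ℕ) : ∀ V : 𝒱.Obj, C.A (V.prod V) → Prop
  | element (B : 𝒱.Obj) (L : List (GCurve 𝒱)) (a : Grp L → ℚ) : B.dim = 0 → AreGood H D L →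
      KillsBeyond (D (prodL B L)) ℓ (cohOp H B L a) →
      IsLevelPair H D ℓ (prodL B L) (groupCorr C B L a)
  | variety (B : 𝒱.Obj) (L : List (GCurve 𝒱)) (Y : 𝒱.Obj) : B.dim = 0 → AreGood H D L →
      IsCut C B L Y → HasLevel (D Y) ℓ → IsLevelPair H D ℓ Y (C.graph (𝟙 Y))

/-- The correspondence `p` from `M` to `M` is a linear combination of compositions
`M → V → V → M` of homogeneous correspondences `α`, `e`, `β`, where `(V, e)` is a pair of Hodge level
at most `ℓ`, and `α` lowers the codimensions by some integer `n` (positive or not) and `β` raises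
them by `n`. If `p` is a projector, this says that the motive `(M, p)` is a direct summand of a
finite sum of twists of motives of level at most `ℓ`; if `p` is the diagonal, that `M` is built from
such motives. -/
def IsBuiltOfLevel (H : WeilTheoryData.{u, v, 0} C ℂ) (D : ∀ V : 𝒱.Obj, HodgeRing (H.A V))
    (ℓ : ℕ) {M : 𝒱.Obj} (p : C.A (M.prod M)) : Prop :=
  p ∈ Submodule.span ℚ {z | ∃ (V : 𝒱.Obj) (e : C.A (V.prod V)) (n : ℤ) (α : C.A (M.prod V))
    (β : C.A (V.prod M)), IsLevelPair H D ℓ V e ∧ C.Deg ((M.dim : ℤ) - n) α ∧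
      C.Deg ((V.dim : ℤ) + n) β ∧ z = C.comp (C.comp α e) β}

end Pool.Agent.U191.FK
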