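import Pool.Agent.U191.EY.Main

/-!
# Irreducible characters with values in a number field
-/

set_option autoImplicit false
set_option linter.unusedSectionVars false

namespace Pool.Agent.U191.FK

open Pool.Agent.U191.EY

/-- The identities of the irreducible characters for a function with values in the field `K`, for
all embeddings. -/
structure IsIrrK (K : Type) [Field K] [NumberField K] {G : Type} [Group G] [Fintype G] (χ : G → K)
    (d : ℚ) : Prop where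
  pos : 0 < d
  one : χ 1 = (d : K)
  inv : ∀ (σ : K →+* ℂ) (g : G), σ (χ g⁻¹) = starRingEnd ℂ (σ (χ g))
  func : ∀ g h, ∑ x, χ (g * (x * h * x⁻¹)) = ((Fintype.card G / d : ℚ) : K) * (χ g * χ h)
  conv : ∀ g, ∑ h, χ h * χ (h⁻¹ * g) = ((Fintype.card G / d : ℚ) : K) * χ g

variable {K : Type} [Field K] [NumberField K] {G : Type} [Group G] [Fintype G] {χ : G → K} {d : ℚ}

lemma IsIrrK.isIrr (h : IsIrrK K χ d) (σ : K →+* ℂ) : IsIrr (fun g => σ (χ g)) d where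
  pos := h.pos
  one := by rw [h.one, map_ratCast]
  inv := h.inv σ
  func g k := by
    have h1 := congrArg σ (h.func g k)
    rw [map_sum, map_mul, map_mul, map_ratCast] at h1
    exact h1
  conv g := by
    have h1 := congrArg σ (h.conv g)
    rw [map_sum, map_mul, map_ratCast] at h1
    rw [← h1]
    exact Finset.sum_congr rfl fun x _ => (map_mul σ _ _).symm

lemma IsIrrK.cls (h : IsIrrK K χ d) (y g : G) : χ (y * g * y⁻¹) = χ g := by
  obtain ⟨σ⟩ : Nonempty (K →+* ℂ) := inferInstance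
  exact σ.injective ((h.isIrr σ).cls y g)

lemma IsIrrK.comm (h : IsIrrK K χ d) (x y : G) : χ (x * y) = χ (y * x) := by
  obtain ⟨σ⟩ : Nonempty (K →+* ℂ) := inferInstance
  exact σ.injective ((h.isIrr σ).comm x y)

/-- The rational function `∑ σ χ`. -/
noncomputable def trf (χ : G → K) (g : G) : ℚ := Algebra.trace ℚ K (χ g)

lemma trf_cast (χ : G → K) (g : G) : (trf χ g : ℂ) = ∑ σ : K →+* ℂ, σ (χ g) := by
  have h1 := trace_eq_sum_embeddings ℂ (K := ℚ) (x := χ g)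
  have h2 : (trf χ g : ℂ) = algebraMap ℚ ℂ (Algebra.trace ℚ K (χ g)) := rfl
  rw [h2, h1]
  exact Fintype.sum_equiv (RingHom.equivRatAlgHom K ℂ).symm _ _ fun σ => rfl

/-- Orthogonality for two embeddings. -/
lemma IsIrrK.orth (h : IsIrrK K χ d) (σ τ : K →+* ℂ) :
    ∃ κ : ℚ, (κ = 0 ∨ κ = Fintype.card G / d) ∧ (σ = τ → κ = Fintype.card G / d) ∧
      ∀ e, ∑ g, σ (χ g) * τ (χ (g⁻¹ * e)) = κ * τ (χ e) := by
  have hd : (d : ℂ) ≠ 0 := by exact_mod_cast h.pos.ne'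
  have h1 : ∀ e, ∑ g, σ (χ g) * τ (χ (g⁻¹ * e)) =
      (∑ g, σ (χ g) * τ (χ g⁻¹)) / d * τ (χ e) :=
    (h.isIrr τ).conv_cls (fun g => σ (χ g)) (h.isIrr σ).cls
  have h2 : ∀ e, ∑ g, τ (χ g) * σ (χ (g⁻¹ * e)) =
      (∑ g, τ (χ g) * σ (χ g⁻¹)) / d * σ (χ e) :=
    (h.isIrr σ).conv_cls (fun g => τ (χ g)) (h.isIrr τ).cls
  have h3 : ∀ e, ∑ g, σ (χ g) * τ (χ (g⁻¹ * e)) = ∑ g, τ (χ g) * σ (χ (g⁻¹ * e)) := by
    intro e
    refine Fintype.sum_equiv ((Equiv.inv G).trans (Equiv.mulRight e)) _ _ fun g => ?_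
    change σ (χ g) * τ (χ (g⁻¹ * e)) = τ (χ (g⁻¹ * e)) * σ (χ ((g⁻¹ * e)⁻¹ * e))
    rw [mul_comm]
    congr 2
    have e1 : (g⁻¹ * e)⁻¹ * e = e⁻¹ * g * e⁻¹⁻¹ := by group
    rw [e1, h.cls]
  by_cases hk : (∑ g, σ (χ g) * τ (χ g⁻¹)) / (d : ℂ) = 0
  · refine ⟨0, Or.inl rfl, fun hστ => ?_, fun e => ?_⟩
    · subst hστ
      exfalso
      have h4 := (h.isIrr σ).conv 1
      have h5 := h1 1
      rw [hk, zero_mul] at h5
      rw [h5] at h4
      have h6 : (((Fintype.card G / d : ℚ) : ℂ)) ≠ 0 := by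
        exact_mod_cast (h.isIrr σ).l_pos.ne'
      have h7 : σ (χ 1) ≠ 0 := by
        rw [h.one, map_ratCast]
        exact hd
      exact mul_ne_zero h6 h7 h4.symm
    · rw [h1, hk, Rat.cast_zero]
  · have hone : ∀ σ : K →+* ℂ, σ (χ 1) = d := fun σ => by rw [h.one, map_ratCast]
    have h4 : (∑ g, σ (χ g) * τ (χ g⁻¹)) / (d : ℂ) = (∑ g, τ (χ g) * σ (χ g⁻¹)) / d := by
      have h5 := h3 1
      rw [h1, h2, hone, hone] at h5
      exact mul_right_cancel₀ hd h5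
    have heq : ∀ e, τ (χ e) = σ (χ e) := by
      intro e
      have h5 := h3 e
      rw [h1, h2, ← h4] at h5
      exact mul_left_cancel₀ hk h5
    refine ⟨Fintype.card G / d, Or.inr rfl, fun _ => rfl, fun e => ?_⟩
    have h5 := (h.isIrr τ).conv e
    rw [← h5]
    exact Finset.sum_congr rfl fun g _ => by rw [heq g]

/-- The rational function `∑ σ χ` on the group. -/
lemma IsIrrK.exists_real (h : IsIrrK K χ d) :
    ∃ l : ℚ, (∀ g, trf χ g⁻¹ = trf χ g) ∧ l ≠ 0 ∧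
      (∀ e, ∑ g, trf χ g * trf χ (g⁻¹ * e) = l * trf χ e) ∧
      (∀ (σ : K →+* ℂ) (e : G), ∑ g, (trf χ g : ℂ) * σ (χ (g⁻¹ * e)) = l * σ (χ e)) := by
  have hneg : ∀ g, trf χ g⁻¹ = trf χ g := by
    intro g
    have h1 : (trf χ g⁻¹ : ℂ) = (trf χ g : ℂ) := by
      rw [trf_cast]
      have h2 : ∀ σ : K →+* ℂ, σ (χ g⁻¹) = starRingEnd ℂ (σ (χ g)) := fun σ => h.inv σ g
      rw [Finset.sum_congr rfl fun σ _ => h2 σ, ← map_sum, ← trf_cast, map_ratCast]
    exact_mod_cast h1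
  have hd : (d : ℂ) ≠ 0 := by exact_mod_cast h.pos.ne'
  choose κ hκ hκ1 hκ2 using h.orth
  have hτ : ∀ (τ : K →+* ℂ) (e : G), ∑ g, (trf χ g : ℂ) * τ (χ (g⁻¹ * e)) =
      ((∑ σ, κ σ τ : ℚ) : ℂ) * τ (χ e) := by
    intro τ e
    simp_rw [trf_cast, Finset.sum_mul]
    rw [Finset.sum_comm, Finset.sum_congr rfl fun σ _ => hκ2 σ τ e]
    push_cast
    rw [Finset.sum_mul]
  have hlpos : ∀ τ, 0 < ∑ σ, κ σ τ := by
    intro τ
    have h1 : ∀ σ ∈ Finset.univ, 0 ≤ κ σ τ := by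
      intro σ _
      rcases hκ σ τ with h2 | h2
      · rw [h2]
      · rw [h2]
        exact (h.isIrr σ).l_pos.le
    refine Finset.sum_pos' h1 ⟨τ, Finset.mem_univ _, ?_⟩
    rw [hκ1 τ τ rfl]
    exact (h.isIrr τ).l_pos
  -- independence of the embedding
  have hind : ∀ σ τ : K →+* ℂ, ∑ ρ, κ ρ σ = ∑ ρ, κ ρ τ := by
    have h1 : ∀ τ : K →+* ℂ, τ ((∑ g, (trf χ g : K) * χ g⁻¹) / d) = ((∑ σ, κ σ τ : ℚ) : ℂ) := by
      intro τ
      have h2 := hτ τ 1
      simp only [mul_one] at h2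
      rw [map_div₀, map_sum, map_ratCast]
      have h3 : ∀ g, τ ((trf χ g : K) * χ g⁻¹) = (trf χ g : ℂ) * τ (χ g⁻¹) := by
        intro g
        rw [map_mul, map_ratCast]
      rw [Finset.sum_congr rfl fun g _ => h3 g, h2, h.one, map_ratCast, mul_div_assoc,
        div_self hd, mul_one]
    intro σ τ
    have h2 : (∑ g, (trf χ g : K) * χ g⁻¹) / (d : K) = ((∑ ρ, κ ρ σ : ℚ) : K) := by
      apply σ.injective
      rw [h1, map_ratCast]
    have h3 := h1 τ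
    rw [h2, map_ratCast] at h3
    exact_mod_cast h3
  obtain ⟨σ₀⟩ : Nonempty (K →+* ℂ) := inferInstance
  refine ⟨∑ ρ, κ ρ σ₀, hneg, (hlpos σ₀).ne', fun e => ?_, fun σ e => ?_⟩
  · have h2 : (∑ g, (trf χ g : ℂ) * trf χ (g⁻¹ * e)) =
        ((∑ ρ, κ ρ σ₀ : ℚ) : ℂ) * trf χ e := by
      simp_rw [trf_cast χ (_ * e), trf_cast χ e, Finset.mul_sum]
      rw [Finset.sum_comm]
      refine Finset.sum_congr rfl fun τ _ => ?_
      rw [hτ, hind τ σ₀]
    exact_mod_cast h2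
  · rw [hτ, hind σ σ₀]

/-- The product of irreducible characters. -/
lemma IsIrrK.prod {G' : Type} [Group G'] [Fintype G'] {χ' : G' → K} {d' : ℚ} (h : IsIrrK K χ d)
    (h' : IsIrrK K χ' d') : IsIrrK K (fun γ : G × G' => χ γ.1 * χ' γ.2) (d * d') := by
  obtain ⟨σ₀⟩ : Nonempty (K →+* ℂ) := inferInstance
  have key := (h.isIrr σ₀).prod (h'.isIrr σ₀)
  refine ⟨mul_pos h.pos h'.pos, ?_, fun σ g => ?_, fun g k => ?_, fun g => ?_⟩
  · change χ 1 * χ' 1 = _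
    rw [h.one, h'.one]
    push_cast
    rfl
  · change σ (χ g.1⁻¹ * χ' g.2⁻¹) = starRingEnd ℂ (σ (χ g.1 * χ' g.2))
    rw [map_mul, h.inv, h'.inv, map_mul, map_mul]
  · apply σ₀.injective
    have h1 := key.func g k
    rw [map_sum, map_mul, map_mul, map_ratCast, map_mul, map_mul]
    rw [← h1]
    exact Finset.sum_congr rfl fun x _ => map_mul σ₀ _ _
  · apply σ₀.injective
    have h1 := key.conv g
    rw [map_sum, map_mul, map_ratCast, map_mul]
    rw [← h1]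
    refine Finset.sum_congr rfl fun x _ => ?_
    rw [map_mul, map_mul, map_mul]

end Pool.Agent.U191.FK
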