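import Pool.Agent.U191.FK.Thr

/-!
# Hodge types of the isotypic classes and the combinatorial part
-/

set_option autoImplicit false
set_option linter.unusedSectionVars false

open CategoryTheory AlgebraicGeometry

universe u v

namespace Pool.Agent.U191.FK

open Pool.Agent.H914 Pool.Agent.H914.VarClass Pool.Agent.H914.VarClass.Obj Pool.Agent.W492.BB
  Pool.Agent.W550.Corr Pool.Agent.TH133 Pool.Agent.U191.EY

variable {k : Type u} [Field k] {𝒱 : VarClass k} {C : TheoryData.{u, v, 0} 𝒱 ℚ}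
  [hC : IsChowProj C] {H : WeilTheoryData.{u, v, 0} C ℂ} [hH : IsWeilProj H] {B : 𝒱.Obj}
  {D : HodgeData H} {K : Type} [Field K] [NumberField K]

/-- There is an isotypic class of type `(1, 0)`. -/
def PosA (D : HodgeData H) (σ : K →+* ℂ) (f : Fac 𝒱 K) : Prop :=
  ∃ x, x ≠ 0 ∧ Eig H f σ 1 x ∧ x ∈ D.hdg f.c.V 1 0

/-- There is an isotypic class of type `(0, 1)`. -/
def PosB (D : HodgeData H) (σ : K →+* ℂ) (f : Fac 𝒱 K) : Prop :=
  ∃ x, x ≠ 0 ∧ Eig H f σ 1 x ∧ x ∈ D.hdg f.c.V 0 1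

/-- The character is trivial. -/
def IsTriv (f : Fac 𝒱 K) : Prop := ∀ g, f.χ g = 1

/-- The complex conjugate of an embedding. -/
noncomputable def bar (σ : K →+* ℂ) : K →+* ℂ := (starRingEnd ℂ).comp σ

lemma bar_bar (σ : K →+* ℂ) : bar (bar σ) = σ := by
  ext x
  exact Complex.conj_conj _

lemma eig_conj (hD : D.IsHodge) {f : Fac 𝒱 K} {σ : K →+* ℂ} {i : ℤ} {x : H.A f.c.V}
    (hx : Eig H f σ i x) : Eig H f (bar σ) i (D.conj f.c.V x) := by
  refine ⟨hD.conj_deg _ _ _ hx.1, ?_⟩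
  have h1 := congrArg (D.conj f.c.V) hx.2
  rw [conj_sum hD, hD.conj_smul, map_ratCast] at h1
  rw [← h1]
  refine Finset.sum_congr rfl fun g _ => ?_
  rw [hD.conj_smul]
  congr 1
  exact (hD.conj_pull _ _ (f.c.ρ g) x).symm

lemma posA_bar (hD : D.IsHodge) {f : Fac 𝒱 K} {σ : K →+* ℂ} (h : PosB D σ f) :
    PosA D (bar σ) f := by
  obtain ⟨x, hx0, hx, hx'⟩ := h
  exact ⟨_, conj_ne hD hx0, eig_conj hD hx, hD.conj_hdg _ _ _ _ hx'⟩

lemma posB_bar (hD : D.IsHodge) {f : Fac 𝒱 K} {σ : K →+* ℂ} (h : PosA D σ f) :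
    PosB D (bar σ) f := by
  obtain ⟨x, hx0, hx, hx'⟩ := h
  exact ⟨_, conj_ne hD hx0, eig_conj hD hx, hD.conj_hdg _ _ _ _ hx'⟩

lemma posA_bar_iff (hD : D.IsHodge) {f : Fac 𝒱 K} {σ : K →+* ℂ} :
    PosA D (bar σ) f ↔ PosB D σ f :=
  ⟨fun h => by simpa only [bar_bar] using posB_bar hD h, posA_bar hD⟩

lemma posB_bar_iff (hD : D.IsHodge) {f : Fac 𝒱 K} {σ : K →+* ℂ} :
    PosB D (bar σ) f ↔ PosA D σ f :=
  ⟨fun h => by simpa only [bar_bar] using posA_bar hD h, posB_bar hD⟩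

lemma eig_iff {f : Fac 𝒱 K} {σ : K →+* ℂ} {i : ℤ} {x : H.A f.c.V} (hx : x ∈ H.gr f.c.V i) :
    Eig H f σ i x ↔ avf H f σ x = (f.l : ℂ) • x := by
  rw [avf_apply]
  exact ⟨fun h => h.2, fun h => ⟨hx, h⟩⟩

lemma avf_hdg (hD : D.IsHodge) {f : Fac 𝒱 K} {σ : K →+* ℂ} {p q : ℕ} {x : H.A f.c.V}
    (hx : x ∈ D.hdg f.c.V p q) : avf H f σ x ∈ D.hdg f.c.V p q := by
  rw [avf_apply]
  exact Submodule.sum_mem _ fun g _ => Submodule.smul_mem _ _ (hD.pull_mem _ _ _ _ _ _ hx)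

lemma eig_split (hD : D.IsHodge) {f : Fac 𝒱 K} {σ : K →+* ℂ} {x : H.A f.c.V}
    (hx : Eig H f σ 1 x) :
    ∃ y z, x = y + z ∧ (Eig H f σ 1 y ∧ y ∈ D.hdg f.c.V 1 0) ∧
      (Eig H f σ 1 z ∧ z ∈ D.hdg f.c.V 0 1) := by
  obtain ⟨y, hy, z, hz, rfl⟩ := hD.split _ x hx.1
  have hy1 : y ∈ H.gr f.c.V 1 := by
    have := hD.hdg_deg _ _ _ _ hy
    norm_num at this
    exact this
  have hz1 : z ∈ H.gr f.c.V 1 := by
    have := hD.hdg_deg _ _ _ _ hz
    norm_num at this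
    exact this
  have h1 := (eig_iff hx.1).1 hx
  rw [map_add, smul_add] at h1
  have h2 : avf H f σ y - (f.l : ℂ) • y = (f.l : ℂ) • z - avf H f σ z := by
    rw [sub_eq_sub_iff_add_eq_add, h1, add_comm]
  have key : avf H f σ y - (f.l : ℂ) • y = 0 := by
    apply hD.disjoint
    · exact Submodule.sub_mem _ (avf_hdg hD hy) (Submodule.smul_mem _ _ hy)
    · rw [h2]
      exact Submodule.sub_mem _ (Submodule.smul_mem _ _ hz) (avf_hdg hD hz)
  refine ⟨y, z, rfl, ⟨(eig_iff hy1).2 (sub_eq_zero.1 key), hy⟩, (eig_iff hz1).2 ?_, hz⟩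
  rw [sub_eq_zero.1 key] at h1
  exact add_left_cancel h1

lemma sum_sig {f : Fac 𝒱 K} (hf : f.Ok) (hχ : ¬ IsTriv f) (σ : K →+* ℂ) :
    ∑ g, σ (f.χ g) = 0 := by
  refine (hf.irr.isIrr σ).sum_zero.resolve_right fun h => hχ fun g => ?_
  apply σ.injective
  rw [map_one]
  exact h g

/-- Isotypic classes for a non-trivial character have degree one. -/
lemma eig_zero {f : Fac 𝒱 K} (hf : f.Ok) (hχ : ¬ IsTriv f) {σ : K →+* ℂ} {i : ℤ}
    {x : H.A f.c.V} (hx : Eig H f σ i x) (hi : i ≠ 1) : x = 0 := by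
  by_contra hx0
  have h0 := nonneg_of_mem H hx.1 hx0
  have h2 : i ≤ 2 := by
    by_contra hlt
    have h1 := hx.1
    rw [gr_top H (by rw [hf.act.dim_eq]; push_cast; omega)] at h1
    exact hx0 ((Submodule.mem_bot _).1 h1)
  have hfl : (f.l : ℂ) ≠ 0 := by
    have := (hf.irr.isIrr σ).l_pos
    exact_mod_cast this.ne'
  have h3 : i = 0 ∨ i = 2 := by omega
  have h4 := hx.2
  rcases h3 with rfl | rfl
  · obtain ⟨q, rfl⟩ := hH.gr_zero _ x hx.1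
    have h5 : ∀ g, σ (f.χ g) • H.pull (f.c.ρ g) (q • (1 : H.A f.c.V)) =
        σ (f.χ g) • (q • (1 : H.A f.c.V)) := by
      intro g
      rw [map_smul, map_one]
    rw [Finset.sum_congr rfl fun g _ => h5 g, ← Finset.sum_smul, sum_sig hf hχ, zero_smul] at h4
    exact hx0 ((smul_eq_zero.1 h4.symm).resolve_left hfl)
  · have h5 := congrArg (H.tr f.c.V) h4
    rw [map_sum, map_smul] at h5
    have h6 : ∀ g, H.tr f.c.V (σ (f.χ g) • H.pull (f.c.ρ g) x) =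
        σ (f.χ g) * H.tr f.c.V x := by
      intro g
      rw [map_smul, smul_eq_mul, tr_pull_iso (H := H) (f.c.ρ g) (f.c.ρ g⁻¹) (ρ_inv hf.act g)
        (ρ_inv' hf.act g) x]
    rw [Finset.sum_congr rfl fun g _ => h6 g, ← Finset.sum_mul, sum_sig hf hχ, zero_mul] at h5
    apply hx0
    apply eq_zero_of_tr (S := f.c.V)
    · rw [hf.act.dim_eq]
      exact hx.1
    · exact (smul_eq_zero.1 h5.symm).resolve_left hfl

lemma eig_triv {f : Fac 𝒱 K} (hχ : IsTriv f) {σ τ : K →+* ℂ} {i : ℤ} {x : H.A f.c.V}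
    (hx : Eig H f σ i x) : Eig H f τ i x := by
  refine ⟨hx.1, hx.2 ▸ Finset.sum_congr rfl fun g _ => ?_⟩
  rw [hχ g, map_one, map_one]

lemma posB_of_triv (hD : D.IsHodge) {f : Fac 𝒱 K} (hχ : IsTriv f) {σ : K →+* ℂ}
    (h : PosA D σ f) : PosB D σ f := by
  obtain ⟨x, hx0, hx, hxA⟩ := posB_bar hD h
  exact ⟨x, hx0, eig_triv hχ hx, hxA⟩

lemma posA_of_triv (hD : D.IsHodge) {f : Fac 𝒱 K} (hχ : IsTriv f) {σ : K →+* ℂ}
    (h : PosB D σ f) : PosA D σ f := by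
  obtain ⟨x, hx0, hx, hxA⟩ := posA_bar hD h
  exact ⟨x, hx0, eig_triv hχ hx, hxA⟩

/-- Pure factors of type `(1, 0)`. -/
lemma pureA (hD : D.IsHodge) {f : Fac 𝒱 K} (hf : f.Ok) {σ : K →+* ℂ} (hA : PosA D σ f)
    (hB : ¬ PosB D σ f) {i : ℤ} {x : H.A f.c.V} (hx : Eig H f σ i x) : x ∈ D.hdg f.c.V 1 0 := by
  have hχ : ¬ IsTriv f := fun h => hB (posB_of_triv hD h hA)
  by_cases hi : i = 1
  · subst hi
    obtain ⟨y, z, rfl, ⟨_, hy⟩, ⟨hz, hz'⟩⟩ := eig_split hD hx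
    have : z = 0 := by
      by_contra hz0
      exact hB ⟨z, hz0, hz, hz'⟩
    rw [this, add_zero]
    exact hy
  · rw [eig_zero hf hχ hx hi]
    exact Submodule.zero_mem _

/-- Pure factors of type `(0, 1)`. -/
lemma pureB (hD : D.IsHodge) {f : Fac 𝒱 K} (hf : f.Ok) {σ : K →+* ℂ} (hA : ¬ PosA D σ f)
    (hB : PosB D σ f) {i : ℤ} {x : H.A f.c.V} (hx : Eig H f σ i x) : x ∈ D.hdg f.c.V 0 1 := by
  have hχ : ¬ IsTriv f := fun h => hA (posA_of_triv hD h hB)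
  by_cases hi : i = 1
  · subst hi
    obtain ⟨y, z, rfl, ⟨hy, hy'⟩, ⟨_, hz⟩⟩ := eig_split hD hx
    have : y = 0 := by
      by_contra hy0
      exact hA ⟨y, hy0, hy, hy'⟩
    rw [this, zero_add]
    exact hz
  · rw [eig_zero hf hχ hx hi]
    exact Submodule.zero_mem _

/-- No isotypic classes in degree one. -/
lemma eig_none (hD : D.IsHodge) {f : Fac 𝒱 K} {σ : K →+* ℂ} (hA : ¬ PosA D σ f)
    (hB : ¬ PosB D σ f) {x : H.A f.c.V} (hx : Eig H f σ 1 x) : x = 0 := by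
  obtain ⟨y, z, rfl, ⟨hy, hy'⟩, ⟨hz, hz'⟩⟩ := eig_split hD hx
  have e1 : y = 0 := by
    by_contra hy0
    exact hA ⟨y, hy0, hy, hy'⟩
  have e2 : z = 0 := by
    by_contra hz0
    exact hB ⟨z, hz0, hz, hz'⟩
  rw [e1, e2, add_zero]

/-- The kind of the factor (no isotypic classes in degree one; both types; exactly one type) does
not depend on the embedding. -/
def Bal (D : HodgeData H) (f : Fac 𝒱 K) : Prop :=
  ∀ σ τ : K →+* ℂ, (PosA D σ f ∨ PosB D σ f → PosA D τ f ∨ PosB D τ f) ∧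
    (PosA D σ f ∧ PosB D σ f → PosA D τ f ∧ PosB D τ f)

/-- The factors are opposite. -/
def Opp (D : HodgeData H) (f f' : Fac 𝒱 K) : Prop :=
  ∀ σ : K →+* ℂ, (PosA D σ f ∧ ¬ PosB D σ f ∧ ¬ PosA D σ f' ∧ PosB D σ f') ∨
    (¬ PosA D σ f ∧ PosB D σ f ∧ PosA D σ f' ∧ ¬ PosB D σ f')

open Classical in
/-- The number of pure factors of type `(1, 0)`. -/
noncomputable def nP (D : HodgeData H) (σ : K →+* ℂ) (L : List (Fac 𝒱 K)) : ℕ :=
  L.countP fun f => decide (PosA D σ f ∧ ¬ PosB D σ f)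

open Classical in
/-- The number of pure factors of type `(0, 1)`. -/
noncomputable def nN (D : HodgeData H) (σ : K →+* ℂ) (L : List (Fac 𝒱 K)) : ℕ :=
  L.countP fun f => decide (¬ PosA D σ f ∧ PosB D σ f)

open Classical in
/-- The number of mixed factors. -/
noncomputable def nM (D : HodgeData H) (σ : K →+* ℂ) (L : List (Fac 𝒱 K)) : ℕ :=
  L.countP fun f => decide (PosA D σ f ∧ PosB D σ f)

lemma count_cons (σ : K →+* ℂ) (f : Fac 𝒱 K) (L : List (Fac 𝒱 K)) :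
    (PosA D σ f ∧ ¬ PosB D σ f → nP D σ (f :: L) = nP D σ L + 1 ∧ nN D σ (f :: L) = nN D σ L ∧
      nM D σ (f :: L) = nM D σ L) ∧
    (¬ PosA D σ f ∧ PosB D σ f → nP D σ (f :: L) = nP D σ L ∧ nN D σ (f :: L) = nN D σ L + 1 ∧
      nM D σ (f :: L) = nM D σ L) ∧
    (PosA D σ f ∧ PosB D σ f → nP D σ (f :: L) = nP D σ L ∧ nN D σ (f :: L) = nN D σ L ∧
      nM D σ (f :: L) = nM D σ L + 1) ∧
    (¬ PosA D σ f ∧ ¬ PosB D σ f → nP D σ (f :: L) = nP D σ L ∧ nN D σ (f :: L) = nN D σ L ∧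
      nM D σ (f :: L) = nM D σ L) := by
  classical
  unfold nP nM nN
  by_cases hA : PosA D σ f <;> by_cases hB : PosB D σ f <;> simp [hA, hB]

lemma count_perm (σ : K →+* ℂ) {L L' : List (Fac 𝒱 K)} (h : L.Perm L') :
    nP D σ L = nP D σ L' ∧ nN D σ L = nN D σ L' ∧ nM D σ L = nM D σ L' :=
  ⟨h.countP_eq _, h.countP_eq _, h.countP_eq _⟩

lemma count_length (σ : K →+* ℂ) : ∀ (L : List (Fac 𝒱 K)),
    (∀ f ∈ L, PosA D σ f ∨ PosB D σ f) → L.length = nP D σ L + nN D σ L + nM D σ L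
  | [], _ => by simp [nP, nN, nM]
  | f :: L, h => by
    have ih := count_length σ L fun g hg => h g (List.mem_cons_of_mem _ hg)
    have h1 := h f List.mem_cons_self
    obtain ⟨c1, c2, c3, c4⟩ := count_cons (D := D) σ f L
    rw [List.length_cons, ih]
    by_cases hA : PosA D σ f <;> by_cases hB : PosB D σ f
    · obtain ⟨e1, e2, e3⟩ := c3 ⟨hA, hB⟩
      omega
    · obtain ⟨e1, e2, e3⟩ := c1 ⟨hA, hB⟩
      omega
    · obtain ⟨e1, e2, e3⟩ := c2 ⟨hA, hB⟩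
      omega
    · exact absurd h1 (by tauto)

/-- The field has at most two archimedean places, or it is totally real. -/
def TwoPlaces (K : Type) [Field K] : Prop :=
  (∃ σ₁ σ₂ : K →+* ℂ, ∀ σ : K →+* ℂ, σ = σ₁ ∨ σ = bar σ₁ ∨ σ = σ₂ ∨ σ = bar σ₂) ∨
    ∀ σ : K →+* ℂ, bar σ = σ

/-- A list without opposite pairs: at some embedding all the pure factors are of the same type. -/
lemma exists_place (hD : D.IsHodge) (hK : TwoPlaces K) {L : List (Fac 𝒱 K)}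
    (hbal : ∀ f ∈ L, Bal D f) (hno : ∀ f ∈ L, ∀ f' ∈ L, ¬ Opp D f f') :
    ∃ σ : K →+* ℂ, nP D σ L = 0 ∨ nN D σ L = 0 := by
  classical
  rcases hK with ⟨σ₁, σ₂, hσ⟩ | hreal
  swap
  · obtain ⟨σ⟩ : Nonempty (K →+* ℂ) := inferInstance
    refine ⟨σ, Or.inl ?_⟩
    rw [nP, List.countP_eq_zero]
    intro f _ hf'
    have h1 : PosA D σ f ∧ ¬ PosB D σ f := of_decide_eq_true hf'
    have h2 := posB_bar hD h1.1
    rw [hreal σ] at h2
    exact h1.2 h2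
  by_contra hn
  push Not at hn
  have hex : ∀ σ : K →+* ℂ, (∃ f ∈ L, PosA D σ f ∧ ¬ PosB D σ f) ∧
      (∃ f ∈ L, ¬ PosA D σ f ∧ PosB D σ f) := by
    intro σ
    obtain ⟨h1, h2⟩ := hn σ
    obtain ⟨f, hf, hf'⟩ := List.countP_pos_iff.1 (Nat.pos_of_ne_zero h1)
    obtain ⟨g, hg, hg'⟩ := List.countP_pos_iff.1 (Nat.pos_of_ne_zero h2)
    exact ⟨⟨f, hf, of_decide_eq_true hf'⟩, ⟨g, hg, of_decide_eq_true hg'⟩⟩
  -- pure factors are pure everywhere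
  have hpure : ∀ f ∈ L, ∀ σ τ : K →+* ℂ, (PosA D σ f ∧ ¬ PosB D σ f ∨ ¬ PosA D σ f ∧ PosB D σ f) →
      (PosA D τ f ∧ ¬ PosB D τ f ∨ ¬ PosA D τ f ∧ PosB D τ f) := by
    intro f hf σ τ h
    have h1 := hbal f hf σ τ
    have h2 := hbal f hf τ σ
    tauto
  have hopp : ∀ f ∈ L, ∀ g ∈ L,
      ((PosA D σ₁ f ∧ ¬ PosB D σ₁ f ∧ ¬ PosA D σ₁ g ∧ PosB D σ₁ g) ∨
        (¬ PosA D σ₁ f ∧ PosB D σ₁ f ∧ PosA D σ₁ g ∧ ¬ PosB D σ₁ g)) →
      ((PosA D σ₂ f ∧ ¬ PosB D σ₂ f ∧ ¬ PosA D σ₂ g ∧ PosB D σ₂ g) ∨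
        (¬ PosA D σ₂ f ∧ PosB D σ₂ f ∧ PosA D σ₂ g ∧ ¬ PosB D σ₂ g)) → False := by
    intro f hf g hg h1 h2
    apply hno f hf g hg
    intro σ
    rcases hσ σ with rfl | rfl | rfl | rfl
    · exact h1
    · rw [posA_bar_iff hD, posA_bar_iff hD, posB_bar_iff hD, posB_bar_iff hD]
      tauto
    · exact h2
    · rw [posA_bar_iff hD, posA_bar_iff hD, posB_bar_iff hD, posB_bar_iff hD]
      tauto
  obtain ⟨⟨f, hf, hfA, hfB⟩, g, hg, hgA, hgB⟩ := hex σ₁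
  obtain ⟨⟨f', hf', hfA', hfB'⟩, g', hg', hgA', hgB'⟩ := hex σ₂
  rcases hpure f hf σ₁ σ₂ (Or.inl ⟨hfA, hfB⟩) with ⟨a1, a2⟩ | ⟨a1, a2⟩ <;>
  rcases hpure g hg σ₁ σ₂ (Or.inr ⟨hgA, hgB⟩) with ⟨b1, b2⟩ | ⟨b1, b2⟩ <;>
  rcases hpure f' hf' σ₂ σ₁ (Or.inl ⟨hfA', hfB'⟩) with ⟨c1, c2⟩ | ⟨c1, c2⟩ <;>
  rcases hpure g' hg' σ₂ σ₁ (Or.inr ⟨hgA', hgB'⟩) with ⟨d1, d2⟩ | ⟨d1, d2⟩
  · exact hopp g hg g' hg' (Or.inr ⟨hgA, hgB, d1, d2⟩) (Or.inl ⟨b1, b2, hgA', hgB'⟩)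
  · exact hopp f hf g' hg' (Or.inl ⟨hfA, hfB, d1, d2⟩) (Or.inl ⟨a1, a2, hgA', hgB'⟩)
  · exact hopp g hg g' hg' (Or.inr ⟨hgA, hgB, d1, d2⟩) (Or.inl ⟨b1, b2, hgA', hgB'⟩)
  · exact hopp f hf g' hg' (Or.inl ⟨hfA, hfB, d1, d2⟩) (Or.inl ⟨a1, a2, hgA', hgB'⟩)
  · exact hopp f hf g hg (Or.inl ⟨hfA, hfB, hgA, hgB⟩) (Or.inl ⟨a1, a2, b1, b2⟩)
  · exact hopp f hf g hg (Or.inl ⟨hfA, hfB, hgA, hgB⟩) (Or.inl ⟨a1, a2, b1, b2⟩)
  · exact hopp f hf g hg (Or.inl ⟨hfA, hfB, hgA, hgB⟩) (Or.inl ⟨a1, a2, b1, b2⟩)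
  · exact hopp f hf g hg (Or.inl ⟨hfA, hfB, hgA, hgB⟩) (Or.inl ⟨a1, a2, b1, b2⟩)
  · exact hopp f hf g hg (Or.inl ⟨hfA, hfB, hgA, hgB⟩) (Or.inr ⟨a1, a2, b1, b2⟩)
  · exact hopp f hf g hg (Or.inl ⟨hfA, hfB, hgA, hgB⟩) (Or.inr ⟨a1, a2, b1, b2⟩)
  · exact hopp f hf g hg (Or.inl ⟨hfA, hfB, hgA, hgB⟩) (Or.inr ⟨a1, a2, b1, b2⟩)
  · exact hopp f hf g hg (Or.inl ⟨hfA, hfB, hgA, hgB⟩) (Or.inr ⟨a1, a2, b1, b2⟩)
  · exact hopp g hg f' hf' (Or.inr ⟨hgA, hgB, c1, c2⟩) (Or.inr ⟨b1, b2, hfA', hfB'⟩)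
  · exact hopp g hg f' hf' (Or.inr ⟨hgA, hgB, c1, c2⟩) (Or.inr ⟨b1, b2, hfA', hfB'⟩)
  · exact hopp f hf f' hf' (Or.inl ⟨hfA, hfB, c1, c2⟩) (Or.inr ⟨a1, a2, hfA', hfB'⟩)
  · exact hopp f hf f' hf' (Or.inl ⟨hfA, hfB, c1, c2⟩) (Or.inr ⟨a1, a2, hfA', hfB'⟩)

/-- The list `L'` arises from `L` by the removal of `ρ` opposite pairs and of trivial factors; it
contains no such pairs. -/
structure Reduct (D : HodgeData H) (L L' : List (Fac 𝒱 K)) (ρ : ℕ) : Prop where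
  sub : ∀ f ∈ L', f ∈ L
  count : ∀ σ : K →+* ℂ, nP D σ L = nP D σ L' + ρ ∧ nN D σ L = nN D σ L' + ρ ∧
    nM D σ L = nM D σ L'
  pos : ∀ f ∈ L', ∀ σ : K →+* ℂ, PosA D σ f ∨ PosB D σ f
  no : ∀ f ∈ L', ∀ f' ∈ L', ¬ Opp D f f'

/-- The product of the remaining factors. -/
def PR (D : HodgeData H) (B : 𝒱.Obj) (L : List (Fac 𝒱 K)) (W : 𝒱.Obj) (δ : ℤ) : Prop :=
  ∃ (L' : List (Fac 𝒱 K)) (ρ : ℕ), W = prodL B (cs L') ∧ Reduct D L L' ρ ∧ (ρ : ℤ) ≤ δ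

/-- Removal of the opposite pairs and of the trivial factors. -/
theorem goodT_reduct (hD : D.IsHodge) : ∀ (n : ℕ) (L : List (Fac 𝒱 K)), L.length = n →
    (∀ f ∈ L, f.Ok) → (∀ f ∈ L, Bal D f) →
    (∀ f ∈ L, ∀ σ : K →+* ℂ, ¬ PosA D σ f → ¬ PosB D σ f → IsTriv f) →
    GoodT H (PR D B L) B L := by
  classical
  intro n
  induction n using Nat.strong_induction_on with
  | _ n ih =>
    intro L hn hL hbal hT
    by_cases hempty : ∃ f ∈ L, ∃ σ : K →+* ℂ, ¬ PosA D σ f ∧ ¬ PosB D σ f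
    · obtain ⟨f, hf, σ, hA, hB⟩ := hempty
      obtain ⟨L1, hL1⟩ := exists_perm_of_mem hf
      have hnone : ∀ τ : K →+* ℂ, ¬ PosA D τ f ∧ ¬ PosB D τ f := by
        intro τ
        have h1 := hbal f hf τ σ
        tauto
      have hL' : ∀ g ∈ f :: L1, g ∈ L := fun g hg => hL1.mem_iff.2 hg
      have hlen := hL1.length_eq
      rw [List.length_cons] at hlen
      refine goodT_perm hD hL1 (goodT_triv (hL f hf).act
        (fun τ x hx => eig_none hD (hnone τ).1 (hnone τ).2 hx) ?_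
        (ih L1.length (by omega) L1 rfl (fun g hg => hL g (hL' g (by simp [hg])))
          (fun g hg => hbal g (hL' g (by simp [hg])))
          (fun g hg => hT g (hL' g (by simp [hg])))))
      rintro W δ ⟨L', ρ, hW, hR, hρ⟩
      have h1 : Reduct D L L' ρ := by
        refine ⟨fun g hg => hL' g (by simp [hR.sub g hg]), fun τ => ?_, hR.pos, hR.no⟩
        obtain ⟨p1, p2, p3⟩ := count_perm (D := D) τ hL1
        obtain ⟨e1, e2, e3⟩ := (count_cons (D := D) τ f L1).2.2.2 (hnone τ)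
        obtain ⟨r1, r2, r3⟩ := hR.count τ
        exact ⟨by omega, by omega, by omega⟩
      exact ⟨⟨L', ρ, hW, h1, hρ⟩, ⟨L', ρ, hW, h1, by omega⟩⟩
    · push Not at hempty
      by_cases hopp : ∃ f ∈ L, ∃ f' ∈ L, Opp D f f'
      · obtain ⟨f, hf, f', hf', ho⟩ := hopp
        obtain ⟨L1, hL1⟩ := exists_perm_of_mem hf
        have hne : f' ≠ f := by
          rintro rfl
          obtain ⟨σ⟩ : Nonempty (K →+* ℂ) := inferInstance
          have := ho σ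
          tauto
        have hf1 : f' ∈ L1 := by
          rcases List.mem_cons.1 (hL1.mem_iff.1 hf') with h | h
          · exact absurd h hne
          · exact h
        obtain ⟨L2, hL2⟩ := exists_perm_of_mem hf1
        have hperm : L.Perm (f :: f' :: L2) := hL1.trans (hL2.cons f)
        have hL' : ∀ g ∈ f :: f' :: L2, g ∈ L := fun g hg => hperm.mem_iff.2 hg
        have hlen' := hperm.length_eq
        rw [List.length_cons, List.length_cons] at hlen'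
        refine goodT_perm hD hperm (goodT_pair hD (hL f hf) (hL f' hf') ?_ ?_
          (ih L2.length (by omega) L2 rfl (fun g hg => hL g (hL' g (by simp [hg])))
            (fun g hg => hbal g (hL' g (by simp [hg])))
            (fun g hg => hT g (hL' g (by simp [hg])))))
        · intro σ i i' x y hx hy
          rcases ho σ with ⟨a1, a2, a3, a4⟩ | ⟨a1, a2, a3, a4⟩
          · exact hD.mul_mem _ 1 0 0 1 _ _
              (hD.pull_mem _ _ _ _ _ _ (pureA hD (hL f hf) a1 a2 hx))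
              (hD.pull_mem _ _ _ _ _ _ (pureB hD (hL f' hf') a3 a4 hy))
          · exact hD.mul_mem _ 0 1 1 0 _ _
              (hD.pull_mem _ _ _ _ _ _ (pureB hD (hL f hf) a1 a2 hx))
              (hD.pull_mem _ _ _ _ _ _ (pureA hD (hL f' hf') a3 a4 hy))
        · rintro W δ ⟨L', ρ, hW, hR, hρ⟩
          refine ⟨L', ρ + 1, hW, ⟨fun g hg => hL' g (by simp [hR.sub g hg]), fun τ => ?_,
            hR.pos, hR.no⟩, by push_cast; omega⟩
          obtain ⟨p1, p2, p3⟩ := count_perm (D := D) τ hperm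
          obtain ⟨r1, r2, r3⟩ := hR.count τ
          rcases ho τ with ⟨a1, a2, a3, a4⟩ | ⟨a1, a2, a3, a4⟩
          · obtain ⟨e1, e2, e3⟩ := (count_cons (D := D) τ f (f' :: L2)).1 ⟨a1, a2⟩
            obtain ⟨e1', e2', e3'⟩ := (count_cons (D := D) τ f' L2).2.1 ⟨a3, a4⟩
            exact ⟨by omega, by omega, by omega⟩
          · obtain ⟨e1, e2, e3⟩ := (count_cons (D := D) τ f (f' :: L2)).2.1 ⟨a1, a2⟩
            obtain ⟨e1', e2', e3'⟩ := (count_cons (D := D) τ f' L2).1 ⟨a3, a4⟩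
            exact ⟨by omega, by omega, by omega⟩
      · push Not at hopp
        apply goodT_base
        refine ⟨L, 0, rfl, ⟨fun f hf => hf, fun σ => ⟨rfl, rfl, rfl⟩, fun f hf σ => ?_, hopp⟩,
          by simp⟩
        by_cases hA : PosA D σ f
        · exact Or.inl hA
        · exact Or.inr (hempty f hf σ hA)

open Classical in
/-- The first selection of Hodge types. -/
noncomputable def s1 (D : HodgeData H) (σ : K →+* ℂ) (f : Fac 𝒱 K) : ℕ × ℕ :=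
  if PosA D σ f then (1, 0) else if PosB D σ f then (0, 1) else (0, 0)

open Classical in
/-- The second selection of Hodge types. -/
noncomputable def s2 (D : HodgeData H) (σ : K →+* ℂ) (f : Fac 𝒱 K) : ℕ × ℕ :=
  if PosB D σ f then (0, 1) else if PosA D σ f then (1, 0) else (0, 0)

lemma sum_s1 (D : HodgeData H) (σ : K →+* ℂ) (L : List (Fac 𝒱 K)) :
    (L.map fun f => (s1 D σ f).1).sum = nP D σ L + nM D σ L ∧
    (L.map fun f => (s1 D σ f).2).sum = nN D σ L := by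
  classical
  induction L with
  | nil => exact ⟨rfl, rfl⟩
  | cons f L ih =>
    rw [List.map_cons, List.map_cons, List.sum_cons, List.sum_cons, ih.1, ih.2]
    unfold nP nM nN s1
    by_cases hA : PosA D σ f <;> by_cases hB : PosB D σ f <;>
      simp only [List.countP_cons, hA, hB, not_true_eq_false, not_false_eq_true, and_true,
        and_false, if_true, if_false, decide_true, decide_false] <;>
      constructor <;> (try simp) <;> omega

lemma sum_s2 (D : HodgeData H) (σ : K →+* ℂ) (L : List (Fac 𝒱 K)) :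
    (L.map fun f => (s2 D σ f).1).sum = nP D σ L ∧
    (L.map fun f => (s2 D σ f).2).sum = nN D σ L + nM D σ L := by
  classical
  induction L with
  | nil => exact ⟨rfl, rfl⟩
  | cons f L ih =>
    rw [List.map_cons, List.map_cons, List.sum_cons, List.sum_cons, ih.1, ih.2]
    unfold nP nM nN s2
    by_cases hA : PosA D σ f <;> by_cases hB : PosB D σ f <;>
      simp only [List.countP_cons, hA, hB, not_true_eq_false, not_false_eq_true, and_true,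
        and_false, if_true, if_false, decide_true, decide_false] <;>
      constructor <;> (try simp) <;> omega

/-- **The combinatorial part.** Either some factor has no isotypic classes, or at every embedding
there are nonzero product classes of the two extreme types, and the reduction is possible. -/
theorem goodT_or (hD : D.IsHodge) {L : List (Fac 𝒱 K)} (hL : ∀ f ∈ L, f.Ok)
    (hbal : ∀ f ∈ L, Bal D f) :
    (∀ P, GoodT H P B L) ∨ (GoodT H (PR D B L) B L ∧ ∀ σ : K →+* ℂ,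
      (∃ w : H.A (prodL B (cs L)), w ≠ 0 ∧ PC H B σ L w ∧
        w ∈ D.hdg (prodL B (cs L)) (nP D σ L + nM D σ L) (nN D σ L)) ∧
      ∃ w : H.A (prodL B (cs L)), w ≠ 0 ∧ PC H B σ L w ∧
        w ∈ D.hdg (prodL B (cs L)) (nP D σ L) (nN D σ L + nM D σ L)) := by
  classical
  by_cases hvoid : ∃ f ∈ L, (∃ σ : K →+* ℂ, ¬ PosA D σ f ∧ ¬ PosB D σ f) ∧ ¬ IsTriv f
  · left
    intro P
    obtain ⟨f, hf, ⟨σ, hA, hB⟩, hχ⟩ := hvoid
    apply goodT_void hf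
    intro τ i x hx
    have h1 := hbal f hf τ σ
    by_cases hi : i = 1
    · subst hi
      exact eig_none hD (σ := τ) (by tauto) (by tauto) hx
    · exact eig_zero (hL f hf) hχ hx hi
  · right
    push Not at hvoid
    refine ⟨goodT_reduct hD L.length L rfl hL hbal
      fun f hf σ hA hB => hvoid f hf ⟨σ, hA, hB⟩, fun σ => ?_⟩
    have hone : ∀ f ∈ L, ¬ PosA D σ f → ¬ PosB D σ f → ∃ (i : ℤ) (x : H.A f.c.V), x ≠ 0 ∧
        Eig H f σ i x ∧ x ∈ D.hdg f.c.V 0 0 := by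
      intro f hf hA hB
      refine ⟨0, 1, hH.one_ne_zero _, ⟨H.one_mem _, ?_⟩, hD.one_mem _⟩
      have hχ := hvoid f hf ⟨σ, hA, hB⟩
      have h1 : ∀ g, σ (f.χ g) • H.pull (f.c.ρ g) (1 : H.A f.c.V) = 1 := by
        intro g
        rw [map_one, hχ g, map_one, one_smul]
      have hd : f.d = 1 := by
        have h2 := (hL f hf).irr.one
        rw [hχ 1] at h2
        exact_mod_cast h2.symm
      rw [Finset.sum_congr rfl fun g _ => h1 g, Finset.sum_const, Finset.card_univ, Fac.l, hd,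
        div_one, ← Nat.cast_smul_eq_nsmul ℂ]
      norm_num
    obtain ⟨w1, hw1, hw1', hw1''⟩ := exists_pc (B := B) hD σ (s1 D σ) L (by
      intro f hf
      unfold s1
      split_ifs with hA hB
      · obtain ⟨x, hx0, hx, hx'⟩ := hA
        exact ⟨1, x, hx0, hx, hx'⟩
      · obtain ⟨x, hx0, hx, hx'⟩ := hB
        exact ⟨1, x, hx0, hx, hx'⟩
      · exact hone f hf hA hB)
    obtain ⟨w2, hw2, hw2', hw2''⟩ := exists_pc (B := B) hD σ (s2 D σ) L (by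
      intro f hf
      unfold s2
      split_ifs with hB hA
      · obtain ⟨x, hx0, hx, hx'⟩ := hB
        exact ⟨1, x, hx0, hx, hx'⟩
      · obtain ⟨x, hx0, hx, hx'⟩ := hA
        exact ⟨1, x, hx0, hx, hx'⟩
      · exact hone f hf hA hB)
    rw [(sum_s1 D σ L).1, (sum_s1 D σ L).2] at hw1''
    rw [(sum_s2 D σ L).1, (sum_s2 D σ L).2] at hw2''
    exact ⟨⟨w1, hw1, hw1', hw1''⟩, ⟨w2, hw2, hw2', hw2''⟩⟩

/-- **Level.** If all nonzero product classes of type `(p, q)` have `|p - q| ≤ ℓ` then the factors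
are good for the products of at most `ℓ` of the curves. -/
theorem goodT_level (hD : D.IsHodge) (hK : TwoPlaces K) {ℓ : ℕ} {L : List (Fac 𝒱 K)}
    (hL : ∀ f ∈ L, f.Ok) (hbal : ∀ f ∈ L, Bal D f)
    (h : ∀ (σ : K →+* ℂ) p q w, PC H B σ L w → w ∈ D.hdg (prodL B (cs L)) p q → w ≠ 0 →
      p ≤ q + ℓ ∧ q ≤ p + ℓ) {P : 𝒱.Obj → ℤ → Prop}
    (hP : ∀ (L' : List (Fac 𝒱 K)) (δ : ℤ), L'.length ≤ ℓ → (∀ f ∈ L', f ∈ L) → 0 ≤ δ →
      P (prodL B (cs L')) δ) : GoodT H P B L := by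
  rcases goodT_or (B := B) hD hL hbal with h1 | ⟨⟨Γ, hΓ, hΓ'⟩, h2⟩
  · exact h1 P
  · refine ⟨Γ, thr_mono ?_ hΓ, hΓ'⟩
    rintro W δ ⟨L', ρ, rfl, hR, hρ⟩
    refine hP L' δ ?_ hR.sub (by omega)
    obtain ⟨σ, hσ⟩ := exists_place hD hK (fun f hf => hbal f (hR.sub f hf)) hR.no
    obtain ⟨⟨w1, a1, a2, a3⟩, ⟨w2, b1, b2, b3⟩⟩ := h2 σ
    have c1 := h σ _ _ w1 a2 a3 a1
    have c2 := h σ _ _ w2 b2 b3 b1
    have hlen := count_length (D := D) σ L' fun f hf => hR.pos f hf σ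
    obtain ⟨r1, r2, r3⟩ := hR.count σ
    omega

/-- **Coniveau.** If all nonzero product classes of type `(p, q)`, `p ≠ q`, have
`min (p, q) ≥ c` then the factors are good: at least `c` pairs, or all factors, are removed. -/
theorem goodT_coniveau (hD : D.IsHodge) (hK : TwoPlaces K) {c : ℕ} {L : List (Fac 𝒱 K)}
    (hL : ∀ f ∈ L, f.Ok) (hbal : ∀ f ∈ L, Bal D f)
    (h : ∀ (σ : K →+* ℂ) p q w, PC H B σ L w → w ∈ D.hdg (prodL B (cs L)) p q → w ≠ 0 →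
      p = q ∨ (c ≤ p ∧ c ≤ q)) {P : 𝒱.Obj → ℤ → Prop}
    (hP : ∀ (W : 𝒱.Obj) (δ : ℤ), 0 ≤ δ → (c ≤ δ ∨ W = B) → P W δ) : GoodT H P B L := by
  rcases goodT_or (B := B) hD hL hbal with h1 | ⟨⟨Γ, hΓ, hΓ'⟩, h2⟩
  · exact h1 P
  · refine ⟨Γ, thr_mono ?_ hΓ, hΓ'⟩
    rintro W δ ⟨L', ρ, rfl, hR, hρ⟩
    refine hP _ δ (by omega) ?_
    obtain ⟨σ, hσ⟩ := exists_place hD hK (fun f hf => hbal f (hR.sub f hf)) hR.no
    obtain ⟨⟨w1, a1, a2, a3⟩, ⟨w2, b1, b2, b3⟩⟩ := h2 σ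
    have c1 := h σ _ _ w1 a2 a3 a1
    have c2 := h σ _ _ w2 b2 b3 b1
    have hlen := count_length (D := D) σ L' fun f hf => hR.pos f hf σ
    obtain ⟨r1, r2, r3⟩ := hR.count σ
    by_cases hc : c ≤ ρ
    · exact Or.inl (by omega)
    · right
      have h0 : L'.length = 0 := by omega
      rw [List.length_eq_zero_iff.1 h0]
      rfl

end Pool.Agent.U191.FK
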