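import Pool.Agent.U191.FK.Surf

/-!
# Level and coniveau together
-/

set_option autoImplicit false
set_option linter.unusedSectionVars false

open CategoryTheory AlgebraicGeometry

universe u v

namespace Pool.Agent.U191.FK

open Pool.Agent.H914 Pool.Agent.H914.VarClass Pool.Agent.H914.VarClass.Obj Pool.Agent.W492.BB
  Pool.Agent.W550.Corr Pool.Agent.TH133 Pool.Agent.U191.EY
open Pool.Agent.W484.CK (iterate Nilpotence)

variable {k : Type u} [Field k] {𝒱 : VarClass k} {C : TheoryData.{u, v, 0} 𝒱 ℚ}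
  [hC : IsChowProj C] {H : WeilTheoryData.{u, v, 0} C ℂ} [hH : IsWeilProj H] {B : 𝒱.Obj}

/-- **Level and coniveau.** If all nonzero product classes of type `(p, q)` have `|p - q| ≤ ℓ` or
`min (p, q) ≥ c` then the factors are good: at least `c` pairs are removed or at most `ℓ` factors
remain. -/
theorem goodT_mixed {K : Type} [Field K] [NumberField K] {D : HodgeData H} (hD : D.IsHodge)
    (hK : TwoPlaces K) {ℓ c : ℕ} {L : List (Fac 𝒱 K)}
    (hL : ∀ f ∈ L, f.Ok) (hbal : ∀ f ∈ L, Bal D f)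
    (h : ∀ (σ : K →+* ℂ) p q w, PC H B σ L w → w ∈ D.hdg (prodL B (cs L)) p q → w ≠ 0 →
      (p ≤ q + ℓ ∧ q ≤ p + ℓ) ∨ (c ≤ p ∧ c ≤ q)) {P : 𝒱.Obj → ℤ → Prop}
    (hP : ∀ (L' : List (Fac 𝒱 K)) (δ : ℤ), (L'.length ≤ ℓ ∨ c ≤ δ) → (∀ f ∈ L', f ∈ L) → 0 ≤ δ →
      P (prodL B (cs L')) δ) : GoodT H P B L := by
  rcases goodT_or (B := B) hD hL hbal with h1 | ⟨⟨Γ, hΓ, hΓ'⟩, h2⟩
  · exact h1 P
  · refine ⟨Γ, thr_mono ?_ hΓ, hΓ'⟩
    rintro W δ ⟨L', ρ, rfl, hR, hρ⟩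
    refine hP L' δ ?_ hR.sub (by omega)
    obtain ⟨σ, hσ⟩ := exists_place hD hK (fun f hf => hbal f (hR.sub f hf)) hR.no
    obtain ⟨⟨w1, a1, a2, a3⟩, ⟨w2, b1, b2, b3⟩⟩ := h2 σ
    have c1 := h σ _ _ w1 a2 a3 a1
    have c2 := h σ _ _ w2 b2 b3 b1
    have hlen := count_length (D := D) σ L' fun f hf => hR.pos f hf σ
    obtain ⟨r1, r2, r3⟩ := hR.count σ
    by_cases hc : (c : ℤ) ≤ δ
    · exact Or.inr hc
    · left
      omega

/-- The map `F` is zero on the spaces `H^{p,q}` with `|p - q| > ℓ` and `min (p, q) < c`. -/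
def KillsMixed {M : Type v} [Ring M] [Algebra ℂ M] (D : HodgeRing M) (ℓ c : ℕ) (F : M → M) :
    Prop :=
  ∀ p q : ℕ, p + ℓ < q ∨ q + ℓ < p → min p q < c → ∀ x ∈ D.hdg p q, F x = 0

variable {K : Type} [Field K] [NumberField K] {D : ∀ V : 𝒱.Obj, HodgeRing (H.A V)}

/-- **Factorization for elements of the group algebra**, level and coniveau. -/
theorem mixed_element (hD : IsHodge H D) (hK : IsGoodField K) (L : List (GCurve 𝒱))
    (hact : ∀ c ∈ L, c.IsAction) (hchar : ∀ c ∈ L, HasCharactersInField H D K c)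
    (hN : Nilpotence H (prodL B L)) {ℓ c : ℕ} {P : 𝒱.Obj → ℤ → Prop}
    (hP : ∀ (L' : List (GCurve 𝒱)) (δ : ℤ), (L'.length ≤ ℓ ∨ c ≤ δ) → (∀ c ∈ L', c ∈ L) → 0 ≤ δ →
      P (prodL B L') δ)
    (a : Grp L → ℚ) (ha : KillsMixed (D (prodL B L)) ℓ c (cohOp H B L a)) :
    groupCorr C B L a ∈ thr C P (prodL B L) (prodL B L) 0 := by
  rw [groupCorr_eq]
  refine main hD.toData L hact (fun c hc => goodChars hD hK (hchar c hc)) hN
    (fun p q => (p + ℓ < q ∨ q + ℓ < p) ∧ min p q < c) ?_ a ?_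
  · rintro L₁ rfl hL hbal h
    refine goodT_mixed (ℓ := ℓ) (c := c) hD.toData hK.places hL hbal (fun σ p q w h1 h2 h3 => ?_)
      (fun L' δ h1 h2 h3 => ?_)
    · have h4 := h σ p q w h1 h2 h3
      rw [min_lt_iff] at h4
      omega
    · refine hP (cs L') δ (by rw [List.length_map]; exact h1) ?_ h3
      intro c hc
      obtain ⟨f, hf, rfl⟩ := List.mem_map.1 hc
      exact List.mem_map.2 ⟨f, h2 f hf, rfl⟩
  · rintro p q ⟨hpq, hmin⟩ x hx
    rw [← cohOp_eq]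
    exact ha p q hpq hmin x hx

end Pool.Agent.U191.FK
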