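import Pool.Agent.U191.FK.Sm
import Pool.Agent.U191.FK.Mixed

/-!
# Comparison of the definitions
-/

set_option autoImplicit false
set_option linter.unusedSectionVars false

open CategoryTheory AlgebraicGeometry

universe u v

namespace Pool.Agent.U191.FL

open Pool.Agent.H914 Pool.Agent.H914.VarClass Pool.Agent.H914.VarClass.Obj Pool.Agent.W492.BB
  Pool.Agent.W550.Corr Pool.Agent.TH133 Pool.Agent.U191.EY
open Pool.Agent.W484.CK (iterate Nilpotence)
open Pool.Agent.U926.SF (IsBuiltFrom)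

variable {k : Type u} [Field k] {𝒱 : VarClass k} {C : TheoryData.{u, v, 0} 𝒱 ℚ}

lemma gph_eq {X Y : 𝒱.Obj} (f : X ⟶ Y) : gph C f = C.graph f := rfl

lemma tgph_eq {X Y : 𝒱.Obj} (f : X ⟶ Y) : tgph C f = C.cograph f := rfl

lemma compo_eq {X Y Z : 𝒱.Obj} (Γ : C.A (X.prod Y)) (Δ : C.A (Y.prod Z)) :
    compo C Γ Δ = C.comp Γ Δ := rfl

lemma power_eq {X : 𝒱.Obj} (z : C.A (X.prod X)) : ∀ n, power C z n = iterate C z n
  | 0 => rfl
  | n + 1 => by
    change compo C (power C z n) z = compo C (iterate C z n) z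
    rw [power_eq z n]

variable {H : WeilTheoryData.{u, v, 0} C ℂ} {D : ∀ V : 𝒱.Obj, HodgeRing (H.A V)}

lemma IsHodgeTheory.toIsHodge (h : IsHodgeTheory H D) : IsHodge H D where
  types := h.types
  conj := h.conj
  act V W Γ p q x hΓ hx := h.act V W Γ p q x hΓ hx
  natural := ⟨h.conj_pull, h.rat_pull⟩
  lefschetz V x h1 h2 := h.lefschetz V x h1 h2

lemma KimuraTheorem.nilpotence (h : KimuraTheorem H) {W : 𝒱.Obj} (hW : IsShortProduct ⊤ W) :
    Nilpotence H W := by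
  intro z hz hz'
  obtain ⟨n, hn⟩ := h W z hW hz fun x => hz' x
  exact ⟨n, (power_eq z n).symm.trans hn⟩

lemma hasFixed_iff {s : GCurve 𝒱} {χ : s.G → ℂ} {p q : ℕ} :
    HasFixed (D s.V) (isotypic H s χ) p q ↔ FK.HasPart H D s χ p q := by
  have hc : (Fintype.card s.G : ℂ) ≠ 0 := by
    have : (Fintype.card s.G : ℕ) ≠ 0 := Fintype.card_ne_zero
    exact_mod_cast this
  have key : ∀ x : H.A s.V, (isotypic H s χ x = x ↔
      χ 1 • ∑ g, χ g • H.up (s.ρ g) x = (Fintype.card s.G : ℂ) • x) := by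
    intro x
    have h1 : (Fintype.card s.G : ℂ) • isotypic H s χ x = χ 1 • ∑ g, χ g • H.up (s.ρ g) x := by
      rw [isotypic, comb, finsum_eq_sum_of_fintype, Finset.smul_sum, Finset.smul_sum]
      refine Finset.sum_congr rfl fun g _ => ?_
      rw [smul_smul, smul_smul, Nat.card_eq_fintype_card, mul_div_cancel₀ _ hc]
    rw [← h1]
    constructor
    · intro h
      rw [h]
    · intro h
      have h2 := congrArg (fun v => (Fintype.card s.G : ℂ)⁻¹ • v) h
      simp only [smul_smul, inv_mul_cancel₀ hc, one_smul] at h2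
      exact h2
  constructor
  · rintro ⟨x, h1, h2, h3⟩
    exact ⟨x, h1, h2, (key x).1 h3⟩
  · rintro ⟨x, h1, h2, h3⟩
    exact ⟨x, h1, h2, (key x).2 h3⟩

lemma SameKind.conv {s : GCurve 𝒱} {K : Type} [Field K] {χ : s.G → K} (h : SameKind H D s χ) :
    FK.SameKind H D s χ := by
  intro σ τ
  have h1 := h σ τ _ _ rfl rfl
  simp only [hasFixed_iff] at h1
  exact h1

lemma HasCharactersInField.conv {K : Type} [Field K] {s : GCurve 𝒱}
    (h : HasCharactersInField H D K s) : FK.HasCharactersInField H D K s := by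
  obtain ⟨Φ, hΦ, n, ρ, σ₀, χ, h1, h2, h3⟩ := h
  exact ⟨Φ, hΦ, n, ρ, σ₀, χ, h1, h2, h3.imp id fun h4 φ => (h4 φ).conv⟩

lemma IsGoodField.conv {K : Type} [Field K] (h : IsGoodField K) : FK.IsGoodField K :=
  ⟨h.conj, h.places⟩

lemma Kills.mixed {M : Type v} [Ring M] [Algebra ℂ M] {D : HodgeRing M} {ℓ c : ℕ} {F : M → M}
    (h : Kills D ℓ c F) : FK.KillsMixed D ℓ c F :=
  fun p q hpq hmin x hx => h p q x hpq (by exact_mod_cast hmin) hx

lemma Kills.beyond {M : Type v} [Ring M] [Algebra ℂ M] {D : HodgeRing M} {ℓ : ℕ} {F : M → M}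
    (h : Kills D ℓ ⊤ F) : FK.KillsBeyond D ℓ F :=
  fun p q hpq x hx => h p q x hpq (WithTop.coe_lt_top _) hx

lemma HasLevel.conv {M : Type v} [Ring M] [Algebra ℂ M] {D : HodgeRing M} {ℓ : ℕ}
    (h : HasLevel D ℓ ⊤) : FK.HasLevel D ℓ :=
  fun p q hpq => (Submodule.eq_bot_iff _).2 fun x hx => h p q x hpq (WithTop.coe_lt_top _) hx

lemma cutsOut_conv {B : 𝒱.Obj} {L : List (GCurve 𝒱)} {a : Grp L → ℚ} {Y : 𝒱.Obj}
    {α : C.A ((prodL B L).prod Y)} {β : C.A (Y.prod (prodL B L))}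
    (h : CutsOut C (groupCorr C B L a) α β) : FK.CutsOut C B L a Y α β :=
  ⟨h.deg_left, h.deg_right, h.diag, h.corr⟩

lemma isQuotient_conv [IsChowProj C] {B : 𝒱.Obj} {L : List (GCurve 𝒱)} {S : Set (Grp L)}
    {Y : 𝒱.Obj} {f : prodL B L ⟶ Y} (h : IsQuotient C B L S Y f) :
    FK.IsQuotientC C B L S Y f := by
  classical
  refine ⟨h.nonempty, h.dim_eq, h.diag, ?_⟩
  have h1 : C.comp (C.graph f) (C.cograph f) = groupCorr C B L (S.indicator 1) := h.corr
  rw [h1, groupCorr, comb]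
  refine finsum_congr fun γ => ?_
  by_cases hγ : γ ∈ S
  · rw [Set.indicator_of_mem hγ, Pi.one_apply, one_smul, finsum_eq_if, if_pos hγ]
    rfl
  · rw [Set.indicator_of_notMem hγ, zero_smul, finsum_eq_if, if_neg hγ]

lemma isCut_conv [IsChowProj C] {B : 𝒱.Obj} {L : List (GCurve 𝒱)} {Y : 𝒱.Obj}
    (h : IsCut C B L Y) : ∃ (a : Grp L → ℚ) (α : C.A ((prodL B L).prod Y))
      (β : C.A (Y.prod (prodL B L))), FK.CutsOut C B L a Y α β := by
  cases h with
  | summand a α β h => exact ⟨a, α, β, cutsOut_conv h⟩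
  | quotient S f h => exact ⟨_, _, _, (isQuotient_conv h).cutsOut⟩

end Pool.Agent.U191.FL
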