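import Pool.Agent.U191.FK.SmSmash
import Pool.Agent.U191.FK.Cyc
import Pool.Agent.U926.SF.Vo

/-!
# Smash-nilpotent cycles on varieties of level at most three
-/

set_option autoImplicit false
set_option linter.unusedSectionVars false

open CategoryTheory AlgebraicGeometry

universe u v

namespace Pool.Agent.U191.FL

open Pool.Agent.H914 Pool.Agent.H914.VarClass Pool.Agent.H914.VarClass.Obj Pool.Agent.W492.BB
  Pool.Agent.W550.Corr Pool.Agent.TH133 Pool.Agent.U191.EY
open Pool.Agent.W484.CK (iterate Nilpotence)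

variable {k : Type u} [Field k] {𝒱 : VarClass k} {C : TheoryData.{u, v, 0} 𝒱 ℚ}
  [hC : IsChowProj C] {H : WeilTheoryData.{u, v, 0} C ℂ} [hH : IsWeilProj H]
  {D : ∀ V : 𝒱.Obj, HodgeRing (H.A V)}

/-- The varieties through which the correspondences factor, level and coniveau. -/
def Mix (ℓ c : ℕ) (W : 𝒱.Obj) (δ : ℤ) : Prop :=
  IsShortProduct ℓ W ∨ ((c : ℤ) ≤ δ ∧ IsShortProduct ⊤ W)

/-- **Level and coniveau**: elements of the group algebra. -/
theorem mix_element (hD : IsHodgeTheory H D) (hN : KimuraTheorem H) {ℓ c : ℕ} {B : 𝒱.Obj}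
    (hB : B.dim = 0) {L : List (GCurve 𝒱)} (hL : AreGood H D L) {a : Grp L → ℚ}
    (ha : Kills (D (prodL B L)) ℓ c (groupAct H B L a)) :
    groupCorr C B L a ∈ FK.thr C (Mix ℓ c) (prodL B L) (prodL B L) 0 := by
  obtain ⟨K, _, _, hK, hL⟩ := hL
  have hact : ∀ c ∈ L, c.IsAction := fun c hc => (hL c hc).1
  have hnil : Nilpotence H (prodL B L) :=
    hN.nilpotence ⟨B, L, hB, le_top, fun c hc => (hact c hc).dim_eq, rfl⟩
  refine FK.mixed_element hD.toIsHodge hK.conv L hact (fun c hc => (hL c hc).2.conv) hnil ?_ a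
    ha.mixed
  intro L' δ h1 h2 _
  rcases h1 with h1 | h1
  · exact Or.inl ⟨B, L', hB, by exact_mod_cast h1, fun c hc => (hact c (h2 c hc)).dim_eq, rfl⟩
  · exact Or.inr ⟨h1, ⟨B, L', hB, le_top, fun c hc => (hact c (h2 c hc)).dim_eq, rfl⟩⟩

/-- **Level and coniveau**: varieties of the same dimension. -/
theorem mix_variety (hD : IsHodgeTheory H D) (hN : KimuraTheorem H) {ℓ c : ℕ} {B : 𝒱.Obj}
    (hB : B.dim = 0) {L : List (GCurve 𝒱)} (hL : AreGood H D L) {Y : 𝒱.Obj} (hY : IsCut C B L Y)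
    (hdim : Y.dim = (prodL B L).dim) (hl : HasLevel (D Y) ℓ c) :
    dg C Y ∈ FK.thr C (Mix ℓ c) Y Y 0 := by
  obtain ⟨a, α, β, h⟩ := isCut_conv hY
  have ha : Kills (D (prodL B L)) ℓ c (groupAct H B L a) := by
    intro p q x hpq hmin hx
    have h1 := hD.act _ Y α p q x h.deg_left hx
    have h2 : corrAct H α x = 0 := hl p q _ hpq hmin h1
    have h3 : groupAct H B L a x = cohOp H B L a x := rfl
    change groupAct H B L a x = 0
    rw [h3, EY.cohOp_eq, ← FK.act_cl_gcor, ← FK.groupCorr_eq, ← h.corr, FK.act_cl_comp]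
    have h4 : H.act (H.cl α) x = 0 := h2
    rw [h4]
    exact H.act_map_zero _
  have h1 := mix_element hD hN hB hL ha
  have h2 : dg C Y = C.comp β (C.comp (FK.groupCorr C B L a) α) := by
    rw [← h.corr, comp_assoc, h.diag, comp_dg, h.diag]
  rw [h2]
  have hα : α ∈ C.gr ((prodL B L).prod Y) ((prodL B L).dim + 0) := by
    rw [add_zero]
    exact h.deg_left
  have hβ : β ∈ C.gr (Y.prod (prodL B L)) ((prodL B L).dim + 0) := by
    rw [add_zero, ← hdim]
    exact h.deg_right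
  refine FK.comp_thr hβ (FK.thr_comp hα h1 (zero_add _)) ?_ (by rw [hdim]; ring)
  intro W δ h3
  rw [add_zero]
  exact h3

omit hC hH in
lemma powerObj_eq (X : 𝒱.Obj) : ∀ m, powerObj X m = TH829.Prime.powObj X m
  | 0 => rfl
  | m + 1 => congrArg (fun Y => X.prod Y) (powerObj_eq X m)

omit hC hH in
lemma exteriorPower_heq {X : 𝒱.Obj} (a : C.A X) : ∀ m,
    HEq (exteriorPower C a m) (TH829.Prime.extPow C a m)
  | 0 => HEq.rfl
  | m + 1 => by
    have key : ∀ (Y Y' : 𝒱.Obj) (_ : Y = Y') (b : C.A Y) (b' : C.A Y'), HEq b b' →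
        HEq (C.mul (C.up (fst X Y) a) (C.up (snd X Y) b)) (C.ext a b') := by
      rintro Y Y' rfl b b' hb
      rw [eq_of_heq hb]
      exact HEq.rfl
    exact key _ _ (powerObj_eq X m) _ _ (exteriorPower_heq a m)

lemma van_heq {Y Y' : 𝒱.Obj} (h : Y = Y') {b : C.A Y} {b' : C.A Y'} (hb : HEq b b') :
    Van b ↔ b' = 0 := by
  subst h
  rw [eq_of_heq hb]
  exact Iff.rfl

lemma smash_iff {X : 𝒱.Obj} {a : C.A X} :
    IsSmashNilpotent C a ↔ TH829.Prime.SmashNilpotent C a := by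
  constructor
  · rintro ⟨m, hm⟩
    exact ⟨m, (van_heq (powerObj_eq X m) (exteriorPower_heq a m)).1 hm⟩
  · rintro ⟨m, hm⟩
    exact ⟨m, (van_heq (powerObj_eq X m) (exteriorPower_heq a m)).2 hm⟩

/-- Smash-nilpotence passes through correspondences. -/
theorem smash_of_thr {P : 𝒱.Obj → ℤ → Prop} {M : 𝒱.Obj} {p : C.A (M.prod M)}
    (hp : p ∈ FK.thr C P M M 0) {m : ℤ}
    (hP : ∀ W δ, P W δ → Voevodsky H W (W.dim + δ + m - M.dim)) {z : C.A M}
    (hz : IsHomTrivial H m z) : IsSmashNilpotent C (C.act p z) := by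
  have hpm : p ∈ C.gr (M.prod M) (M.dim + 0) := FK.thr_deg hp
  have hdeg : C.Deg m (C.act p z) := by
    have h1 := act_deg hpm hz.1
    have e1 : m + ((M.dim : ℤ) + 0) - M.dim = m := by ring
    rwa [e1] at h1
  rw [smash_iff, TH829.Prime.smashNilpotent_iff hdeg]
  intro Q hQ
  have hsub : ∀ ε ∈ FK.thr C P M M 0, C.act ε z ∈ Q M m := by
    intro ε hε
    refine Submodule.span_induction (p := fun ε _ => C.act ε z ∈ Q M m) ?_ ?_ ?_ ?_ hε
    · rintro _ ⟨W, δ, a, b, hW, ha, hb, rfl⟩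
      rw [C.act_comp]
      have h2 := homTrivial_act (H := H) ha ⟨hz.1, hz.2⟩
      have e1 : m + ((W.dim : ℤ) + δ) - M.dim = W.dim + δ + m - M.dim := by ring
      rw [e1] at h2
      have h3 := hP W δ hW _ ⟨h2.1, h2.2⟩
      rw [smash_iff, TH829.Prime.smashNilpotent_iff h2.1] at h3
      have h4 := U926.SF.act_mem_adequate hQ.toIsAdequate hb (h3 Q hQ)
      have e2 : (W.dim : ℤ) + δ + m - M.dim + (M.dim - δ + 0) - W.dim = m := by ring
      rwa [e2] at h4
    · rw [C.act_zero]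
      exact Submodule.zero_mem _
    · intro x y _ _ hx hy
      have e1 : C.act (x + y) z = C.act x z + C.act y z := LinearMap.map_add₂ (actB C) x y z
      rw [e1]
      exact Submodule.add_mem _ hx hy
    · intro q x _ hx
      have e1 : C.act (q • x) z = q • C.act x z := LinearMap.map_smul₂ (actB C) q x z
      rw [e1]
      exact Submodule.smul_mem _ _ hx
  exact hsub p hp

/-- **Motives of level at most three.** -/
theorem smash_of_level (hD : IsHodgeTheory H D) (hN : KimuraTheorem H) (hS : SebastianTheorem H)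
    {M : 𝒱.Obj} {p : C.A (M.prod M)} (hM : IsBuiltOfLevel H D 3 p) {m : ℤ} {z : C.A M}
    (hz : IsHomTrivial H m z) : IsSmashNilpotent C (C.act p z) :=
  smash_of_thr (IsBuiltOfLevel.thr hD hN hM) (fun W _ hW => hS.three W _ hW) hz

/-- **Level and coniveau**. -/
theorem smash_of_mixed (hD : IsHodgeTheory H D) (hN : KimuraTheorem H) (hS : SebastianTheorem H)
    {B : 𝒱.Obj} (hB : B.dim = 0) {L : List (GCurve 𝒱)} (hL : AreGood H D L) {Y : 𝒱.Obj}
    (hY : IsCut C B L Y) (hdim : Y.dim = (prodL B L).dim) {c : ℕ} (hl : HasLevel (D Y) 3 c) {m : ℤ}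
    (hm : (Y.dim : ℤ) ≤ m + c + 1) : Voevodsky H Y m := by
  intro z hz
  have h1 := smash_of_thr (mix_variety hD hN hB hL hY hdim hl) (m := m) (z := z)
    (fun W δ hW => ?_) hz
  · rwa [act_dg] at h1
  · rcases hW with h | ⟨h, h'⟩
    · exact hS.three W _ h
    · exact hS.one W _ h' (by omega)

end Pool.Agent.U191.FL
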