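import Pool.Agent.U191.FK.SmLift
import Pool.Agent.U191.FK.Smash

/-!
# Homologically trivial cycles on varieties of level at most two have orthogonal lifts
-/

set_option autoImplicit false
set_option linter.unusedSectionVars false

open CategoryTheory AlgebraicGeometry

universe u v

namespace Pool.Agent.U191.FL

open Pool.Agent.H914 Pool.Agent.H914.VarClass Pool.Agent.H914.VarClass.Obj Pool.Agent.W492.BB
  Pool.Agent.W550.Corr Pool.Agent.TH133 Pool.Agent.U191.EY
open Pool.Agent.W484.CK (iterate Nilpotence)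

variable {k : Type u} [Field k] {𝒱 : VarClass k} {C : TheoryData.{u, v, 0} 𝒱 ℚ}
  [hC : IsChowProj C] {H : WeilTheoryData.{u, v, 0} C ℂ} [hH : IsWeilProj H]
  {D : ∀ V : 𝒱.Obj, HodgeRing (H.A V)} {L : ∀ X : 𝒱.Obj, ℤ → C.A X → Prop}

/-- Algebraically trivial classes have orthogonal lifts. -/
lemma LiftTheory.of_alg (hL : LiftTheory H L) {X : 𝒱.Obj} {m : ℤ} {z : C.A X}
    (hz : IsAlgTrivial H m z) : L X m z := by
  refine Submodule.span_induction (p := fun z _ => L X m z) ?_ (hL.zero X m)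
    (fun x y _ _ hx hy => hL.add X m x y hx hy) (fun q x _ hx => hL.times X m q x hx) hz
  rintro _ ⟨T, Γ, a, hT, ha, hΓ, rfl⟩
  have h1 := hL.act T X 1 m Γ a hΓ (hL.curve T a hT ha)
  have e1 : 1 + m - (T.dim : ℤ) = m := by rw [hT]; push_cast; ring
  rwa [e1] at h1

/-- Orthogonal lifts and correspondences which factor. -/
theorem LiftTheory.of_thr (hL : LiftTheory H L) {P : 𝒱.Obj → ℤ → Prop} {M : 𝒱.Obj}
    {p : C.A (M.prod M)} (hp : p ∈ FK.thr C P M M 0) {m : ℤ}
    (hP : ∀ W δ, P W δ → ∀ z, IsHomTrivial H (W.dim + δ + m - M.dim) z →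
      L W (W.dim + δ + m - M.dim) z) {z : C.A M}
    (hz : IsHomTrivial H m z) : L M m (C.act p z) := by
  refine Submodule.span_induction (p := fun ε _ => L M m (C.act ε z)) ?_ ?_ ?_ ?_ hp
  · rintro _ ⟨W, δ, a, b, hW, ha, hb, rfl⟩
    rw [C.act_comp]
    have h2 := homTrivial_act (H := H) ha ⟨hz.1, hz.2⟩
    have e1 : m + ((W.dim : ℤ) + δ) - M.dim = W.dim + δ + m - M.dim := by ring
    rw [e1] at h2
    have h3 := hP W δ hW _ ⟨h2.1, h2.2⟩
    have h4 := hL.act W M _ _ b _ hb h3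
    have e2 : (W.dim : ℤ) + δ + m - M.dim + (M.dim - δ + 0) - W.dim = m := by ring
    rwa [e2] at h4
  · rw [C.act_zero]
    exact hL.zero M m
  · intro x y _ _ hx hy
    have e1 : C.act (x + y) z = C.act x z + C.act y z := LinearMap.map_add₂ (actB C) x y z
    rw [e1]
    exact hL.add M m _ _ hx hy
  · intro q x _ hx
    have e1 : C.act (q • x) z = q • C.act x z := LinearMap.map_smul₂ (actB C) q x z
    rw [e1]
    exact hL.times M m q _ hx

/-- Trivial codimensions. -/
lemma LiftTheory.trivial (hL : LiftTheory H L) {W : 𝒱.Obj} {j : ℤ} (hj : j ≤ 0 ∨ (W.dim : ℤ) < j)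
    {z : C.A W} (hz : IsHomTrivial H j z) : L W j z := by
  have h : z = 0 := by
    rcases hj with hj | hj
    · rcases lt_or_eq_of_le hj with h5 | h5
      · have h2 : z ∈ C.gr W j := hz.1
        rw [C.gr_neg _ _ h5] at h2
        exact (Submodule.mem_bot _).1 h2
      · subst h5
        exact codim_zero (H := H) hz.1 hz.2
    · exact hC.gr_top W _ _ hz.1 hj
  rw [h]
  exact hL.zero W j

omit hC hH in
lemma IsShortProduct.top {ℓ : ℕ∞} {W : 𝒱.Obj} (h : IsShortProduct ℓ W) : IsShortProduct ⊤ W := by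
  obtain ⟨B, L, h1, _, h3, h4⟩ := h
  exact ⟨B, L, h1, le_top, h3, h4⟩

/-- Products of at most two curves. -/
lemma LiftTheory.two (hL : LiftTheory H L) (hF : ClassicalFacts H) {W : 𝒱.Obj}
    (hW : IsShortProduct (2 : ℕ) W) {j : ℤ} {z : C.A W} (hz : IsHomTrivial H j z) : L W j z := by
  have hdim : W.dim ≤ 2 := by
    obtain ⟨B, L, hB, hL, hL1, rfl⟩ := hW
    match L, hL, hL1 with
    | [], _, _ =>
      change B.dim ≤ 2
      omega
    | [c], _, h =>
      change (c.V.prod B).dim ≤ 2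
      rw [dim_prod, h c (by simp), hB]
      omega
    | [c, c'], _, h =>
      change (c.V.prod (c'.V.prod B)).dim ≤ 2
      rw [dim_prod, dim_prod, h c (by simp), h c' (by simp), hB]
    | c :: c' :: c'' :: L, h, _ =>
      have h' : (c :: c' :: c'' :: L).length ≤ 2 := by exact_mod_cast h
      simp only [List.length_cons] at h'
      omega
  rcases le_or_gt j 0 with h1 | h1
  · exact hL.trivial (Or.inl h1) hz
  · rcases lt_or_ge (W.dim : ℤ) j with h2 | h2
    · exact hL.trivial (Or.inr h2) hz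
    · rcases eq_or_ne j 1 with rfl | h3
      · exact hL.of_alg (hF.divisors W z (by exact_mod_cast hW) hz)
      · have h4 : j = W.dim := by omega
        subst h4
        exact hL.of_alg (hF.points W z hW.top hz)

/-- **Motives of level at most `ℓ`.** -/
theorem lift_of_level (hD : IsHodgeTheory H D) (hN : KimuraTheorem H) (hL : LiftTheory H L) {ℓ : ℕ}
    (hℓ : ∀ W : 𝒱.Obj, IsShortProduct ℓ W → ∀ j z, IsHomTrivial H j z → L W j z)
    {M : 𝒱.Obj} {p : C.A (M.prod M)} (hM : IsBuiltOfLevel H D ℓ p) {m : ℤ} {z : C.A M}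
    (hz : IsHomTrivial H m z) : L M m (C.act p z) :=
  hL.of_thr (IsBuiltOfLevel.thr hD hN hM) (fun W _ hW z hz => hℓ W hW _ z hz) hz

/-- **Level and coniveau.** -/
theorem lift_of_mixed (hD : IsHodgeTheory H D) (hN : KimuraTheorem H) (hL : LiftTheory H L)
    (hF : ClassicalFacts H) {ℓ : ℕ}
    (hℓ : ∀ W : 𝒱.Obj, IsShortProduct ℓ W → ∀ j z, IsHomTrivial H j z → L W j z)
    {B : 𝒱.Obj} (hB : B.dim = 0) {G : List (GCurve 𝒱)} (hG : AreGood H D G) {Y : 𝒱.Obj}
    (hY : IsCut C B G Y) (hdim : Y.dim = (prodL B G).dim) {c : ℕ} (hl : HasLevel (D Y) ℓ c) {m : ℤ}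
    (hm : (Y.dim : ℤ) ≤ m + c) {z : C.A Y} (hz : IsHomTrivial H m z) : L Y m z := by
  have h1 := hL.of_thr (mix_variety hD hN hB hG hY hdim hl) (m := m) (z := z)
    (fun W δ hW => ?_) hz
  · rwa [act_dg] at h1
  · rcases hW with h | ⟨h, h'⟩
    · exact fun z hz => hℓ W h _ z hz
    · intro z hz
      rcases eq_or_lt_of_le (show (W.dim : ℤ) ≤ W.dim + δ + m - Y.dim by omega) with h2 | h2
      · rw [← h2] at hz ⊢
        exact hL.of_alg (hF.points W z h' hz)
      · exact hL.trivial (Or.inr h2) hz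

end Pool.Agent.U191.FL
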