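import Pool.Agent.U191.FK.Mu
import Pool.Agent.U191.FK.Lift

/-!
# Murre's conjecture (B) for varieties of level at most four: the theorems
-/

set_option autoImplicit false
set_option linter.unusedSectionVars false

open CategoryTheory AlgebraicGeometry

universe u v

namespace Pool.Agent.U191.FL

open Pool.Agent.H914 Pool.Agent.H914.VarClass Pool.Agent.H914.VarClass.Obj Pool.Agent.W492.BB
  Pool.Agent.W550.Corr Pool.Agent.TH133 Pool.Agent.U191.EY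

variable {k : Type u} [Field k] {𝒱 : VarClass k} {C : TheoryData.{u, v, 0} 𝒱 ℚ}
  [hC : IsChowProj C] {H : WeilTheoryData.{u, v, 0} C ℂ} [hH : IsWeilProj H]
  {D : ∀ V : 𝒱.Obj, HodgeRing (H.A V)}

lemma builtFromCurves_of_thr {P : 𝒱.Obj → ℤ → Prop} (hP : ∀ W δ, P W δ → IsShortProduct ⊤ W)
    {Z : 𝒱.Obj} (h : dg C Z ∈ FK.thr C P Z Z 0) : IsBuiltFromCurves C Set.univ Z := by
  refine (show FK.thr C P Z Z 0 ≤ Submodule.span ℚ _ from Submodule.span_mono ?_) h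
  rintro _ ⟨W, δ, a, b, hW, ha, hb, rfl⟩
  refine ⟨W, Z.dim - W.dim - δ, a, b, Set.mem_univ _, hP W δ hW, ?_, ?_, rfl⟩
  · have e1 : (Z.dim : ℤ) - (Z.dim - W.dim - δ) = W.dim + δ := by ring
    rw [e1]
    exact ha
  · have e1 : (W.dim : ℤ) + (Z.dim - W.dim - δ) = Z.dim - δ + 0 := by ring
    rw [e1]
    exact hb

lemma thr_of_built {S : Set ℤ} {Z : 𝒱.Obj} (h : IsBuiltFromCurves C S Z) :
    dg C Z ∈ FK.thr C (fun W δ => IsShortProduct ⊤ W ∧ (Z.dim : ℤ) - W.dim - δ ∈ S) Z Z 0 := by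
  refine (show Submodule.span ℚ _ ≤ FK.thr C _ Z Z 0 from Submodule.span_mono ?_) h
  rintro _ ⟨W, n, a, b, hn, hW, ha, hb, rfl⟩
  refine ⟨W, Z.dim - W.dim - n, a, b, ⟨hW, ?_⟩, ?_, ?_, rfl⟩
  · have e1 : (Z.dim : ℤ) - W.dim - (Z.dim - W.dim - n) = n := by ring
    rw [e1]
    exact hn
  · have e1 : (W.dim : ℤ) + (Z.dim - W.dim - n) = Z.dim - n := by ring
    rw [e1]
    exact ha
  · have e1 : (Z.dim : ℤ) - (Z.dim - W.dim - n) + 0 = W.dim + n := by ring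
    rw [e1]
    exact hb

omit hH in
lemma built_self {W : 𝒱.Obj} (hW : IsShortProduct ⊤ W) {S : Set ℤ} (hS : (0 : ℤ) ∈ S) :
    IsBuiltFromCurves C S W := by
  refine Submodule.subset_span ⟨W, 0, gph C (𝟙 W), gph C (𝟙 W), hS, hW, ?_, ?_, ?_⟩
  · rw [sub_zero]
    exact FK.dg_deg W
  · rw [add_zero]
    exact FK.dg_deg W
  · exact (comp_dg C _).symm

lemma KimuraNilpotence.kimura (h : KimuraNilpotence H) : KimuraTheorem H :=
  fun W z hW hz hz' => h W z (built_self hW (Set.mem_univ _)) hz hz'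

/-- Varieties which are cut out of products of curves are built from them without twists. -/
lemma built_of_cut {B : 𝒱.Obj} (hB : B.dim = 0) {G : List (GCurve 𝒱)} (hG : AreGood H D G)
    {Y : 𝒱.Obj} (hY : IsCut C B G Y) {S : Set ℤ} (hS : (0 : ℤ) ∈ S) :
    IsBuiltFromCurves C S Y := by
  obtain ⟨K, _, _, hK, hG⟩ := hG
  obtain ⟨a, α, β, h⟩ := isCut_conv hY
  refine Submodule.subset_span ⟨prodL B G, 0, β, α, hS,
    ⟨B, G, hB, le_top, fun c hc => (hG c hc).1.dim_eq, rfl⟩, ?_, ?_, h.diag.symm⟩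
  · rw [sub_zero]
    exact h.deg_right
  · rw [add_zero]
    exact h.deg_left

theorem firstHalf_of_thr (hP : PicardTheorem H) (hN : KimuraNilpotence H)
    {P : 𝒱.Obj → ℤ → Prop} {Z : 𝒱.Obj} (hZ : dg C Z ∈ FK.thr C P Z Z 0) {j : ℕ}
    (hW : ∀ W δ, P W δ → IsShortProduct ⊤ W ∧ (W.dim ≤ 4 ∨ (Z.dim : ℤ) ≤ j + δ + 2))
    {π : ℕ → C.A (Z.prod Z)} (hπ : IsChowKunneth H π) : FirstHalf C π j := by
  rw [firstHalf_iff hπ.conv]
  intro i hi
  refine kills_of_thr hZ (fun z => hN Z z (builtFromCurves_of_thr (fun W δ h => (hW W δ h).1) hZ))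
    (fun W δ h => ?_) hπ.conv
  obtain ⟨⟨B, L, hB, _, hL, rfl⟩, h2⟩ := hW W δ h
  obtain ⟨ρ, w, hρ, hs⟩ := hasSymmetricCK_prodL (H := H) hB hL
  refine ⟨ρ, hρ, fun i' hi' x hx => ?_⟩
  rcases lt_or_ge ((j : ℤ) + ((prodL B L).dim + δ - Z.dim)) 0 with h3 | h3
  · rw [C.gr_neg _ _ h3] at hx
    rw [(Submodule.mem_bot _).1 hx]
    exact C.act_map_zero _
  · obtain ⟨j', hj'⟩ := Int.eq_ofNat_of_zero_le h3
    rw [hj'] at hx
    have hj : ((j' : ℕ) : ℤ) = j + ((prodL B L).dim + δ - Z.dim) := hj'.symm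
    have h4 : U840.SY.B0In C ρ j' := by
      by_cases hj1 : j' ≤ 1
      · exact U840.SY.b0In_low hP.conv hρ hj1
      · exact U840.SY.b0In_dual hP.conv hρ hs 1 (fun j' h2 h3 => absurd h3 (by omega)) j' (by omega)
    exact (U840.SY.b0In_iff hρ j').1 h4 i' (by omega) x hx

theorem secondHalf_of_built (hN : KimuraNilpotence H) {Z : 𝒱.Obj}
    (hZ : IsBuiltFromCurves C {n : ℤ | 0 ≤ n} Z) {j : ℕ} {π : ℕ → C.A (Z.prod Z)}
    (hπ : IsChowKunneth H π) : SecondHalf C π j := by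
  rw [secondHalf_iff hπ.conv]
  intro i hi
  have hZ' := thr_of_built hZ
  refine kills_of_thr hZ' (fun z => hN Z z (builtFromCurves_of_thr (fun W δ h => h.1) hZ'))
    (fun W δ h => ?_) hπ.conv
  obtain ⟨⟨B, L, hB, _, hL, rfl⟩, h2⟩ := h
  have h2' : (0 : ℤ) ≤ Z.dim - (prodL B L).dim - δ := h2
  obtain ⟨ρ, w, hρ, hs⟩ := hasSymmetricCK_prodL (H := H) hB hL
  refine ⟨ρ, hρ, fun i' hi' x hx => ?_⟩
  rcases lt_or_ge ((j : ℤ) + ((prodL B L).dim + δ - Z.dim)) 0 with h3 | h3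
  · rw [C.gr_neg _ _ h3] at hx
    rw [(Submodule.mem_bot _).1 hx]
    exact C.act_map_zero _
  · obtain ⟨j', hj'⟩ := Int.eq_ofNat_of_zero_le h3
    rw [hj'] at hx
    have hj : ((j' : ℕ) : ℤ) = j + ((prodL B L).dim + δ - Z.dim) := hj'.symm
    exact (U840.SY.b1In_iff hρ j').1 (U840.SY.b1In_of_symmetric hρ hs j') i' (by omega) x hx

lemma dim_le_of_short {ℓ : ℕ} {W : 𝒱.Obj} (hW : IsShortProduct ℓ W) : W.dim ≤ ℓ := by
  obtain ⟨B, L, hB, hL, hL1, rfl⟩ := hW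
  have hL' : L.length ≤ ℓ := by exact_mod_cast hL
  refine le_trans (le_of_eq ?_) hL'
  clear hL hL'
  induction L with
  | nil => exact hB
  | cons c L ih =>
    change (c.V.prod (prodL B L)).dim = L.length + 1
    rw [dim_prod, hL1 c (by simp), ih fun c' hc' => hL1 c' (List.mem_cons_of_mem _ hc'), add_comm]

/-- **Murre's (B) in level at most four**: the first half. -/
theorem firstHalf_of_level (hD : IsHodgeTheory H D) (hN : KimuraNilpotence H)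
    (hP : PicardTheorem H) {Z : 𝒱.Obj} (hZ : IsBuiltOfLevel H D 4 (gph C (𝟙 Z)))
    {π : ℕ → C.A (Z.prod Z)} (hπ : IsChowKunneth H π) (j : ℕ) : FirstHalf C π j :=
  firstHalf_of_thr hP hN (IsBuiltOfLevel.thr hD hN.kimura hZ)
    (fun _ _ h => ⟨h.top, Or.inl (dim_le_of_short h)⟩) hπ

/-- **Murre's (B)**: level and coniveau. -/
theorem firstHalf_of_mixed (hD : IsHodgeTheory H D) (hN : KimuraNilpotence H)
    (hP : PicardTheorem H) {B : 𝒱.Obj} (hB : B.dim = 0) {G : List (GCurve 𝒱)}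
    (hG : AreGood H D G) {Y : 𝒱.Obj} (hY : IsCut C B G Y) (hdim : Y.dim = (prodL B G).dim) {c : ℕ}
    (hl : HasLevel (D Y) 4 c) {π : ℕ → C.A (Y.prod Y)} (hπ : IsChowKunneth H π) {j : ℕ}
    (hj : Y.dim ≤ j + c + 2) : FirstHalf C π j := by
  refine firstHalf_of_thr hP hN (mix_variety hD hN.kimura hB hG hY hdim hl) (fun W δ h => ?_) hπ
  rcases h with h | ⟨h, h'⟩
  · exact ⟨h.top, Or.inl (dim_le_of_short h)⟩
  · exact ⟨h', Or.inr (by omega)⟩

end Pool.Agent.U191.FL
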