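import Pool.Agent.U191.FK.SmLef
import Pool.Agent.U191.FK.Mur

/-!
# Hard Lefschetz for homologically trivial cycles on varieties of level at most one
-/

set_option autoImplicit false
set_option linter.unusedSectionVars false

open CategoryTheory AlgebraicGeometry

universe u v

namespace Pool.Agent.U191.FL

open Pool.Agent.H914 Pool.Agent.H914.VarClass Pool.Agent.H914.VarClass.Obj Pool.Agent.W492.BB
  Pool.Agent.W550.Corr Pool.Agent.TH133 Pool.Agent.U191.EY

variable {k : Type u} [Field k] {𝒱 : VarClass k} {C : TheoryData.{u, v, 0} 𝒱 ℚ}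
  [hC : IsChowProj C] {H : WeilTheoryData.{u, v, 0} C ℂ} [hH : IsWeilProj H]
  {D : ∀ V : 𝒱.Obj, HodgeRing (H.A V)}

/-- Correspondences which act as zero on `H^(2 m - 1)` act as zero on the homologically trivial
cycles of codimension `m`, for varieties built from curves. -/
theorem kills_hom {P : 𝒱.Obj → ℤ → Prop} {Z : 𝒱.Obj} (hZ : dg C Z ∈ FK.thr C P Z Z 0)
    (hA : AbelTheorem H) {m : ℤ} (hP : ∀ W δ, P W δ → W.dim ≤ 1 ∨ (Z.dim : ℤ) < m + δ)
    {Γ : C.A (Z.prod Z)} (hΓ : C.Deg Z.dim Γ)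
    (hk : ∀ x : H.A Z, H.Deg (2 * m - 1) x → H.act (H.cl Γ) x = 0) {z : C.A Z}
    (hz : IsHomTrivial H m z) : C.act Γ z = 0 := by
  have hy := homTrivial_act (H := H) hΓ ⟨hz.1, hz.2⟩
  have e0 : m + (Z.dim : ℤ) - Z.dim = m := by ring
  rw [e0] at hy
  have h1 : C.act (dg C Z) (C.act Γ z) = 0 := by
    refine eq_zero_of_thr (H := H) (N := fun X m z => z ∈ C.gr X m ∧ H.cl z = 0) (fun h => h)
      (m := m) hy (fun {W δ a} ha => ?_) (fun {T a} hT ha => ?_) hP hZ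
    · have h2 := homTrivial_act (H := H) ha hy
      have e1 : m + ((W.dim : ℤ) + δ) - Z.dim = W.dim + δ + m - Z.dim := by ring
      rwa [e1] at h2
    · rw [← C.act_comp]
      refine hA Z T m (C.comp Γ a) z hT ?_ (fun x hx => ?_) hz
      · have h2 := FK.comp_deg' hΓ ha
        have e1 : (Z.dim : ℤ) + (Z.dim + 1 - m) - Z.dim = Z.dim + 1 - m := by ring
        rwa [e1] at h2
      · change H.act (H.cl (C.comp Γ a)) x = 0
        rw [FK.act_cl_comp, hk x hx]
        exact H.act_map_zero _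
  rwa [act_dg] at h1

lemma mulCorr_deg {X : 𝒱.Obj} {d : C.A X} (hd : C.Deg 1 d) (r : ℕ) :
    C.mulCorr (d ^ r) ∈ C.gr (X.prod X) (X.dim + r) := by
  have h0 : d ^ r ∈ C.gr X r := by
    induction r with
    | zero => rw [pow_zero]; exact C.one_mem X
    | succ r ih =>
      rw [pow_succ]
      have h := C.mul_mem ih hd
      rwa [show (r : ℤ) + 1 = ((r + 1 : ℕ) : ℤ) by push_cast; ring] at h
  have h := C.push_mem (Obj.lift (𝟙 X) (𝟙 X)) h0
  have e : (r : ℤ) + 1 * (((X.prod X).dim : ℤ) - X.dim) = X.dim + r := by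
    rw [dim_prod]; push_cast; ring
  rwa [e] at h

lemma act_cl_mulCorr {X : 𝒱.Obj} (c : C.A X) (x : H.A X) :
    H.act (H.cl (C.mulCorr c)) x = H.cl c * x := by
  have h : H.cl (C.mulCorr c) = H.mulCorr (H.cl c) := by
    rw [TheoryData.mulCorr, TheoryData.mulCorr, H.cl_push]
  rw [h, H.act_mulCorr]

lemma homTrivial_lef {X : 𝒱.Obj} {d : C.A X} (hd : C.Deg 1 d) (r : ℕ) {m : ℤ} {z : C.A X}
    (hz : IsHomTrivial H m z) : IsHomTrivial H (m + r) (lef d r z) := by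
  have h := homTrivial_act (H := H) (mulCorr_deg hd r) ⟨hz.1, hz.2⟩
  rw [C.act_mulCorr] at h
  have e1 : m + ((X.dim : ℤ) + r) - X.dim = m + r := by ring
  rw [e1] at h
  exact ⟨h.1, h.2⟩

section

variable {P : 𝒱.Obj → ℤ → Prop} {Z : 𝒱.Obj}

theorem lefschetz_inj (hZ : dg C Z ∈ FK.thr C P Z Z 0) (hA : AbelTheorem H)
    (hS : LefschetzStandard H) (hb : IsBuiltFromCurves C Set.univ Z) {d : C.A Z}
    (hd : IsLefschetzClass H d) {i : ℕ} (hi : 2 * i ≤ Z.dim + 1)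
    (hP : ∀ W δ, P W δ → W.dim ≤ 1 ∨ (Z.dim : ℤ) < i + δ) : LefschetzInjective H d i := by
  intro z hz h0
  rcases Nat.eq_zero_or_pos i with rfl | hi0
  · exact codim_zero (H := H) hz.1 hz.2
  set r := Z.dim + 1 - 2 * i with hr
  obtain ⟨Λ, hΛ, hΛ'⟩ := hS Z d r hb hd (by omega)
  have hdeg : C.comp (C.mulCorr (d ^ r)) Λ - dg C Z ∈ C.gr (Z.prod Z) Z.dim := by
    refine Submodule.sub_mem _ ?_ (FK.dg_deg Z)
    have h := FK.comp_deg' (mulCorr_deg hd.deg r) hΛ
    have e1 : (Z.dim : ℤ) + r + (Z.dim - r) - Z.dim = Z.dim := by ring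
    rwa [e1] at h
  have h1 := kills_hom hZ hA (m := i) hP hdeg (fun x hx => ?_) hz
  · have e1 : C.act (C.comp (C.mulCorr (d ^ r)) Λ - dg C Z) z =
        C.act (C.comp (C.mulCorr (d ^ r)) Λ) z - C.act (dg C Z) z :=
      LinearMap.map_sub₂ (actB C) _ _ _
    rw [e1, act_dg, C.act_comp, C.act_mulCorr] at h1
    have h2 : d ^ r * z = 0 := h0
    rw [h2, show C.act Λ 0 = 0 from C.act_map_zero _, zero_sub, neg_eq_zero] at h1
    exact h1
  · have e1 : H.act (H.cl (C.comp (C.mulCorr (d ^ r)) Λ - dg C Z)) x =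
        H.act (H.cl (C.comp (C.mulCorr (d ^ r)) Λ)) x - H.act (H.cl (dg C Z)) x := by
      rw [map_sub]
      exact LinearMap.map_sub₂ (actB H.toTheoryData) _ _ _
    rw [e1, FK.act_cl_dg, FK.act_cl_comp, act_cl_mulCorr, map_pow]
    have e2 : (2 * (i : ℤ) - 1) = Z.dim - r := by omega
    rw [e2] at hx
    have h3 : H.act (H.cl Λ) (H.cl d ^ r * x) = x := hΛ' x hx
    rw [h3, sub_self]

theorem lefschetz_surj (hZ : dg C Z ∈ FK.thr C P Z Z 0) (hA : AbelTheorem H)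
    (hS : LefschetzStandard H) (hb : IsBuiltFromCurves C Set.univ Z) {d : C.A Z}
    (hd : IsLefschetzClass H d) {i : ℕ} (hi : 2 * i ≤ Z.dim + 1)
    (hP : ∀ W δ, P W δ → W.dim ≤ 1 ∨ (i : ℤ) ≤ δ) : LefschetzSurjective H d i := by
  intro y hy
  rcases Nat.eq_zero_or_pos i with rfl | hi0
  · have h1 : y = 0 := hC.gr_top Z _ _ hy.1 (by push_cast; omega)
    refine ⟨0, ⟨Submodule.zero_mem _, ?_⟩, ?_⟩
    · exact map_zero _
    · rw [h1]
      exact mul_zero _
  set r := Z.dim + 1 - 2 * i with hr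
  obtain ⟨Λ, hΛ, hΛ'⟩ := hS Z d r hb hd (by omega)
  have hdeg : C.comp Λ (C.mulCorr (d ^ r)) - dg C Z ∈ C.gr (Z.prod Z) Z.dim := by
    refine Submodule.sub_mem _ ?_ (FK.dg_deg Z)
    have h := FK.comp_deg' hΛ (mulCorr_deg hd.deg r)
    have e1 : (Z.dim : ℤ) - r + (Z.dim + r) - Z.dim = Z.dim := by ring
    rwa [e1] at h
  have h1 := kills_hom hZ hA (m := (Z.dim : ℤ) + 1 - i) (fun W δ h => ?_) hdeg (fun x hx => ?_) hy
  · have e1 : C.act (C.comp Λ (C.mulCorr (d ^ r)) - dg C Z) y =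
        C.act (C.comp Λ (C.mulCorr (d ^ r))) y - C.act (dg C Z) y :=
      LinearMap.map_sub₂ (actB C) _ _ _
    rw [e1, act_dg, C.act_comp, C.act_mulCorr] at h1
    refine ⟨C.act Λ y, ?_, sub_eq_zero.1 h1⟩
    have h2 := homTrivial_act (H := H) hΛ ⟨hy.1, hy.2⟩
    have e2 : (Z.dim : ℤ) + 1 - i + (Z.dim - r) - Z.dim = i := by omega
    rw [e2] at h2
    exact ⟨h2.1, h2.2⟩
  · rcases hP W δ h with h | h
    · exact Or.inl h
    · exact Or.inr (by omega)
  · have e1 : H.act (H.cl (C.comp Λ (C.mulCorr (d ^ r)) - dg C Z)) x =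
        H.act (H.cl (C.comp Λ (C.mulCorr (d ^ r)))) x - H.act (H.cl (dg C Z)) x := by
      rw [map_sub]
      exact LinearMap.map_sub₂ (actB H.toTheoryData) _ _ _
    rw [e1, FK.act_cl_dg, FK.act_cl_comp, act_cl_mulCorr, map_pow]
    have e2 : 2 * ((Z.dim : ℤ) + 1 - i) - 1 = Z.dim + r := by omega
    rw [e2] at hx
    obtain ⟨x', hx', rfl⟩ := hd.surj r x (by omega) hx
    have h3 : H.act (H.cl Λ) (lef (cls H d) r x') = x' := hΛ' x' hx'
    rw [h3]
    exact sub_self _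

end

/-- **Q1 for varieties of level at most one.** -/
theorem lefschetz_of_level (hD : IsHodgeTheory H D) (hN : KimuraTheorem H) (hA : AbelTheorem H)
    (hS : LefschetzStandard H) {Z : 𝒱.Obj} (hZ : IsBuiltOfLevel H D 1 (gph C (𝟙 Z))) {d : C.A Z}
    (hd : IsLefschetzClass H d) {i : ℕ} (hi : 2 * i ≤ Z.dim + 1) :
    LefschetzInjective H d i ∧ LefschetzSurjective H d i := by
  have h := IsBuiltOfLevel.thr hD hN hZ
  have hb := builtFromCurves_of_thr (fun W δ (h : IsShortProduct (1 : ℕ) W) => h.top) h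
  exact ⟨lefschetz_inj h hA hS hb hd hi fun W δ h => Or.inl (shortDim h),
    lefschetz_surj h hA hS hb hd hi fun W δ h => Or.inl (shortDim h)⟩

/-- **Level and coniveau.** -/
theorem lefschetz_of_mixed (hD : IsHodgeTheory H D) (hN : KimuraTheorem H) (hA : AbelTheorem H)
    (hS : LefschetzStandard H) {B : 𝒱.Obj} (hB : B.dim = 0) {G : List (GCurve 𝒱)}
    (hG : AreGood H D G) {Y : 𝒱.Obj} (hY : IsCut C B G Y) (hdim : Y.dim = (prodL B G).dim) {c : ℕ}
    (hl : HasLevel (D Y) 1 c) {d : C.A Y} (hd : IsLefschetzClass H d) {i : ℕ}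
    (hi : 2 * i ≤ Y.dim + 1) (hic : i ≤ c) : LefschetzSurjective H d i := by
  refine lefschetz_surj (mixed_variety hD hN hB hG hY hdim hl) hA hS
    (built_of_cut hB hG hY (Set.mem_univ _)) hd hi fun W δ h => ?_
  rcases h with h | h
  · exact Or.inl (shortDim h)
  · exact Or.inr (by omega)

end Pool.Agent.U191.FL
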