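import Pool.Agent.U191.FK.Comb
import Pool.Agent.U191.FK.Base
import Pool.Agent.U191.EY.Final

/-!
# The factorization theorem
-/

set_option autoImplicit false
set_option linter.unusedSectionVars false

open CategoryTheory AlgebraicGeometry

universe u v

namespace Pool.Agent.U191.FK

open Pool.Agent.H914 Pool.Agent.H914.VarClass Pool.Agent.H914.VarClass.Obj Pool.Agent.W492.BB
  Pool.Agent.W550.Corr Pool.Agent.TH133 Pool.Agent.U191.EY
open Pool.Agent.W484.CK (iterate Nilpotence)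

variable {k : Type u} [Field k] {𝒱 : VarClass k} {C : TheoryData.{u, v, 0} 𝒱 ℚ}
  [hC : IsChowProj C] {H : WeilTheoryData.{u, v, 0} C ℂ} [hH : IsWeilProj H]
  {P : 𝒱.Obj → ℤ → Prop} {B : 𝒱.Obj} {D : HodgeData H} {K : Type} [Field K] [NumberField K]

lemma isAction_cs {L : List (Fac 𝒱 K)} (hL : ∀ f ∈ L, f.Ok) : ∀ c ∈ cs L, c.IsAction := by
  intro c hc
  obtain ⟨f, hf, rfl⟩ := List.mem_map.1 hc
  exact (hL f hf).act

/-- The character of the product group is irreducible. -/
lemma irr_chL : ∀ (L : List (Fac 𝒱 K)), (∀ f ∈ L, f.Ok) → IsIrrK K (chL L) (dL L)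
  | [], _ =>
    { pos := one_pos
      one := by
        change (1 : K) = ((1 : ℚ) : K)
        norm_num
      inv := fun σ g => by
        change σ 1 = starRingEnd ℂ (σ 1)
        rw [map_one, map_one]
      func := fun g h => by
        change ∑ _x : PUnit, (1 : K) = (((Fintype.card PUnit : ℚ) / 1 : ℚ) : K) * (1 * 1)
        simp
      conv := fun g => by
        change ∑ _x : PUnit, (1 : K) * 1 = (((Fintype.card PUnit : ℚ) / 1 : ℚ) : K) * 1
        simp }
  | f :: L, hL => (hL f List.mem_cons_self).irr.prod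
      (irr_chL L fun f' hf' => hL f' (List.mem_cons_of_mem _ hf'))

lemma prod_l : ∀ (L : List (Fac 𝒱 K)), (L.map Fac.l).prod = Fintype.card (Grp (cs L)) / dL L
  | [] => by
    have h1 : Fintype.card (Grp (cs ([] : List (Fac 𝒱 K)))) = 1 := Fintype.card_punit
    rw [h1]
    change (1 : ℚ) = ((1 : ℕ) : ℚ) / 1
    norm_num
  | f :: L => by
    have h1 : Fintype.card (Grp (cs (f :: L))) = Fintype.card f.c.G * Fintype.card (Grp (cs L)) :=
      Fintype.card_prod _ _
    have h2 : dL (f :: L) = f.d * dL L := rfl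
    rw [List.map_cons, List.prod_cons, prod_l L, h1, h2, Fac.l]
    push_cast
    rw [div_mul_div_comm]

/-- The function is the product of irreducible characters of the factors. -/
def IsProdChar (D : HodgeData H) (K : Type) [Field K] [NumberField K] (L₀ : List (GCurve 𝒱))
    (Ψ : Grp L₀ → K) : Prop :=
  ∃ (L : List (Fac 𝒱 K)) (h : cs L = L₀), (∀ f ∈ L, f.Ok) ∧ (∀ f ∈ L, Bal D f) ∧
    (h ▸ chL L : Grp L₀ → K) = Ψ

/-- The group of the curve has a complete system of irreducible characters with values in `K`, which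
are of the same kind for all embeddings. -/
def GoodChars (D : HodgeData H) (K : Type) [Field K] [NumberField K] (c : GCurve 𝒱) : Prop :=
  ∃ (Φ : Type) (_ : Fintype Φ) (n : Φ → ℕ) (χ : Φ → c.G → K),
    (∀ φ, IsIrrK K (χ φ) (n φ)) ∧ (∀ φ, Bal D ⟨c, χ φ, n φ⟩) ∧
    ∀ g : c.G, ∑ φ, (n φ : K) * χ φ g = (open Classical in if g = 1 then
      (Fintype.card c.G : K) else 0)

open Classical in
/-- The unit of the group algebra is a rational combination of products of irreducible
characters. -/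
lemma delta_span : ∀ (L₀ : List (GCurve 𝒱)), (∀ c ∈ L₀, c.IsAction) →
    (∀ c ∈ L₀, GoodChars D K c) →
    (fun γ : Grp L₀ => if γ = 1 then (1 : K) else 0) ∈
      Submodule.span ℚ {Ψ | IsProdChar D K L₀ Ψ}
  | [], _, _ => by
    apply Submodule.subset_span
    refine ⟨[], rfl, by simp, by simp, ?_⟩
    funext γ
    have h1 : γ = 1 := rfl
    rw [h1]
    exact (if_pos rfl).symm
  | c :: L₀, h, h' => by
    have ih := delta_span L₀ (fun c' hc' => h c' (List.mem_cons_of_mem _ hc'))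
      (fun c' hc' => h' c' (List.mem_cons_of_mem _ hc'))
    obtain ⟨Φ, _, n, χ, hχ, hb, hsum⟩ := h' c List.mem_cons_self
    have hcard : (Fintype.card c.G : K) ≠ 0 := by
      have : (Fintype.card c.G : ℕ) ≠ 0 := Fintype.card_ne_zero
      exact_mod_cast this
    have h1 : (fun γ : Grp (c :: L₀) => if γ = 1 then (1 : K) else 0) =
        ∑ φ, ((n φ : ℚ) / Fintype.card c.G) • (fun γ : Grp (c :: L₀) =>
          χ φ γ.1 * (if γ.2 = 1 then (1 : K) else 0)) := by
      funext γ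
      rw [Finset.sum_apply]
      have h2 := hsum γ.1
      have h3 : ∑ φ, (((n φ : ℚ) / Fintype.card c.G) • (fun γ : Grp (c :: L₀) =>
          χ φ γ.1 * (if γ.2 = 1 then (1 : K) else 0))) γ =
          (∑ φ, (n φ : K) * χ φ γ.1) / Fintype.card c.G * (if γ.2 = 1 then (1 : K) else 0) := by
        rw [Finset.sum_div, Finset.sum_mul]
        refine Finset.sum_congr rfl fun φ _ => ?_
        rw [Pi.smul_apply, Rat.smul_def]
        push_cast
        ring
      rw [h3, h2]
      by_cases hγ1 : γ.1 = 1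
      · by_cases hγ2 : γ.2 = 1
        · have hγ : γ = 1 := Prod.ext hγ1 hγ2
          rw [if_pos hγ, if_pos hγ1, if_pos hγ2, div_self hcard, mul_one]
        · have hγ : γ ≠ 1 := fun h => hγ2 (congrArg Prod.snd h)
          rw [if_neg hγ, if_neg hγ2, mul_zero]
      · have hγ : γ ≠ 1 := fun h => hγ1 (congrArg Prod.fst h)
        rw [if_neg hγ, if_neg hγ1, zero_div, zero_mul]
    rw [h1]
    refine Submodule.sum_mem _ fun φ _ => Submodule.smul_mem _ _ ?_
    let T : (Grp L₀ → K) →ₗ[ℚ] (Grp (c :: L₀) → K) :=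
      { toFun := fun Ψ γ => χ φ γ.1 * Ψ γ.2
        map_add' := fun Ψ Ψ' => by
          funext γ
          exact mul_add _ _ _
        map_smul' := fun q Ψ => by
          funext γ
          change χ φ γ.1 * (q • Ψ γ.2) = q • (χ φ γ.1 * Ψ γ.2)
          rw [mul_smul_comm] }
    refine (show _ ≤ Submodule.comap T (Submodule.span ℚ {Ψ | IsProdChar D K (c :: L₀) Ψ}) from
      Submodule.span_le.2 ?_) ih
    rintro _ ⟨L, rfl, hL, hLb, rfl⟩
    apply Submodule.subset_span
    refine ⟨⟨c, χ φ, n φ⟩ :: L, rfl, ?_, ?_, rfl⟩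
    · intro f hf
      rcases List.mem_cons.1 hf with rfl | hf
      · exact ⟨h c List.mem_cons_self, hχ φ⟩
      · exact hL f hf
    · intro f hf
      rcases List.mem_cons.1 hf with rfl | hf
      · exact hb φ
      · exact hLb f hf

/-- The correspondence `∑ r(γ) [γ]`. -/
noncomputable def gcor (C : TheoryData.{u, v, 0} 𝒱 ℚ) (B : 𝒱.Obj) (L₀ : List (GCurve 𝒱))
    (r : Grp L₀ → ℚ) : C.A ((prodL B L₀).prod (prodL B L₀)) :=
  ∑ γ, r γ • C.graph (mapL B L₀ γ)

section

variable {L₀ : List (GCurve 𝒱)}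

omit hH in
lemma graph_deg {X Y : 𝒱.Obj} (f : X ⟶ Y) : C.graph f ∈ C.gr (X.prod Y) Y.dim := by
  have h := C.push_mem (Obj.lift (𝟙 X) f) (C.one_mem X)
  have e1 : (0 : ℤ) + 1 * (((X.prod Y).dim : ℤ) - (X.dim : ℤ)) = Y.dim := by
    rw [dim_prod]; push_cast; ring
  rwa [e1] at h

omit hH in
lemma gcor_deg (r : Grp L₀ → ℚ) : gcor C B L₀ r ∈ C.gr _ (prodL B L₀).dim :=
  Submodule.sum_mem _ fun _ _ => Submodule.smul_mem _ _ (graph_deg _)

omit hH in
lemma smul_comp' {X Y Z : 𝒱.Obj} (q : ℚ) (Γ : C.A (X.prod Y)) (Δ : C.A (Y.prod Z)) :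
    C.comp (q • Γ) Δ = q • C.comp Γ Δ := LinearMap.map_smul₂ (compL C) q Γ Δ

omit hH in
lemma comp_smul' {X Y Z : 𝒱.Obj} (q : ℚ) (Γ : C.A (X.prod Y)) (Δ : C.A (Y.prod Z)) :
    C.comp Γ (q • Δ) = q • C.comp Γ Δ := map_smul (compL C Γ) q Δ

omit hH in
lemma gcor_comp (h : ∀ c ∈ L₀, c.IsAction) (r s : Grp L₀ → ℚ) :
    C.comp (gcor C B L₀ r) (gcor C B L₀ s) =
      gcor C B L₀ (fun e => ∑ g, s g * r (g⁻¹ * e)) := by
  have h1 : ∀ g, C.comp (gcor C B L₀ r) (s g • C.graph (mapL B L₀ g)) =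
      ∑ e, (s g * r (g⁻¹ * e)) • C.graph (mapL B L₀ e) := by
    intro g
    rw [comp_smul', gcor, sum_comp, Finset.smul_sum]
    refine Fintype.sum_equiv (Equiv.mulLeft g) _ _ fun x => ?_
    change s g • C.comp (r x • C.graph (mapL B L₀ x)) (C.graph (mapL B L₀ g)) =
      (s g * r (g⁻¹ * (g * x))) • C.graph (mapL B L₀ (g * x))
    rw [smul_comp', comp_graph, ← mapL_mul h, inv_mul_cancel_left, smul_smul]
  rw [gcor.eq_1 C B L₀ s, comp_sum, Finset.sum_congr rfl fun g _ => h1 g, Finset.sum_comm, gcor]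
  refine Finset.sum_congr rfl fun e _ => ?_
  rw [Finset.sum_smul]

lemma act_cl_graph {X Y : 𝒱.Obj} (f : X ⟶ Y) (a : H.A X) :
    H.act (H.cl (C.graph f)) a = H.push f a := by
  have : H.cl (C.graph f) = H.graph f := by
    rw [TheoryData.graph, TheoryData.graph, H.cl_push, map_one]
  rw [this, H.act_graph]

lemma act_cl_gcor (r : Grp L₀ → ℚ) (w : H.A (prodL B L₀)) :
    H.act (H.cl (gcor C B L₀ r)) w = ∑ γ, (r γ : ℂ) • H.push (mapL B L₀ γ) w := by
  rw [gcor, map_sum, act_sum]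
  refine Finset.sum_congr rfl fun γ _ => ?_
  rw [cl_smul, ← act_cl_graph, TheoryData.act_apply, TheoryData.act_apply, smul_mul_assoc,
    map_smul]

end

/-- **The nilpotence argument.** -/
lemma gcor_mem {L : List (Fac 𝒱 K)} (hL : ∀ f ∈ L, f.Ok)
    (hN : Nilpotence H (prodL B (cs L))) (hg : GoodT H P B L) :
    gcor C B (cs L) (trf (chL L)) ∈ thr C P (prodL B (cs L)) (prodL B (cs L)) 0 := by
  have hcs := isAction_cs hL
  have hirr := irr_chL L hL
  obtain ⟨l, hinv, hl0, hconv, -⟩ := hirr.exists_real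
  set R' : Grp (cs L) → ℚ := trf (chL L) with hR'
  set X := prodL B (cs L) with hX
  set τ := gcor C B (cs L) R' with hτ
  have hτdeg : τ ∈ C.gr (X.prod X) (X.dim + 0) := by
    rw [add_zero]
    exact gcor_deg R'
  have hττ : C.comp τ τ = l • τ := by
    rw [hτ, gcor_comp hcs, gcor, gcor, Finset.smul_sum]
    refine Finset.sum_congr rfl fun e _ => ?_
    rw [hconv, smul_smul]
  obtain ⟨Γ, hΓ, hψ⟩ := hg
  have hψT : ∀ w, H.act (H.cl Γ) (H.act (H.cl τ) w) = H.act (H.cl τ) w := by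
    intro w
    have h1 : H.act (H.cl τ) w = ∑ σ : K →+* ℂ, avg H B σ L w := by
      simp_rw [avg_apply]
      rw [hτ, act_cl_gcor, Finset.sum_comm]
      refine Fintype.sum_equiv (Equiv.inv _) _ _ fun γ => ?_
      change (R' γ : ℂ) • H.push (mapL B (cs L) γ) w =
        ∑ σ : K →+* ℂ, σ (chL L γ⁻¹) • H.pull (mapL B (cs L) γ⁻¹) w
      rw [pull_iso H.toTheoryData (mapL B (cs L) γ⁻¹) (mapL B (cs L) γ) (mapL_inv' hcs γ)
        (mapL_inv hcs γ), ← Finset.sum_smul, ← hinv, hR', trf_cast]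
    have h2 : ∀ σ : K →+* ℂ, H.act (H.cl Γ) (avg H B σ L w) = avg H B σ L w := by
      intro σ
      refine (show _ ≤ LinearMap.eqLocus (H.actL (H.cl Γ)) LinearMap.id from
        Submodule.span_le.2 ?_) (avg_mem σ L hL w)
      intro x hx
      exact hψ σ x hx
    rw [h1, act_map_sum]
    exact Finset.sum_congr rfl fun σ _ => h2 σ
  have hΓ1 : ∀ z ∈ thr C P X X 0, C.comp τ z ∈ thr C P X X 0 := fun z hz =>
    comp_thr (s := 0) hτdeg hz (fun W δ h => by rw [add_zero]; exact h) (by ring)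
  set y := C.comp τ τ - C.comp τ (C.comp Γ τ) with hy
  have hydeg : y ∈ C.gr (X.prod X) (X.dim + 0) := by
    have h1 := comp_deg' hτdeg hτdeg
    have h2 := thr_deg (hΓ1 _ (thr_comp hτdeg hΓ (zero_add _)))
    have e1 : (X.dim : ℤ) + 0 + (X.dim + 0) - X.dim = X.dim + 0 := by ring
    rw [e1] at h1
    exact Submodule.sub_mem _ h1 h2
  obtain ⟨n, hn⟩ := hN y (by
    have h1 : y ∈ C.gr (X.prod X) (X.dim + 0) := hydeg
    rw [add_zero] at h1
    exact h1) (by
    intro a
    rw [hy, map_sub, H.act_sub, act_cl_comp, act_cl_comp, act_cl_comp, hψT, sub_self])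
  have hτy : C.comp τ y - (l ^ 2) • τ ∈ thr C P X X 0 := by
    have h1 : C.comp τ y - (l ^ 2) • τ = - C.comp τ (C.comp τ (C.comp Γ τ)) := by
      rw [hy, comp_sub, ← comp_assoc, hττ, smul_comp', hττ, smul_smul, ← pow_two]
      abel
    rw [h1]
    exact Submodule.neg_mem _ (hΓ1 _ (hΓ1 _ (thr_comp hτdeg hΓ (zero_add _))))
  have key : ∀ n : ℕ, C.comp τ (iterate C y n) - (l ^ (2 * n)) • τ ∈ thr C P X X 0 := by
    intro n
    induction n with
    | zero =>
      have h1 : C.comp τ (iterate C y 0) = τ := comp_dg C τ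
      rw [h1, mul_zero, pow_zero, one_smul, sub_self]
      exact Submodule.zero_mem _
    | succ n ih =>
      have h1 : C.comp τ (iterate C y (n + 1)) = C.comp (C.comp τ (iterate C y n)) y :=
        (comp_assoc C τ (iterate C y n) y).symm
      have h2 : C.comp τ (iterate C y (n + 1)) - (l ^ (2 * (n + 1))) • τ =
          C.comp (C.comp τ (iterate C y n) - (l ^ (2 * n)) • τ) y +
            (l ^ (2 * n)) • (C.comp τ y - (l ^ 2) • τ) := by
        rw [h1, sub_comp, smul_comp', smul_sub, smul_smul, ← pow_add, mul_add, mul_one]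
        abel
      rw [h2]
      exact Submodule.add_mem _ (thr_comp hydeg ih (add_zero _))
        (Submodule.smul_mem _ _ hτy)
  have h1 := key n
  rw [hn, comp_zero, zero_sub, ← neg_smul] at h1
  exact (Submodule.smul_mem_iff _ (neg_ne_zero.2 (pow_ne_zero _ hl0))).1 h1

/-- An element of the group algebra which kills a nonzero isotypic class is orthogonal to the
character. -/
lemma coef_zero (hD : D.IsHodge) {L : List (Fac 𝒱 K)} (hL : ∀ f ∈ L, f.Ok) {σ : K →+* ℂ}
    {w : H.A (prodL B (cs L))} (hw : PC H B σ L w) (hw0 : w ≠ 0) {p q : ℕ}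
    (hwpq : w ∈ D.hdg (prodL B (cs L)) p q) (a : Grp (cs L) → ℚ)
    (ha : ∀ x ∈ D.hdg (prodL B (cs L)) p q, ∑ γ, (a γ : ℂ) • H.pull (mapL B (cs L) γ) x = 0)
    (δ : Grp (cs L)) : ∑ g, (a g : K) * chL L (g⁻¹ * δ) = 0 := by
  have hcs := isAction_cs hL
  have hirr := (irr_chL L hL).isIrr σ
  set χ : Grp (cs L) → ℂ := fun γ => σ (chL L γ) with hχ
  set ℓ : ℚ := Fintype.card (Grp (cs L)) / dL L with hℓ
  have hℓ0 : (ℓ : ℂ) ≠ 0 := by
    have := hirr.l_pos
    exact_mod_cast this.ne'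
  have hpp : ∀ x y (v : H.A (prodL B (cs L))), H.pull (mapL B (cs L) x)
      (H.pull (mapL B (cs L) y) v) = H.pull (mapL B (cs L) (y * x)) v := by
    intro x y v
    rw [← H.pull_comp, mapL_mul hcs]
  have hwavg : ∑ m, χ m • H.pull (mapL B (cs L) m) w = (ℓ : ℂ) • w := by
    have h1 := avg_pc (B := B) σ L w hw
    rw [avg_apply, prod_l] at h1
    exact h1
  -- the class sums act as scalars
  have hcl : ∀ x, ∑ γ, H.pull (mapL B (cs L) (γ * x * γ⁻¹)) w = ((ℓ : ℂ) * χ x⁻¹) • w := by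
    intro x
    have h1 : ∀ y, (ℓ : ℂ) • H.pull (mapL B (cs L) y) w =
        ∑ m, χ (m * y⁻¹) • H.pull (mapL B (cs L) m) w := by
      intro y
      rw [← map_smul, ← hwavg, map_sum]
      refine Fintype.sum_equiv (Equiv.mulRight y) _ _ fun m => ?_
      change H.pull (mapL B (cs L) y) (χ m • H.pull (mapL B (cs L) m) w) =
        χ (m * y * y⁻¹) • H.pull (mapL B (cs L) (m * y)) w
      rw [map_smul, hpp, mul_inv_cancel_right]
    have h2 : (ℓ : ℂ) • ∑ γ, H.pull (mapL B (cs L) (γ * x * γ⁻¹)) w =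
        (ℓ : ℂ) • (((ℓ : ℂ) * χ x⁻¹) • w) := by
      rw [Finset.smul_sum, Finset.sum_congr rfl fun γ _ => h1 _, Finset.sum_comm]
      have h3 : ∀ m, ∑ γ, χ (m * (γ * x * γ⁻¹)⁻¹) • H.pull (mapL B (cs L) m) w =
          ((ℓ : ℂ) * χ x⁻¹) • (χ m • H.pull (mapL B (cs L) m) w) := by
        intro m
        rw [← Finset.sum_smul, smul_smul]
        congr 1
        have h4 := hirr.func m x⁻¹
        have h5 : ∀ γ, (γ * x * γ⁻¹)⁻¹ = γ * x⁻¹ * γ⁻¹ := fun γ => by group
        simp only [h5]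
        rw [h4]
        ring
      rw [Finset.sum_congr rfl fun m _ => h3 m, ← Finset.smul_sum, hwavg, smul_comm]
    have h3 := congrArg (fun v => (ℓ : ℂ)⁻¹ • v) h2
    simp only [smul_smul (ℓ : ℂ)⁻¹, inv_mul_cancel₀ hℓ0, one_smul] at h3
    exact h3
  have hzero : ∀ γ, ∑ g, (a g : ℂ) • H.pull (mapL B (cs L) (γ * (δ⁻¹ * g) * γ⁻¹)) w = 0 := by
    intro γ
    have h1 := ha (H.pull (mapL B (cs L) (γ * δ⁻¹)) w) (hD.pull_mem _ _ _ _ _ _ hwpq)
    have h2 := congrArg (H.pull (mapL B (cs L) γ⁻¹)) h1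
    rw [map_sum, map_zero] at h2
    rw [← h2]
    refine Finset.sum_congr rfl fun g _ => ?_
    rw [map_smul, hpp, hpp]
    congr 3
    group
  have h1 : ∑ g, (a g : ℂ) • ∑ γ, H.pull (mapL B (cs L) (γ * (δ⁻¹ * g) * γ⁻¹)) w = 0 := by
    simp_rw [Finset.smul_sum]
    rw [Finset.sum_comm]
    exact Finset.sum_eq_zero fun γ _ => hzero γ
  have h2 : ((ℓ : ℂ) * ∑ g, (a g : ℂ) * χ (g⁻¹ * δ)) • w = 0 := by
    rw [← h1, Finset.mul_sum, Finset.sum_smul]
    refine Finset.sum_congr rfl fun g _ => ?_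
    rw [hcl, smul_smul]
    congr 1
    have h5 : (δ⁻¹ * g)⁻¹ = g⁻¹ * δ := by group
    rw [h5]
    ring
  have h3 := (smul_eq_zero.1 h2).resolve_right hw0
  have h4 := (mul_eq_zero.1 h3).resolve_left hℓ0
  apply σ.injective
  rw [map_zero, ← h4, map_sum]
  refine Finset.sum_congr rfl fun g _ => ?_
  rw [map_mul, map_ratCast]

/-- **The factorization theorem**, general form. -/
theorem main (hD : D.IsHodge) (L₀ : List (GCurve 𝒱))
    (hact : ∀ c ∈ L₀, c.IsAction) (hchar : ∀ c ∈ L₀, GoodChars D K c)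
    (hN : Nilpotence H (prodL B L₀)) (Bad : ℕ → ℕ → Prop)
    (hcomb : ∀ L : List (Fac 𝒱 K), cs L = L₀ → (∀ f ∈ L, f.Ok) → (∀ f ∈ L, Bal D f) →
      (∀ (σ : K →+* ℂ) p q w, PC H B σ L w → w ∈ D.hdg (prodL B (cs L)) p q → w ≠ 0 →
        ¬ Bad p q) → GoodT H P B L)
    (a : Grp L₀ → ℚ)
    (ha : ∀ p q : ℕ, Bad p q → ∀ x ∈ D.hdg (prodL B L₀) p q,
      ∑ γ, (a γ : ℂ) • H.push (mapL B L₀ γ) x = 0) :
    gcor C B L₀ a ∈ thr C P (prodL B L₀) (prodL B L₀) 0 := by
  classical
  have key : ∀ Ψ ∈ Submodule.span ℚ {Ψ | IsProdChar D K L₀ Ψ},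
      C.comp (gcor C B L₀ a) (gcor C B L₀ (trf Ψ)) ∈ thr C P (prodL B L₀) (prodL B L₀) 0 := by
    intro Ψ hΨ
    induction hΨ using Submodule.span_induction with
    | mem Ψ hΨ =>
      obtain ⟨L, rfl, hL, hLb, rfl⟩ := hΨ
      change C.comp (gcor C B (cs L) a) (gcor C B (cs L) (trf (chL L))) ∈ _
      by_cases hg : GoodT H P B L
      · refine comp_thr (s := 0) ?_ (gcor_mem hL hN hg) (fun W δ h => by rw [add_zero]; exact h)
          (by ring)
        rw [add_zero]
        exact gcor_deg a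
      · have hg' : ¬ ∀ (σ : K →+* ℂ) p q w, PC H B σ L w → w ∈ D.hdg (prodL B (cs L)) p q →
            w ≠ 0 → ¬ Bad p q := fun h => hg (hcomb L rfl hL hLb h)
        push Not at hg'
        obtain ⟨σ, p, q, w, hw, hwpq, hw0, hbad⟩ := hg'
        have hcs := isAction_cs hL
        have ha' : ∀ x ∈ D.hdg (prodL B (cs L)) p q,
            ∑ γ : Grp (cs L), (((fun g => a g⁻¹) γ : ℚ) : ℂ) • H.pull (mapL B (cs L) γ) x = 0 := by
          intro x hx
          rw [← ha p q hbad x hx]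
          refine Fintype.sum_equiv (Equiv.inv _) _ _ fun γ => ?_
          change (a γ⁻¹ : ℂ) • H.pull (mapL B (cs L) γ) x =
            (a γ⁻¹ : ℂ) • H.push (mapL B (cs L) γ⁻¹) x
          rw [pull_iso H.toTheoryData (mapL B (cs L) γ) (mapL B (cs L) γ⁻¹)
            (mapL_inv hcs γ) (mapL_inv' hcs γ)]
        have hco := coef_zero hD hL hw hw0 hwpq (fun g => a g⁻¹) ha'
        have hirr := irr_chL L hL
        obtain ⟨-, hinv, -, -, -⟩ := hirr.exists_real
        have hco' : ∀ δ, ∑ h, (a h : K) * chL L (h * δ) = 0 := by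
          intro δ
          rw [← hco δ]
          refine Fintype.sum_equiv (Equiv.inv _) _ _ fun h => ?_
          change (a h : K) * chL L (h * δ) = (a h⁻¹⁻¹ : K) * chL L (h⁻¹⁻¹ * δ)
          rw [inv_inv]
        have hco'' : ∀ δ, ∑ h, a h * trf (chL L) (h * δ) = 0 := by
          intro δ
          have h1 := congrArg (Algebra.trace ℚ K) (hco' δ)
          rw [map_zero, map_sum] at h1
          rw [← h1]
          refine Finset.sum_congr rfl fun h _ => ?_
          have h2 : (a h : K) * chL L (h * δ) = a h • chL L (h * δ) := (Rat.smul_def _ _).symm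
          rw [h2, map_smul]
          rfl
        have h0 : ∀ e, ∑ g, trf (chL L) g * a (g⁻¹ * e) = 0 := by
          intro e
          rw [← hco'' e⁻¹]
          refine Fintype.sum_equiv ((Equiv.inv _).trans (Equiv.mulRight e)) _ _ fun g => ?_
          change trf (chL L) g * a (g⁻¹ * e) = a (g⁻¹ * e) * trf (chL L) ((g⁻¹ * e) * e⁻¹)
          rw [mul_inv_cancel_right, hinv, mul_comm]
        rw [gcor_comp (isAction_cs hL), gcor, Finset.sum_eq_zero fun e _ => by rw [h0 e, zero_smul]]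
        exact Submodule.zero_mem _
    | zero =>
      have h0 : trf (0 : Grp L₀ → K) = fun _ => 0 := by
        funext γ
        change Algebra.trace ℚ K 0 = 0
        rw [map_zero]
      have h1 : gcor C B L₀ (fun _ => 0) = 0 := Finset.sum_eq_zero fun e _ => zero_smul _ _
      rw [h0, h1, comp_zero]
      exact Submodule.zero_mem _
    | add Ψ Ψ' _ _ h h' =>
      have h1 : gcor C B L₀ (trf (Ψ + Ψ')) = gcor C B L₀ (trf Ψ) + gcor C B L₀ (trf Ψ') := by
        rw [gcor, gcor.eq_1 C B L₀ (trf Ψ), gcor.eq_1 C B L₀ (trf Ψ'), ← Finset.sum_add_distrib]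
        refine Finset.sum_congr rfl fun γ _ => ?_
        rw [← add_smul]
        congr 1
        change Algebra.trace ℚ K (Ψ γ + Ψ' γ) = _
        rw [map_add]
        rfl
      rw [h1, comp_add]
      exact Submodule.add_mem _ h h'
    | smul q Ψ _ h =>
      have h1 : gcor C B L₀ (trf (q • Ψ)) = q • gcor C B L₀ (trf Ψ) := by
        rw [gcor, gcor.eq_1 C B L₀ (trf Ψ), Finset.smul_sum]
        refine Finset.sum_congr rfl fun γ _ => ?_
        rw [smul_smul]
        congr 1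
        change Algebra.trace ℚ K (q • Ψ γ) = _
        rw [map_smul]
        rfl
      rw [h1, comp_smul']
      exact Submodule.smul_mem _ _ h
  have hR0 := key _ (delta_span L₀ hact hchar)
  have hR2 : ∀ γ, trf (fun γ : Grp L₀ => if γ = 1 then (1 : K) else 0) γ =
      if γ = 1 then (Module.finrank ℚ K : ℚ) else 0 := by
    intro γ
    by_cases h : γ = 1
    · rw [if_pos h, trf, if_pos h]
      have h1 := Algebra.trace_algebraMap (S := K) (1 : ℚ)
      rw [map_one] at h1
      rw [h1, nsmul_eq_mul, mul_one]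
    · rw [if_neg h, trf, if_neg h, map_zero]
  have h1 : gcor C B L₀ (trf (fun γ : Grp L₀ => if γ = 1 then (1 : K) else 0)) =
      (Module.finrank ℚ K : ℚ) • dg C _ := by
    rw [gcor, Finset.sum_eq_single 1]
    · rw [hR2, if_pos rfl, mapL_one hact, dg]
    · intro γ _ hγ
      rw [hR2, if_neg hγ, zero_smul]
    · intro h
      exact absurd (Finset.mem_univ _) h
  rw [h1, comp_smul', comp_dg] at hR0
  have h2 : (Module.finrank ℚ K : ℚ) ≠ 0 := by
    exact_mod_cast (Module.finrank_pos (R := ℚ) (M := K)).ne'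
  exact (Submodule.smul_mem_iff _ h2).1 hR0

end Pool.Agent.U191.FK
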