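import Pool.Agent.U191.FK.SmMu
import Pool.Agent.U191.FK.Smash
import Pool.Agent.U840.SY.Sum
import Pool.Agent.U840.SY.B

/-!
# Murre's conjecture (B) for varieties of level at most four
-/

set_option autoImplicit false
set_option linter.unusedSectionVars false

open CategoryTheory AlgebraicGeometry

universe u v

namespace Pool.Agent.U191.FL

open Pool.Agent.H914 Pool.Agent.H914.VarClass Pool.Agent.H914.VarClass.Obj Pool.Agent.W492.BB
  Pool.Agent.W550.Corr Pool.Agent.TH133 Pool.Agent.U191.EY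
open Pool.Agent.W484.CK (iterate Nilpotence)
open Pool.Agent.U840.SY (HasSymmetricCK IsSymmetric)
open Pool.Agent.Q73.LS (PicardFaithful)

variable {k : Type u} [Field k] {𝒱 : VarClass k} {C : TheoryData.{u, v, 0} 𝒱 ℚ}
  [hC : IsChowProj C] {H : WeilTheoryData.{u, v, 0} C ℂ} [hH : IsWeilProj H]
  {D : ∀ V : 𝒱.Obj, HodgeRing (H.A V)}

/-! ### Comparison of the definitions -/

lemma IsChowKunneth.conv {X : 𝒱.Obj} {π : ℕ → C.A (X.prod X)} (h : IsChowKunneth H π) :
    IsCK H X π where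
  deg := h.deg
  out := h.out
  idem := h.idem
  orth := h.orth
  sum := by
    have h1 : ∑ᶠ i : ℕ, π i = dg C X := by
      have h2 : comb (fun _ : ℕ => (1 : ℚ)) π = ∑ᶠ i, π i := finsum_congr fun i => one_smul ℚ (π i)
      exact h2.symm.trans h.sum
    rw [← h1]
    refine (finsum_eq_sum_of_support_subset π ?_).symm
    intro i hi
    rw [Finset.coe_range, Set.mem_Iio]
    by_contra hcon
    exact hi (h.out i (by omega))
  act_self := h.act_self
  act_ne := h.act_ne

lemma step_eq {X : 𝒱.Obj} (π : ℕ → C.A (X.prod X)) (j n : ℕ) :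
    comb (fun i : ℕ => if i + n ≤ 2 * j then (1 : ℚ) else 0) π =
      ∑ i ∈ Finset.range (2 * j + 1 - n), π i := by
  rw [comb, finsum_eq_sum_of_support_subset (s := Finset.range (2 * j + 1 - n))]
  · refine Finset.sum_congr rfl fun i hi => ?_
    rw [Finset.mem_range] at hi
    rw [if_pos (by omega), one_smul]
  · intro i hi
    rw [Finset.coe_range, Set.mem_Iio]
    by_contra hcon
    refine hi ?_
    change (if i + n ≤ 2 * j then (1 : ℚ) else 0) • π i = 0
    rw [if_neg (by omega), zero_smul]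

lemma inStep_iff {X : 𝒱.Obj} {π : ℕ → C.A (X.prod X)} {j n : ℕ} {z : C.A X} :
    InStep C π j n z ↔ z ∈ ckFil C π j n := by
  rw [InStep, step_eq]
  constructor
  · rintro ⟨y, hy, rfl⟩
    exact ⟨y, hy, rfl⟩
  · rintro ⟨y, hy, rfl⟩
    exact ⟨y, hy, rfl⟩

lemma firstHalf_iff {X : 𝒱.Obj} {π : ℕ → C.A (X.prod X)} (h : IsCK H X π) {j : ℕ} :
    FirstHalf C π j ↔ ∀ i : ℕ, 2 * j < i → ∀ x ∈ C.gr X j, C.act (π i) x = 0 := by
  constructor
  · intro h1 i hi x hx
    have h2 := inStep_iff.1 (h1 x hx)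
    rw [h.mem_ckFil] at h2
    exact h2.2 i (by omega)
  · intro h1 x hx
    rw [inStep_iff, h.mem_ckFil]
    exact ⟨hx, fun i hi => h1 i (by omega) x hx⟩

lemma secondHalf_iff {X : 𝒱.Obj} {π : ℕ → C.A (X.prod X)} (h : IsCK H X π) {j : ℕ} :
    SecondHalf C π j ↔ ∀ i : ℕ, i < j → ∀ x ∈ C.gr X j, C.act (π i) x = 0 := by
  rw [show (∀ i : ℕ, i < j → ∀ x ∈ C.gr X j, C.act (π i) x = 0) ↔
    U840.SY.B1In C π j from (U840.SY.b1In_iff h j).symm]
  rw [U840.SY.B1In, Submodule.eq_bot_iff]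
  exact ⟨fun h1 x hx => h1 x (inStep_iff.2 hx), fun h1 x hx => h1 x (inStep_iff.1 hx)⟩

lemma PicardTheorem.conv (h : PicardTheorem H) : PicardFaithful H :=
  fun X γ hγ hk z hz hz' => h X γ z hγ hk ⟨hz, hz'⟩

/-! ### The projectors of a variety built from others -/

lemma act_smulH {X Y : 𝒱.Obj} (c : ℂ) (Γ : H.A (X.prod Y)) (x : H.A X) :
    H.act (c • Γ) x = c • H.act Γ x := LinearMap.map_smul₂ (actB H.toTheoryData) c Γ x

lemma act_power {X : 𝒱.Obj} {n e : C.A (X.prod X)} {x : C.A X}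
    (h : ∀ y, y = x ∨ y = C.act e x → C.act n y = C.act e y) (he : C.comp e e = e) :
    ∀ m, C.act (power C n (m + 1)) x = C.act e x
  | 0 => by
    change C.act (C.comp (gph C (𝟙 X)) n) x = _
    rw [C.act_comp]
    have h1 : C.act (gph C (𝟙 X)) x = x := act_dg C x
    rw [h1, h x (Or.inl rfl)]
  | m + 1 => by
    change C.act (C.comp (power C n (m + 1)) n) x = _
    rw [C.act_comp, act_power h he m, h _ (Or.inr rfl), ← C.act_comp, he]

theorem kills_of_thr {P : 𝒱.Obj → ℤ → Prop} {Z : 𝒱.Obj} (hZ : dg C Z ∈ FK.thr C P Z Z 0)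
    (hnil : ∀ z : C.A (Z.prod Z), C.Deg Z.dim z → (∀ x : H.A Z, Van (corrAct H z x)) →
      ∃ n, Van (power C z n)) {i : ℕ} {j : ℤ}
    (hW : ∀ W δ, P W δ → ∃ ρ : ℕ → C.A (W.prod W), IsCK H W ρ ∧
      ∀ i' : ℕ, (i' : ℤ) = i + 2 * (W.dim + δ - Z.dim) →
        ∀ x ∈ C.gr W (j + (W.dim + δ - Z.dim)), C.act (ρ i') x = 0)
    {π : ℕ → C.A (Z.prod Z)} (hπ : IsCK H Z π) : ∀ x ∈ C.gr Z j, C.act (π i) x = 0 := by
  have key : ∀ ε ∈ FK.thr C P Z Z 0, ∃ ε' : C.A (Z.prod Z), ε' ∈ C.gr (Z.prod Z) Z.dim ∧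
      (∀ (m : ℤ), ∀ x ∈ H.gr Z m, m ≠ i → H.act (H.cl ε') x = 0) ∧
      (∀ x ∈ H.gr Z i, H.act (H.cl ε') x = H.act (H.cl ε) x) ∧
      ∀ x ∈ C.gr Z j, C.act ε' x = 0 := by
    intro ε hε
    refine Submodule.span_induction (p := fun ε _ => ∃ ε' : C.A (Z.prod Z),
      ε' ∈ C.gr (Z.prod Z) Z.dim ∧
      (∀ (m : ℤ), ∀ x ∈ H.gr Z m, m ≠ i → H.act (H.cl ε') x = 0) ∧
      (∀ x ∈ H.gr Z i, H.act (H.cl ε') x = H.act (H.cl ε) x) ∧
      ∀ x ∈ C.gr Z j, C.act ε' x = 0) ?_ ?_ ?_ ?_ hε
    · rintro _ ⟨W, δ, a, b, hP, ha, hb, rfl⟩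
      obtain ⟨ρ, hρ, hρ'⟩ := hW W δ hP
      have ha' : a ∈ C.gr (Z.prod W) (Z.dim + (W.dim + δ - Z.dim)) := by
        have e1 : (Z.dim : ℤ) + (W.dim + δ - Z.dim) = W.dim + δ := by ring
        rw [e1]
        exact ha
      by_cases hs : 0 ≤ (i : ℤ) + 2 * (W.dim + δ - Z.dim)
      · obtain ⟨i', hi'⟩ := Int.eq_ofNat_of_zero_le hs
        have hi : (i' : ℤ) = i + 2 * (W.dim + δ - Z.dim) := hi'.symm
        refine ⟨C.comp (C.comp a (ρ i')) b, ?_, ?_, ?_, ?_⟩
        · have h1 := FK.comp_deg' ha (hρ.deg i')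
          have h2 := FK.comp_deg' h1 hb
          have e1 : (W.dim : ℤ) + δ + W.dim - W.dim + (Z.dim - δ + 0) - W.dim = Z.dim := by ring
          rwa [e1] at h2
        · intro m x hx hm
          rw [FK.act_cl_comp, FK.act_cl_comp]
          have h1 := actH_mem H ha' hx
          rw [hρ.act_ne i' _ _ (by omega) h1]
          exact H.act_map_zero _
        · intro x hx
          rw [FK.act_cl_comp, FK.act_cl_comp, FK.act_cl_comp]
          have h1 := actH_mem H ha' hx
          rw [← hi] at h1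
          rw [hρ.act_self i' _ h1]
        · intro x hx
          rw [C.act_comp, C.act_comp]
          have h1 := W492.BB.act_mem ha' hx
          rw [hρ' i' hi _ h1]
          exact C.act_map_zero _
      · refine ⟨0, Submodule.zero_mem _, ?_, ?_, ?_⟩
        · intro m x _ _
          rw [map_zero]
          exact H.act_zero _
        · intro x hx
          rw [map_zero, H.act_zero, FK.act_cl_comp]
          have h1 := actH_mem H ha' hx
          rw [H.gr_neg _ _ (by omega)] at h1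
          rw [(Submodule.mem_bot _).1 h1]
          exact (H.act_map_zero _).symm
        · intro x _
          exact C.act_zero x
    · refine ⟨0, Submodule.zero_mem _, ?_, ?_, ?_⟩
      · intro m x _ _
        rw [map_zero]
        exact H.act_zero _
      · intro x _
        rfl
      · intro x _
        exact C.act_zero x
    · rintro x y _ _ ⟨x', h1, h2, h3, h4⟩ ⟨y', g1, g2, g3, g4⟩
      refine ⟨x' + y', Submodule.add_mem _ h1 g1, ?_, ?_, ?_⟩
      · intro m z hz hm
        rw [map_add, H.act_add, h2 m z hz hm, g2 m z hz hm, add_zero]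
      · intro z hz
        rw [map_add, H.act_add, h3 z hz, g3 z hz, map_add, H.act_add]
      · intro z hz
        rw [C.act_add, h4 z hz, g4 z hz, add_zero]
    · rintro q x _ ⟨x', h1, h2, h3, h4⟩
      refine ⟨q • x', Submodule.smul_mem _ _ h1, ?_, ?_, ?_⟩
      · intro m z hz hm
        rw [cl_smul, act_smulH, h2 m z hz hm, smul_zero]
      · intro z hz
        rw [cl_smul, act_smulH, h3 z hz, cl_smul, act_smulH]
      · intro z hz
        have e1 : C.act (q • x') z = q • C.act x' z := LinearMap.map_smul₂ (actB C) q x' z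
        rw [e1, h4 z hz, smul_zero]
  obtain ⟨ε', h1, h2, h3, h4⟩ := key _ hZ
  have hact : ∀ x ∈ C.gr Z j, C.act (π i - ε') x = C.act (π i) x := by
    intro x hx
    have e1 : C.act (π i - ε') x = C.act (π i) x - C.act ε' x := LinearMap.map_sub₂ (actB C) _ _ _
    rw [e1, h4 x hx, sub_zero]
  obtain ⟨n, hn⟩ := hnil (π i - ε') (Submodule.sub_mem _ (hπ.deg i) h1) (by
    have h5 : (H.actL (H.cl (π i - ε'))) = 0 := by
      apply ext_gr H
      intro m x hx
      change H.act (H.cl (π i - ε')) x = 0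
      have e1 : H.act (H.cl (π i - ε')) x = H.act (H.cl (π i)) x - H.act (H.cl ε') x := by
        rw [map_sub]
        exact LinearMap.map_sub₂ (actB H.toTheoryData) _ _ _
      rw [e1]
      rcases eq_or_ne m i with hm | hm
      · subst hm
        rw [h3 x hx, FK.act_cl_dg, hπ.act_self i x hx, sub_self]
      · rw [h2 m x hx hm, hπ.act_ne i m x hm hx, sub_self]
    intro x
    exact LinearMap.congr_fun h5 x)
  intro x hx
  have h5 : power C (π i - ε') n = 0 := hn
  have h6 := act_power (C := C) (n := π i - ε') (e := π i) (x := x) (by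
    rintro y (rfl | rfl)
    · exact hact _ hx
    · exact hact _ (act_mem0 C (hπ.deg i) hx)) (hπ.idem i) n
  rw [← h6]
  change C.act (C.comp (power C (π i - ε') n) (π i - ε')) x = 0
  rw [C.act_comp, h5, C.act_zero]
  exact C.act_map_zero _

/-! ### Products of curves -/

lemma hasSymmetricCK_point {B : 𝒱.Obj} (hB : B.dim = 0) : HasSymmetricCK H B := by
  have hz : ∀ (m : ℤ) (a : H.A B), m ≠ 0 → a ∈ H.gr B m → a = 0 := by
    intro m a hm ha
    rcases lt_or_gt_of_ne hm with h | h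
    · rw [H.gr_neg _ _ h] at ha
      exact (Submodule.mem_bot _).1 ha
    · rw [gr_top H (by omega)] at ha
      exact (Submodule.mem_bot _).1 ha
  refine ⟨fun i => if i = 0 then dg C B else 0, fun i => if i = 0 then dg C B else 0,
    ⟨?_, ?_, ?_, ?_, ?_, ?_, ?_⟩, ⟨?_, ?_, ?_, ?_, ?_⟩⟩
  · intro i
    split_ifs
    · exact FK.dg_deg B
    · exact Submodule.zero_mem _
  · intro i hi
    rw [if_neg (by omega)]
  · intro i
    split_ifs
    · exact comp_dg C _
    · exact W550.Corr.comp_zero C _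
  · intro i j hij
    by_cases hi : i = 0
    · rw [if_neg (show j ≠ 0 by omega)]
      exact W550.Corr.comp_zero C _
    · rw [if_neg hi]
      exact W550.Corr.zero_comp C _
  · rw [hB]
    simp
  · intro i a ha
    by_cases hi : i = 0
    · rw [if_pos hi, FK.act_cl_dg]
    · rw [hz i a (by exact_mod_cast hi) ha]
      exact H.act_map_zero _
  · intro i m a hm ha
    by_cases hi : i = 0
    · subst hi
      rw [hz m a (by exact_mod_cast hm) ha]
      exact H.act_map_zero _
    · rw [if_neg hi, map_zero]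
      exact H.act_zero _
  · intro i hi
    rw [if_pos (by omega)]
    have h := FK.dg_deg (C := C) B
    rw [hB] at h ⊢
    have e1 : (2 : ℤ) * ((0 : ℕ) : ℤ) - i = ((0 : ℕ) : ℤ) := by omega
    rw [e1]
    exact h
  · intro i hi
    rw [if_neg (by omega)]
  · intro i hi
    rw [if_pos (by omega)]
    exact comp_dg C _
  · intro i hi
    rw [if_pos (by omega), if_pos (by omega)]
    exact comp_dg C _
  · intro i hi
    rw [if_pos (by omega), if_pos (by omega)]
    exact comp_dg C _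

lemma hasSymmetricCK_prodL {B : 𝒱.Obj} (hB : B.dim = 0) : ∀ {L : List (GCurve 𝒱)},
    (∀ c ∈ L, c.V.dim = 1) → HasSymmetricCK H (prodL B L)
  | [], _ => hasSymmetricCK_point hB
  | c :: L, h =>
    (U840.SY.hasSymmetricCK_curve (h c (by simp))).prod
      (hasSymmetricCK_prodL hB fun c' hc' => h c' (List.mem_cons_of_mem _ hc'))

end Pool.Agent.U191.FL
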