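import Pool.Agent.U191.FK.SmMurre
import Pool.Agent.U191.FK.Thm

/-!
# Murre's conjectures for motives of level at most two
-/

set_option autoImplicit false
set_option linter.unusedSectionVars false

open CategoryTheory AlgebraicGeometry

universe u v

namespace Pool.Agent.U191.FL

open Pool.Agent.H914 Pool.Agent.H914.VarClass Pool.Agent.H914.VarClass.Obj Pool.Agent.W492.BB
  Pool.Agent.W550.Corr Pool.Agent.TH133 Pool.Agent.U191.EY Pool.Agent.X308.S

variable {k : Type u} [Field k] {𝒱 : VarClass k} {C : TheoryData.{u, v, 0} 𝒱 ℚ}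
  [hC : IsChowProj C] {H : WeilTheoryData.{u, v, 0} C ℂ} [hH : IsWeilProj H]
  {D : ∀ V : 𝒱.Obj, HodgeRing (H.A V)}

lemma comb_one {M : Type v} [Ring M] [Algebra ℚ M] {ι : Type} (f : ι → M) :
    comb (fun _ : ι => (1 : ℚ)) f = ∑ᶠ i, f i :=
  finsum_congr fun i => one_smul ℚ (f i)

lemma IsMurreSurface.conv {S : 𝒱.Obj} {π : ℤ → C.A (S.prod S)} (h : IsMurreSurface H S π) :
    IsMurreCK H S (fun j : ℕ => π (4 - j)) := by
  have hdim : (S.dim : ℤ) = 2 := by exact_mod_cast h.dim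
  refine ⟨h.dim, ⟨fun i => h.ck.deg _, fun i hi => ?_, fun i => h.ck.idem _, fun i j hij => ?_,
    ?_, fun i a ha => ?_, fun i m a hm ha => ?_⟩, ?_, ?_, ?_, ?_⟩
  · refine h.range _ (Or.inl ?_)
    rw [h.dim] at hi
    omega
  · exact h.ck.orth _ _ (by omega)
  · have h1 : ∑ᶠ i : ℤ, π i = dg C S := (comb_one π).symm.trans h.ck.sum
    rw [← h1, finsum_eq_sum_of_support_subset (s := Finset.Icc (0 : ℤ) 4) π (by
      intro i hi
      rw [Finset.coe_Icc, Set.mem_Icc]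
      by_contra hcon
      exact hi (h.range i (by omega))), h.dim]
    have e1 : Finset.Icc (0 : ℤ) 4 = {4, 3, 2, 1, 0} := by decide
    have e2 : Finset.range (2 * 2 + 1) = {0, 1, 2, 3, 4} := by decide
    rw [e1, e2]
    simp
  · have h1 := h.ck.act_self (4 - i) a (by
      have e1 : (2 : ℤ) * S.dim - (4 - (i : ℤ) - 2 * 0) = i := by rw [hdim]; ring
      rw [e1]
      exact ha)
    have h2 : corrAct H (gph C (𝟙 S)) a = a := FK.act_cl_dg a
    exact h1.trans h2
  · refine h.ck.act_ne (4 - i) m a ?_ ha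
    have e1 : (2 : ℤ) * S.dim - (4 - (i : ℤ) - 2 * 0) = i := by rw [hdim]; ring
    rw [e1]
    exact hm
  · obtain ⟨x, hx, hx'⟩ := h.four
    exact ⟨x, hx, hx'⟩
  · obtain ⟨x, hx, hx'⟩ := h.zero
    exact ⟨x, hx, hx'⟩
  · obtain ⟨T, α, β, hT, hα, hβ, hx'⟩ := h.three
    exact ⟨T, α, β, hT, hα, hβ, hx'⟩
  · obtain ⟨T, α, β, hT, hα, hβ, hx'⟩ := h.one
    exact ⟨T, α, β, hT, hα, hβ, hx'⟩

lemma SurfaceFacts.conv (h : SurfaceFacts H) : SurfaceProperties H where
  divisors X Y D h1 h2 := h.divisors X Y D h1 h2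
  murre S hS := by
    obtain ⟨π, h1, h2⟩ := h.murre S hS
    exact ⟨_, h1.conv, fun x hx hx' => h2 x hx hx'⟩

/-- **Murre's conjectures (A), (B), (D)** for motives built from motives of level at most two. -/
theorem murre_of_level (hD : IsHodgeTheory H D) (hN : KimuraTheorem H) (hS : SurfaceFacts H)
    {T : 𝒱.Obj} (hT : T.dim = 1) {Z : 𝒱.Obj} {p : C.A (Z.prod Z)} (hpp : compo C p p = p)
    (hp : IsBuiltOfLevel H D 2 p) (m : ℤ) :
    ∃ π : ℤ → C.A (Z.prod Z), IsCKDecomposition H p m π ∧ MurreB C m π ∧ MurreD H m π := by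
  obtain ⟨π, h1, h2, h3⟩ := murre_motive (H := H) hS.conv (p := p) hpp
    (hp.throughSurfaces hD hN hT) m
  refine ⟨π, ⟨h1.finite, h1.deg, h1.idem, h1.orth, (comb_one π).trans h1.sum, h1.act_self,
    h1.act_ne⟩, fun l i z hi hz => h2 l i hi z hz, fun l z hz hz' => h3 l z hz hz'⟩

end Pool.Agent.U191.FL
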