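import Pool.Agent.U191.FK.SmNum
import Pool.Agent.U191.FK.AJ

/-!
# Varieties over number fields
-/

set_option autoImplicit false
set_option linter.unusedSectionVars false

open CategoryTheory AlgebraicGeometry

universe u v

namespace Pool.Agent.U191.FL

open Pool.Agent.H914 Pool.Agent.H914.VarClass Pool.Agent.H914.VarClass.Obj Pool.Agent.W492.BB
  Pool.Agent.W550.Corr Pool.Agent.TH133 Pool.Agent.U191.EY

variable {k : Type u} [Field k] {𝒱 : VarClass k} {C : TheoryData.{u, v, 0} 𝒱 ℚ}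
  [hC : IsChowProj C] {H : WeilTheoryData.{u, v, 0} C ℂ} [hH : IsWeilProj H]
  {D : ∀ V : 𝒱.Obj, HodgeRing (H.A V)} {A : AbelJacobiMaps H}
  {F : Forms C}

theorem aj_built (hD : IsHodgeTheory H D) (hN : KimuraTheorem H) {ℓ : ℕ}
    (hA : ∀ W : 𝒱.Obj, IsShortProduct ℓ W → ∀ j, AJInjective A W j) :
    ForBuilt H D F ℓ (AJInjectiveNF A) :=
  ⟨fun _ _ m hZ _ z _ h => ajInjective_of_level hD hN hA hZ m z h,
    fun _ _ _ _ _ _ hB hL hY hdim hl hm _ z _ h =>
      ajInjective_of_mixed hD hN hA hB hL hY hdim hl hm z h⟩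

lemma geo_of_aj (hF : IsFormsTheory F) {V : 𝒱.Obj} {m : ℤ}
    (h : ∀ X, F V X → AJInjectiveNF A V X m) : AJInjective A V m := by
  intro z hz h0
  obtain ⟨X, hX, h1⟩ := hF.1 V m z hz.1
  exact h X hX z h1 hz h0


lemma rank_iff {V : 𝒱.Obj} {m : ℤ} {X : Fam C V} : FiniteRank H V X m ↔
    ∃ S : Submodule ℚ (C.A V), S.FG ∧ ∀ z, X m z → IsHomTrivial H m z → z ∈ S := by
  constructor
  · rintro ⟨s, hs⟩
    exact ⟨Submodule.span ℚ {w | w ∈ s}, Submodule.fg_span s.finite_toSet,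
      fun z hz hz' => hs z hz hz'⟩
  · rintro ⟨S, ⟨s, rfl⟩, h⟩
    exact ⟨s, fun z hz hz' => h z hz hz'⟩


lemma rank_zero {V : 𝒱.Obj} {m : ℤ} (h : ∀ z : C.A V, IsHomTrivial H m z → z = 0)
    (X : Fam C V) : FiniteRank H V X m :=
  rank_iff.2 ⟨⊥, Submodule.fg_bot, fun _ _ hy => (Submodule.mem_bot ℚ).2 (h _ hy)⟩

lemma rank_curve (hMW : MordellWeil H F) {W : 𝒱.Obj} (hW : W.dim ≤ 1) (j : ℤ) :
    ∀ X, F W X → FiniteRank H W X j := by
  intro X hX
  rcases lt_or_ge j 0 with h5 | h5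
  · refine rank_zero (fun z hz => ?_) X
    have h2 : z ∈ C.gr W j := hz.1
    rw [C.gr_neg _ _ h5] at h2
    exact (Submodule.mem_bot _).1 h2
  · rcases eq_or_lt_of_le h5 with h6 | h6
    · subst h6
      exact rank_zero (fun z hz => codim_zero (H := H) hz.1 hz.2) X
    · rcases lt_or_ge (W.dim : ℤ) j with h7 | h7
      · exact rank_zero (fun z hz => hC.gr_top W _ _ hz.1 h7) X
      · have h8 : W.dim = 1 := by omega
        have h9 : j = 1 := by omega
        subst h9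
        exact hMW W X h8 hX

theorem fin_of_thr (hF : IsFormsTheory F) {P : 𝒱.Obj → ℤ → Prop} {Y : 𝒱.Obj} {m : ℤ}
    (hP : ∀ W δ, P W δ → (∀ j, ∀ X, F W X → FiniteRank H W X j) ∨ (Y.dim : ℤ) < m + δ)
    (hY : C.graph (𝟙 Y) ∈ FK.thr C P Y Y 0) : ∀ X, F Y X → FiniteRank H Y X m := by
  intro X hX
  have h1 : ∀ p ∈ FK.thr C P Y Y 0, ∃ S : Submodule ℚ (C.A Y), S.FG ∧
      ∀ y, X m y → IsHomTrivial H m y → C.act p y ∈ S := by
    intro p hp
    refine Submodule.span_induction (p := fun p _ => ∃ S : Submodule ℚ (C.A Y),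
      S.FG ∧ ∀ y, X m y → IsHomTrivial H m y → C.act p y ∈ S) ?_ ?_ ?_ ?_ hp
    · rintro _ ⟨W, δ, a, b, hW, ha, hb, rfl⟩
      obtain ⟨X', hX', h0⟩ := hF.2 Y W X _ a hX ha
      rcases hP W δ hW with h | h
      · obtain ⟨S, hS, h2⟩ := rank_iff.1 (h (m + ((W.dim : ℤ) + δ) - Y.dim) X' hX')
        refine ⟨S.map ((actB C) b), hS.map _, fun y hy hy' => ?_⟩
        rw [C.act_comp]
        exact Submodule.mem_map_of_mem (h2 _ (h0 m y hy)
          (homTrivial_act (H := H) ha ⟨hy'.1, hy'.2⟩))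
      · refine ⟨⊥, Submodule.fg_bot, fun y hy hy' => ?_⟩
        rw [C.act_comp]
        obtain ⟨h2, h3⟩ := homTrivial_act (H := H) ha ⟨hy'.1, hy'.2⟩
        rw [hC.gr_top W _ _ h2 (by omega), C.act_map_zero]
        exact Submodule.zero_mem _
    · refine ⟨⊥, Submodule.fg_bot, fun y hy hy' => ?_⟩
      have h2 : C.act (0 : C.A (Y.prod Y)) y = 0 := by
        change (actB C) 0 y = 0
        rw [map_zero, LinearMap.zero_apply]
      rw [h2]
      exact Submodule.zero_mem _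
    · rintro p q _ _ ⟨S, hS, h2⟩ ⟨T, hT, h3⟩
      refine ⟨S ⊔ T, hS.sup hT, fun y hy hy' => ?_⟩
      have h4 : C.act (p + q) y = C.act p y + C.act q y := by
        change (actB C) (p + q) y = _
        rw [map_add, LinearMap.add_apply]
        rfl
      rw [h4]
      exact Submodule.add_mem_sup (h2 y hy hy') (h3 y hy hy')
    · rintro c p _ ⟨S, hS, h2⟩
      refine ⟨S, hS, fun y hy hy' => ?_⟩
      have h4 : C.act (c • p) y = c • C.act p y := by
        change (actB C) (c • p) y = _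
        rw [map_smul, LinearMap.smul_apply]
        rfl
      rw [h4]
      exact S.smul_mem c (h2 y hy hy')
  obtain ⟨S, hS, h2⟩ := h1 _ hY
  refine rank_iff.2 ⟨S, hS, fun y hy hy' => ?_⟩
  have h3 := h2 y hy hy'
  have h4 : C.act (C.graph (𝟙 Y)) y = y := act_dg C _
  rwa [h4] at h3

theorem fin_built (hD : IsHodgeTheory H D) (hN : KimuraTheorem H) (hF : IsFormsTheory F) {ℓ : ℕ}
    (hA : ∀ W : 𝒱.Obj, IsShortProduct ℓ W → ∀ j, ∀ X, F W X → FiniteRank H W X j) :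
    ForBuilt H D F ℓ (FiniteRank H) := by
  refine ⟨fun Z X m hZ hX => ?_, fun B L Y X c m hB hL hY hdim hl hm hX => ?_⟩
  · exact fin_of_thr hF (fun W _ h => Or.inl (hA W h)) (IsBuiltOfLevel.thr hD hN hZ) X hX
  · refine fin_of_thr hF (fun W δ h => ?_) (mixed_variety hD hN hB hL hY hdim hl) X hX
    rcases h with h | h
    · exact Or.inl (hA W h)
    · exact Or.inr (by omega)

theorem main_nf (hD : IsHodgeTheory H D) (hN : KimuraTheorem H) (A : AbelJacobiMaps H)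
    (hF : IsFormsTheory F) (hMW : MordellWeil H F) :
    ForBuilt H D F 1 (fun V X m => AJInjectiveNF A V X m ∧ FiniteRank H V X m) ∧
      ∀ ℓ : ℕ,
        (ForProducts F ℓ (AJInjectiveNF A) →
          ForBuilt H D F ℓ (AJInjectiveNF A)) ∧
        (ForProducts F ℓ (FiniteRank H) →
          ForBuilt H D F ℓ (FiniteRank H)) := by
  have h1 := aj_built (F := F) (A := A) hD hN (ℓ := 1) (fun W hW j => ajInjective_short hW j)
  have h2 := fin_built (F := F) hD hN hF (ℓ := 1) (fun W hW j => rank_curve hMW (shortDim hW) j)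
  refine ⟨⟨fun Z X m hZ hX => ⟨h1.1 Z X m hZ hX, h2.1 Z X m hZ hX⟩,
    fun B L Y X c m hB hL hY hdim hl hm hX => ⟨h1.2 B L Y X c m hB hL hY hdim hl hm hX,
      h2.2 B L Y X c m hB hL hY hdim hl hm hX⟩⟩, fun ℓ => ⟨fun h => ?_, fun h => ?_⟩⟩
  · exact aj_built hD hN (fun W hW j => geo_of_aj hF (fun X hX => h W X j hW hX))
  · exact fin_built hD hN hF (fun W hW j X hX => h W X j hW hX)

end Pool.Agent.U191.FL
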