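import Pool.Agent.U191.FK.Char

/-!
# The product and its automorphisms
-/

set_option autoImplicit false
set_option linter.unusedSectionVars false

open CategoryTheory AlgebraicGeometry

universe u v

namespace Pool.Agent.U191.FK

open Pool.Agent.H914 Pool.Agent.H914.VarClass Pool.Agent.H914.VarClass.Obj Pool.Agent.W492.BB
  Pool.Agent.W550.Corr Pool.Agent.TH133 Pool.Agent.U191.EY

variable {k : Type u} [Field k] {𝒱 : VarClass k} {K : Type} [Field K] [NumberField K]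

/-- A factor: a curve with an action, a function on the group and a degree. -/
structure Fac (𝒱 : VarClass k) (K : Type) where
  /-- the curve with its action -/
  c : GCurve 𝒱
  /-- the character -/
  χ : c.G → K
  /-- the degree of the character -/
  d : ℚ

/-- The eigenvalue of the averaging operators. -/
def Fac.l (f : Fac 𝒱 K) : ℚ := Fintype.card f.c.G / f.d

/-- The factor is a curve with an action and an irreducible character with values in `K`. -/
structure Fac.Ok (f : Fac 𝒱 K) : Prop where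
  act : f.c.IsAction
  irr : IsIrrK K f.χ f.d

/-- The curves with their actions of a list of factors. -/
abbrev cs (L : List (Fac 𝒱 K)) : List (GCurve 𝒱) := L.map Fac.c

/-- The character of the product group. -/
noncomputable def chL : (L : List (Fac 𝒱 K)) → Grp (cs L) → K
  | [], _ => 1
  | f :: L, γ => f.χ γ.1 * chL L γ.2

/-- The degree of the character of the product group. -/
def dL (L : List (Fac 𝒱 K)) : ℚ := (L.map Fac.d).prod

section classes

variable {C : TheoryData.{u, v, 0} 𝒱 ℚ} (H : WeilTheoryData.{u, v, 0} C ℂ)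

/-- Isotypic classes of degree `i`. -/
def Eig (f : Fac 𝒱 K) (σ : K →+* ℂ) (i : ℤ) (x : H.A f.c.V) : Prop :=
  x ∈ H.gr f.c.V i ∧ ∑ g, σ (f.χ g) • H.pull (f.c.ρ g) x = (f.l : ℂ) • x

/-- Product classes: external products of homogeneous isotypic classes. -/
def PC (B : 𝒱.Obj) (σ : K →+* ℂ) : (L : List (Fac 𝒱 K)) → H.A (prodL B (cs L)) → Prop
  | [], _ => True
  | f :: L, w => ∃ (i : ℤ) (x : H.A f.c.V) (t : H.A (prodL B (cs L))), Eig H f σ i x ∧
      PC B σ L t ∧ w = H.ext x t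

end classes

section theory

variable {C : TheoryData.{u, v, 0} 𝒱 ℚ}
  [hC : IsChowProj C] {H : WeilTheoryData.{u, v, 0} C ℂ} [hH : IsWeilProj H] {B : 𝒱.Obj}

/-- The averaging operator of a factor. -/
noncomputable def avf (H : WeilTheoryData.{u, v, 0} C ℂ) (f : Fac 𝒱 K) (σ : K →+* ℂ) :
    H.A f.c.V →ₗ[ℂ] H.A f.c.V :=
  ∑ g, σ (f.χ g) • (H.pull (f.c.ρ g)).toLinearMap

lemma avf_apply (f : Fac 𝒱 K) (σ : K →+* ℂ) (x : H.A f.c.V) :
    avf H f σ x = ∑ g, σ (f.χ g) • H.pull (f.c.ρ g) x := by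
  rw [avf, LinearMap.sum_apply]
  rfl

/-- The averaging operator. -/
noncomputable def avg (H : WeilTheoryData.{u, v, 0} C ℂ) (B : 𝒱.Obj) (σ : K →+* ℂ)
    (L : List (Fac 𝒱 K)) : H.A (prodL B (cs L)) →ₗ[ℂ] H.A (prodL B (cs L)) :=
  ∑ γ : Grp (cs L), σ (chL L γ) • (H.pull (mapL B (cs L) γ)).toLinearMap

lemma avg_apply (σ : K →+* ℂ) (L : List (Fac 𝒱 K)) (h : H.A (prodL B (cs L))) :
    avg H B σ L h = ∑ γ : Grp (cs L), σ (chL L γ) • H.pull (mapL B (cs L) γ) h := by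
  rw [avg, LinearMap.sum_apply]
  rfl

lemma avg_ext (σ : K →+* ℂ) (f : Fac 𝒱 K) (L : List (Fac 𝒱 K)) (x : H.A f.c.V)
    (t : H.A (prodL B (cs L))) :
    avg H B σ (f :: L) (H.ext x t) = H.ext (avf H f σ x) (avg H B σ L t) := by
  have h1 : avg H B σ (f :: L) (H.ext x t) = ∑ γ : f.c.G × Grp (cs L),
      σ (f.χ γ.1 * chL L γ.2) •
        H.pull (prodMap (f.c.ρ γ.1) (mapL B (cs L) γ.2)) (H.ext x t) := avg_apply σ (f :: L) _
  rw [h1, avf_apply, avg_apply, ext_sum_sum, Fintype.sum_prod_type]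
  refine Finset.sum_congr rfl fun g _ => Finset.sum_congr rfl fun γ _ => ?_
  rw [pull_ext, map_mul, map_smul, LinearMap.map_smul₂, smul_smul, mul_comm, extB_apply]

/-- The averaging operator multiplies product classes by a number. -/
lemma avg_pc (σ : K →+* ℂ) : ∀ (L : List (Fac 𝒱 K)) (w : H.A (prodL B (cs L))), PC H B σ L w →
    avg H B σ L w = ((L.map Fac.l).prod : ℂ) • w
  | [], w, _ => by
    rw [avg_apply]
    have h0 : ∀ γ, σ (chL [] γ) • H.pull (mapL B (cs []) γ) w = w := by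
      intro γ
      have h0 : H.pull (mapL B (cs []) γ) w = w := H.pull_id (X := prodL B (cs [])) w
      have h1 : σ (chL [] γ : K) = 1 := map_one σ
      rw [h0, h1, one_smul]
    rw [Finset.sum_congr rfl fun γ _ => h0 γ, Finset.sum_const, Finset.card_univ]
    have h1 : Fintype.card (Grp (cs ([] : List (Fac 𝒱 K)))) = 1 := Fintype.card_punit
    rw [h1, one_smul]
    simp
  | f :: L, w, h => by
    obtain ⟨i, x, t, hx, ht, rfl⟩ := h
    have h1 : avf H f σ x = (f.l : ℂ) • x := (avf_apply f σ x).trans hx.2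
    rw [avg_ext, h1, avg_pc σ L t ht, ← extB_apply, ← extB_apply, map_smul, LinearMap.map_smul₂,
      smul_smul, List.map_cons, List.prod_cons, Rat.cast_mul, mul_comm]
    rfl

/-- The average over the group of one factor is an isotypic class. -/
lemma eig_avf {f : Fac 𝒱 K} (hf : f.Ok) (σ : K →+* ℂ) (i : ℤ) {x : H.A f.c.V}
    (hx : x ∈ H.gr f.c.V i) : Eig H f σ i (avf H f σ x) := by
  rw [avf_apply]
  refine ⟨Submodule.sum_mem _ fun g _ => Submodule.smul_mem _ _ (H.pull_mem _ hx), ?_⟩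
  have h1 := convR (fun g => (H.pull (f.c.ρ g)).toLinearMap) (fun g h y => by
    change H.pull (f.c.ρ g) (H.pull (f.c.ρ h) y) = H.pull (f.c.ρ (h * g)) y
    rw [← H.pull_comp, hf.act.mul]) (fun g => σ (f.χ g)) (fun g => σ (f.χ g)) x
  refine h1.trans ?_
  rw [Finset.smul_sum]
  refine Finset.sum_congr rfl fun e _ => ?_
  have h2 := (hf.irr.isIrr σ).conv_cv true e
  change ∑ g, σ (f.χ g) * σ (f.χ (e * g⁻¹)) = _ * σ (f.χ e) at h2
  rw [h2, smul_smul]
  rfl

lemma avg_mem (σ : K →+* ℂ) : ∀ (L : List (Fac 𝒱 K)), (∀ f ∈ L, f.Ok) →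
    ∀ h : H.A (prodL B (cs L)), avg H B σ L h ∈ Submodule.span ℂ {w | PC H B σ L w}
  | [], _, _ => Submodule.subset_span trivial
  | f :: L, hL, h => by
    have h1 := mem_span_ext2 f.c.V (prodL B (cs L)) h
    refine (show _ ≤ (Submodule.comap (avg H B σ (f :: L)) (Submodule.span ℂ
      {w | PC H B σ (f :: L) w}) : Submodule ℂ (H.A (f.c.V.prod (prodL B (cs L)))))
      from Submodule.span_le.2 ?_) h1
    rintro _ ⟨l, l', a, t, ha, -, rfl⟩
    change avg H B σ (f :: L) (H.ext a t) ∈ Submodule.span ℂ {w | PC H B σ (f :: L) w}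
    rw [avg_ext]
    have h2 := avg_mem σ L (fun f' hf' => hL f' (List.mem_cons_of_mem _ hf')) t
    have h3 := eig_avf (hL f List.mem_cons_self) σ l ha
    set x := avf H f σ a
    set t' := avg H B σ L t
    clear_value x t'
    refine (show _ ≤ (Submodule.comap (extB H f.c.V (prodL B (cs L)) x) (Submodule.span ℂ
      {w | PC H B σ (f :: L) w})) from Submodule.span_le.2 ?_) h2
    intro y hy
    exact Submodule.subset_span ⟨l, x, y, h3, hy, rfl⟩

/-- Existence of nonzero product classes with prescribed Hodge types. -/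
lemma exists_pc {Dt : HodgeData H} (hD : Dt.IsHodge) (σ : K →+* ℂ) (s : Fac 𝒱 K → ℕ × ℕ) :
    ∀ L : List (Fac 𝒱 K), (∀ f ∈ L, ∃ i x, x ≠ 0 ∧ Eig H f σ i x ∧
      x ∈ Dt.hdg f.c.V (s f).1 (s f).2) →
    ∃ w : H.A (prodL B (cs L)), w ≠ 0 ∧ PC H B σ L w ∧
      w ∈ Dt.hdg (prodL B (cs L)) (L.map fun f => (s f).1).sum (L.map fun f => (s f).2).sum
  | [], _ => ⟨1, hH.one_ne_zero B, trivial, hD.one_mem B⟩
  | f :: L, h => by
    obtain ⟨i, x, hx0, hx, hxs⟩ := h f List.mem_cons_self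
    obtain ⟨t, ht0, ht, hts⟩ := exists_pc hD σ s L fun f' hf' => h f' (List.mem_cons_of_mem _ hf')
    refine ⟨H.ext x t, ext_ne_zero hx0 ht0, ⟨i, x, t, hx, ht, rfl⟩, ?_⟩
    rw [List.map_cons, List.map_cons, List.sum_cons, List.sum_cons]
    exact hD.mul_mem _ _ _ _ _ _ _ (hD.pull_mem _ _ _ _ _ _ hxs) (hD.pull_mem _ _ _ _ _ _ hts)

/-- The external products of eigenclasses of two factors. -/
noncomputable def PW (H : WeilTheoryData.{u, v, 0} C ℂ) (f f' : Fac 𝒱 K) :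
    Submodule ℂ (H.A (f.c.V.prod f'.c.V)) :=
  Submodule.span ℂ {w | ∃ (σ : K →+* ℂ) (i i' : ℤ) (x : H.A f.c.V) (y : H.A f'.c.V),
    Eig H f σ i x ∧ Eig H f' σ i' y ∧ w = H.ext x y}

/-- **Opposite pairs.** If the external products of the isotypic classes of two factors are of type
`(1, 1)`, then the identity on them is given by divisors. -/
lemma exists_pair {Dt : HodgeData H} (hD : Dt.IsHodge) {f f' : Fac 𝒱 K}
    (hf : f.Ok) (hf' : f'.Ok)
    (h11 : ∀ (σ : K →+* ℂ) (i i' : ℤ) (x : H.A f.c.V) (y : H.A f'.c.V), Eig H f σ i x →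
      Eig H f' σ i' y → H.ext x y ∈ Dt.hdg (f.c.V.prod f'.c.V) 1 1) :
    ∃ (n : ℕ) (u v : Fin n → C.A (f.c.V.prod f'.c.V)),
      (∀ i, u i ∈ C.gr (f.c.V.prod f'.c.V) 1) ∧ (∀ i, v i ∈ C.gr (f.c.V.prod f'.c.V) 1) ∧
      ∀ τ : H.A (f.c.V.prod f'.c.V) →ₗ[ℂ] ℂ, (∀ s, H.push (snd (f.c.V.prod f'.c.V)
        (f.c.V.prod f'.c.V)) (H.pull (fst (f.c.V.prod f'.c.V) (f.c.V.prod f'.c.V)) s) =
          τ s • 1) → ∀ ω ∈ PW H f f', ∑ i, τ (H.cl (u i) * ω) • H.cl (v i) = ω := by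
  have := hD.finite (f.c.V.prod f'.c.V)
  set S := f.c.V.prod f'.c.V with hS
  set ψ : f.c.G × f'.c.G → K := fun γ => f.χ γ.1 * f'.χ γ.2 with hψdef
  have hirr : IsIrrK K ψ (f.d * f'.d) := hf.irr.prod hf'.irr
  obtain ⟨l, hRneg, hl0, -, hl1⟩ := hirr.exists_real
  set R := trf ψ with hRdef
  have hψ : ∀ γ : f.c.G × f'.c.G, ψ γ = f.χ γ.1 * f'.χ γ.2 := fun _ => rfl
  let θ : f.c.G × f'.c.G → (S ⟶ S) := fun γ => prodMap (f.c.ρ γ.1) (f'.c.ρ γ.2)
  have hσm : ∀ a b, θ (a * b) = θ b ≫ θ a := by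
    intro a b
    change prodMap (f.c.ρ (a.1 * b.1)) (f'.c.ρ (a.2 * b.2)) = prodMap _ _ ≫ prodMap _ _
    rw [prodMap_comp, hf.act.mul, hf'.act.mul]
  have hσ1 : θ 1 = 𝟙 S := by
    change prodMap (f.c.ρ 1) (f'.c.ρ 1) = 𝟙 S
    rw [hf.act.one, hf'.act.one]
    apply prod_ext
    · rw [prodMap_fst, Category.comp_id, Category.id_comp]
    · rw [prodMap_snd, Category.comp_id, Category.id_comp]
  have hσ : ∀ γ, θ γ ≫ θ γ⁻¹ = 𝟙 _ := by
    intro γ
    rw [← hσm, inv_mul_cancel, hσ1]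
  have hσ' : ∀ γ, θ γ⁻¹ ≫ θ γ = 𝟙 _ := by
    intro γ
    rw [← hσm, mul_inv_cancel, hσ1]
  set P : H.A S →ₗ[ℂ] H.A S := ∑ γ, (R γ : ℂ) • (H.pull (θ γ)).toLinearMap with hP
  have hP' : ∀ h, P h = ∑ γ, (R γ : ℂ) • H.pull (θ γ) h := by
    intro h
    rw [hP, LinearMap.sum_apply]
    rfl
  have hJ : ∀ (σ : K →+* ℂ) (a : H.A f.c.V) (a' : H.A f'.c.V),
      H.ext (avf H f σ a) (avf H f' σ a') =
      ∑ γ : f.c.G × f'.c.G, σ (ψ γ) • H.pull (θ γ) (H.ext a a') := by
    intro σ a a'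
    rw [avf_apply, avf_apply, ext_sum_sum, Fintype.sum_prod_type]
    refine Finset.sum_congr rfl fun g _ => Finset.sum_congr rfl fun g' _ => ?_
    change _ = σ (f.χ g * f'.χ g') • H.pull (prodMap (f.c.ρ g) (f'.c.ρ g')) (H.ext a a')
    rw [pull_ext, map_mul, map_smul, LinearMap.map_smul₂, smul_smul, mul_comm, extB_apply]
  -- the image of `P`
  have himg : ∀ h, P h ∈ PW H f f' := by
    intro h
    refine (show Submodule.span ℂ _ ≤ Submodule.comap P (PW H f f') from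
      Submodule.span_le.2 ?_) (mem_span_ext2 f.c.V f'.c.V h)
    rintro _ ⟨i, i', a, a', ha, ha', rfl⟩
    change P (H.ext a a') ∈ PW H f f'
    have h1 : P (H.ext a a') = ∑ σ : K →+* ℂ, H.ext (avf H f σ a) (avf H f' σ a') := by
      rw [Finset.sum_congr rfl fun σ _ => hJ σ a a', Finset.sum_comm, hP']
      refine Finset.sum_congr rfl fun γ _ => ?_
      rw [← Finset.sum_smul, hRdef, trf_cast]
    rw [h1]
    exact Submodule.sum_mem _ fun σ _ => Submodule.subset_span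
      ⟨σ, i, i', _, _, eig_avf hf σ i ha, eig_avf hf' σ i' ha', rfl⟩
  have hfl : (f.l : ℂ) ≠ 0 := by
    obtain ⟨σ⟩ : Nonempty (K →+* ℂ) := inferInstance
    have := (hf.irr.isIrr σ).l_pos
    exact_mod_cast this.ne'
  have hfl' : (f'.l : ℂ) ≠ 0 := by
    obtain ⟨σ⟩ : Nonempty (K →+* ℂ) := inferInstance
    have := (hf'.irr.isIrr σ).l_pos
    exact_mod_cast this.ne'
  -- `P` is multiplication by `l` on the products
  have hfix : ∀ w ∈ PW H f f', P w = (l : ℂ) • w := by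
    intro w hw
    refine (show PW H f f' ≤ LinearMap.eqLocus P ((l : ℂ) • LinearMap.id) from
      Submodule.span_le.2 ?_) hw
    rintro _ ⟨σ, i, i', x, y, hx, hy, rfl⟩
    change P (H.ext x y) = (l : ℂ) • H.ext x y
    have hx' : avf H f σ x = (f.l : ℂ) • x := (avf_apply f σ x).trans hx.2
    have hy' : avf H f' σ y = (f'.l : ℂ) • y := (avf_apply f' σ y).trans hy.2
    have h1 : ((f.l : ℂ) * f'.l) • H.ext x y =
        ∑ γ : f.c.G × f'.c.G, σ (ψ γ) • H.pull (θ γ) (H.ext x y) := by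
      rw [← hJ, hx', hy', ← extB_apply, ← extB_apply, map_smul, LinearMap.map_smul₂, smul_smul,
        mul_comm]
    have h2 := convR (fun γ => (H.pull (θ γ)).toLinearMap) (fun g h y => by
      change H.pull (θ g) (H.pull (θ h) y) = H.pull (θ (h * g)) y
      rw [← H.pull_comp, hσm]) (fun γ => (R γ : ℂ)) (fun γ => σ (ψ γ)) (H.ext x y)
    have h3 : P (((f.l : ℂ) * f'.l) • H.ext x y) = (l : ℂ) • (((f.l : ℂ) * f'.l) • H.ext x y) := by
      rw [h1, hP']
      refine h2.trans ?_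
      rw [Finset.smul_sum]
      refine Finset.sum_congr rfl fun e _ => ?_
      rw [smul_smul]
      congr 1
      rw [← hl1 σ e]
      refine Finset.sum_congr rfl fun g _ => ?_
      rw [hirr.comm]
    rw [map_smul, smul_comm] at h3
    have h5 : ((f.l : ℂ) * f'.l) ≠ 0 := mul_ne_zero hfl hfl'
    have h6 := congrArg (fun v => ((f.l : ℂ) * f'.l)⁻¹ • v) h3
    simp only [smul_smul, inv_mul_cancel₀ h5, one_smul] at h6
    rw [h6, inv_mul_cancel_left₀ h5]
  have hl0' : (l : ℂ) ≠ 0 := by exact_mod_cast hl0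
  have h11' : PW H f f' ≤ Dt.hdg S 1 1 := by
    refine Submodule.span_le.2 ?_
    rintro _ ⟨σ, i, i', x, y, hx, hy, rfl⟩
    exact h11 σ i i' x y hx hy
  -- rational classes
  have hrat : ∀ r ∈ Dt.rat S, P r ∈ Dt.rat S := by
    intro r hr
    rw [hP']
    refine Finset.sum_induction_nonempty _ (fun x => x ∈ Dt.rat S)
      (fun x y hx hy => hD.rat_add _ _ _ hx hy) ⟨1, Finset.mem_univ _⟩ fun γ _ => ?_
    exact hD.rat_smul _ _ _ (hD.rat_pull _ _ _ _ hr)
  apply exists_dual (by rw [dim_prod, hf.act.dim_eq, hf'.act.dim_eq])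
  · intro w hw
    have h1 : w ∈ Submodule.map P (Submodule.span ℂ (Dt.rat S)) := by
      rw [hD.rat_span]
      refine ⟨(l : ℂ)⁻¹ • w, trivial, ?_⟩
      rw [map_smul, hfix w hw, smul_smul, inv_mul_cancel₀ hl0', one_smul]
    rw [Submodule.map_span] at h1
    refine Submodule.span_mono ?_ h1
    rintro _ ⟨r, hr, rfl⟩
    exact ⟨himg r, hD.lefschetz S _ (hrat r hr) (h11' (himg r))⟩
  · intro w hw hw'
    have hadj : ∀ x y, H.tr S (P x * y) = H.tr S (x * P y) := by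
      intro x y
      rw [hP', hP', Finset.sum_mul, Finset.mul_sum, map_sum, map_sum]
      refine Fintype.sum_equiv (Equiv.inv _) _ _ fun γ => ?_
      change H.tr S ((R γ : ℂ) • H.pull (θ γ) x * y) =
        H.tr S (x * ((R γ⁻¹ : ℂ) • H.pull (θ γ⁻¹) y))
      rw [smul_mul_assoc, mul_smul_comm, map_smul, map_smul, hRneg]
      congr 1
      rw [← tr_pull_iso (θ γ) (θ γ⁻¹) (hσ γ) (hσ' γ) (x * H.pull (θ γ⁻¹) y),
        map_mul (H.pull (θ γ)), ← H.pull_comp, hσ, H.pull_id]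
    apply H.nondeg
    intro b
    have h1 := hw' (P b) (himg b)
    rw [← hadj, hfix w hw, smul_mul_assoc, map_smul, smul_eq_mul] at h1
    exact (mul_eq_zero.1 h1).resolve_left hl0'

end theory

end Pool.Agent.U191.FK
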