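import Pool.Agent.U191.EY.Base

/-!
# Motives of small Hodge level cut out of products of curves: the definitions used in the statements
-/

set_option autoImplicit false

open CategoryTheory AlgebraicGeometry

universe u v w

namespace Pool.Agent.U191.FL

open Pool.Agent.H914 Pool.Agent.H914.VarClass Pool.Agent.H914.VarClass.Obj Pool.Agent.W492.BB
  Pool.Agent.W550.Corr Pool.Agent.TH133 Pool.Agent.U191.EY

/-! ### Rings -/

section ring

variable {M : Type v} [Ring M]

/-- The element is zero. -/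
def Van (x : M) : Prop := x = 0

/-- The multiple `q • x`. -/
def times {F : Type w} [Field F] [Algebra F M] (q : F) (x : M) : M := q • x

/-- The sum of the multiples `a i • f i`. -/
noncomputable def comb {F : Type w} [Field F] [Algebra F M] {ι : Type} (a : ι → F) (f : ι → M) :
    M := ∑ᶠ i, a i • f i

/-- `x` is a linear combination of elements with the property `S`. -/
def InSpan {F : Type w} [Field F] [Algebra F M] (S : M → Prop) (x : M) : Prop :=
  x ∈ Submodule.span F {y | S y}

variable [Algebra ℂ M] (D : HodgeRing M)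

/-- The class `x` has type `(p, q)`. -/
def IsType (p q : ℕ) (x : M) : Prop := x ∈ D.hdg p q

/-- The class `x` is rational. -/
def IsRat (x : M) : Prop := x ∈ D.rat

/-- The variety has Hodge level at most `ℓ` in coniveau less than `c`: `H^{p,q} = 0` if
`|p - q| > ℓ` and `min (p, q) < c`. -/
def HasLevel (ℓ : ℕ) (c : ℕ∞) : Prop :=
  ∀ (p q : ℕ) (x : M), (p + ℓ < q ∨ q + ℓ < p) → (min p q : ℕ) < c → IsType D p q x → Van x

/-- The map `F` is zero on the spaces `H^{p,q}` with `|p - q| > ℓ` and `min (p, q) < c`. -/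
def Kills (ℓ : ℕ) (c : ℕ∞) (F : M → M) : Prop :=
  ∀ (p q : ℕ) (x : M), (p + ℓ < q ∨ q + ℓ < p) → (min p q : ℕ) < c → IsType D p q x → Van (F x)

/-- There is a nonzero class of type `(p, q)` which is fixed by `F`. -/
def HasFixed (F : M → M) (p q : ℕ) : Prop := ∃ x : M, IsType D p q x ∧ ¬ Van x ∧ F x = x

end ring

/-! ### The field of the characters -/

/-- The number field `K` is totally real, or it is a CM field of degree two or four: complex
conjugation acts on `K` (compatibly with all embeddings), and `K` has at most two archimedean places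
or all embeddings are real. -/
structure IsGoodField (K : Type) [Field K] : Prop where
  conj : ∀ x : K, ∃ y : K, ∀ σ : K →+* ℂ, σ y = starRingEnd ℂ (σ x)
  places : (∃ σ₁ σ₂ : K →+* ℂ, ∀ σ : K →+* ℂ,
    σ = σ₁ ∨ σ = (starRingEnd ℂ).comp σ₁ ∨ σ = σ₂ ∨ σ = (starRingEnd ℂ).comp σ₂) ∨
    ∀ σ : K →+* ℂ, (starRingEnd ℂ).comp σ = σ

/-! ### Varieties -/

variable {k : Type u} [Field k] {𝒱 : VarClass k} {C : TheoryData.{u, v, 0} 𝒱 ℚ}

/-- The class of the cycle `z`. -/
noncomputable def cls (H : WeilTheoryData.{u, v, 0} C ℂ) {V : 𝒱.Obj} (z : C.A V) : H.A V := H.cl z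

/-- The action of the correspondence `Γ` on the cohomology. -/
noncomputable def corrAct (H : WeilTheoryData.{u, v, 0} C ℂ) {V W : 𝒱.Obj} (Γ : C.A (V.prod W))
    (x : H.A V) : H.A W := H.act (cls H Γ) x

/-- The class `x` is the class of a cycle of codimension `j`. -/
def IsAlgebraic (H : WeilTheoryData.{u, v, 0} C ℂ) {V : 𝒱.Obj} (j : ℤ) (x : H.A V) : Prop :=
  ∃ z : C.A V, C.Deg j z ∧ cls H z = x

/-- The standard properties of the Hodge decompositions of all varieties: for each variety those of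
`HasTypes` and `HasConj`; correspondences of degree zero preserve the types; the conjugation commutes
with pull-backs, and pull-backs of rational classes are rational; the rational classes of type
`(1, 1)` are classes of divisors (theorem of Lefschetz). -/
structure IsHodgeTheory (H : WeilTheoryData.{u, v, 0} C ℂ) (D : ∀ V : 𝒱.Obj, HodgeRing (H.A V)) :
    Prop where
  types : ∀ V, (D V).HasTypes (H.gr V)
  conj : ∀ V, (D V).HasConj (H.gr V)
  act : ∀ (V W : 𝒱.Obj) (Γ : C.A (V.prod W)) (p q : ℕ) (x : H.A V), C.Deg V.dim Γ →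
    IsType (D V) p q x → IsType (D W) p q (corrAct H Γ x)
  conj_pull : ∀ (V W : 𝒱.Obj) (f : V ⟶ W) (x : H.A W),
    (D V).conj (H.up f x) = H.up f ((D W).conj x)
  rat_pull : ∀ (V W : 𝒱.Obj) (f : V ⟶ W) (x : H.A W), IsRat (D W) x → IsRat (D V) (H.up f x)
  lefschetz : ∀ (V : 𝒱.Obj) (x : H.A V), IsRat (D V) x → IsType (D V) 1 1 x → IsAlgebraic H 1 x

/-- The operator `(χ(1) / |G|) ∑ χ(g) g^*` on the cohomology of the variety `V` on which `G` acts:
the projection to the isotypic part of the irreducible character `χ` (or its dual). -/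
noncomputable def isotypic (H : WeilTheoryData.{u, v, 0} C ℂ) (s : GCurve 𝒱) (χ : s.G → ℂ)
    (x : H.A s.V) : H.A s.V :=
  comb (fun g => χ 1 * χ g / Nat.card s.G) fun g => H.up (s.ρ g) x

/-- For the characters `σ ∘ χ`, where `σ` runs through the embeddings of `K`, the isotypic parts of
`H^1(V) = H^{1,0}(V) ⊕ H^{0,1}(V)` are of the same kind: all are zero, or all contain both types, or
all have exactly one type (which may depend on `σ`). -/
def SameKind (H : WeilTheoryData.{u, v, 0} C ℂ) (D : ∀ V : 𝒱.Obj, HodgeRing (H.A V))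
    (s : GCurve 𝒱) {K : Type} [Field K] (χ : s.G → K) : Prop :=
  ∀ σ τ : K →+* ℂ, ∀ F F' : H.A s.V → H.A s.V, F = isotypic H s (fun g => σ (χ g)) →
    F' = isotypic H s (fun g => τ (χ g)) →
    (HasFixed (D s.V) F 1 0 ∨ HasFixed (D s.V) F 0 1 →
      HasFixed (D s.V) F' 1 0 ∨ HasFixed (D s.V) F' 0 1) ∧
    (HasFixed (D s.V) F 1 0 ∧ HasFixed (D s.V) F 0 1 →
      HasFixed (D s.V) F' 1 0 ∧ HasFixed (D s.V) F' 0 1)

/-- All irreducible characters of the group `G` of the curve have values in the field `K`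
(embedded by some `σ₀`), and `K` has only one archimedean place (`K` is `ℚ` or imaginary quadratic)
or the characters satisfy `SameKind`. -/
def HasCharactersInField (H : WeilTheoryData.{u, v, 0} C ℂ) (D : ∀ V : 𝒱.Obj, HodgeRing (H.A V))
    (K : Type) [Field K] (s : GCurve 𝒱) : Prop :=
  ∃ (Φ : Type) (_ : Fintype Φ) (n : Φ → ℕ)
    (ρ : ∀ φ, s.G →* Matrix (Fin (n φ)) (Fin (n φ)) ℂ) (σ₀ : K →+* ℂ) (χ : Φ → s.G → K),
    IsComplete ρ ∧ (∀ φ g, σ₀ (χ φ g) = (ρ φ g).trace) ∧
      ((∀ σ τ : K →+* ℂ, τ = σ ∨ τ = (starRingEnd ℂ).comp σ) ∨ ∀ φ, SameKind H D s (χ φ))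

/-- The members of the list are curves `C_i` with actions of finite groups `G_i`, and all irreducible
characters of the groups `G_i` have values in one good number field `K`. -/
def AreGood (H : WeilTheoryData.{u, v, 0} C ℂ) (D : ∀ V : 𝒱.Obj, HodgeRing (H.A V))
    (L : List (GCurve 𝒱)) : Prop :=
  ∃ (K : Type) (_ : Field K) (_ : NumberField K), IsGoodField K ∧
    ∀ c ∈ L, c.IsAction ∧ HasCharactersInField H D K c

section corr

variable (C : TheoryData.{u, v, 0} 𝒱 ℚ) {X Y Z : 𝒱.Obj}

/-- The graph of the morphism `f`. -/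
noncomputable def gph (f : X ⟶ Y) : C.A (X.prod Y) := C.down (Obj.lift (𝟙 X) f) 1

/-- The transpose of the graph of the morphism `f`. -/
noncomputable def tgph (f : X ⟶ Y) : C.A (Y.prod X) := C.down (Obj.lift f (𝟙 X)) 1

/-- The composition `X → Y → Z` of correspondences. -/
noncomputable def compo (Γ : C.A (X.prod Y)) (Δ : C.A (Y.prod Z)) : C.A (X.prod Z) :=
  C.down (prodMap (fst X Y) (𝟙 Z))
    (C.mul (C.up (prodMap (snd X Y) (𝟙 Z)) Δ) (C.up (fst (X.prod Y) Z) Γ))

/-- The `n`-th power of the correspondence `z` with respect to composition. -/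
noncomputable def power (z : C.A (X.prod X)) : ℕ → C.A (X.prod X)
  | 0 => gph C (𝟙 X)
  | n + 1 => compo C (power z n) z

end corr

/-- `W` is a product of at most `ℓ` curves (and a variety of dimension zero). -/
def IsShortProduct (ℓ : ℕ∞) (W : 𝒱.Obj) : Prop :=
  ∃ (B : 𝒱.Obj) (L : List (GCurve 𝒱)), B.dim = 0 ∧ (L.length : ℕ∞) ≤ ℓ ∧
    (∀ c ∈ L, c.V.dim = 1) ∧ W = prodL B L

/-- **Kimura's theorem** for products of curves `W`: a correspondence of degree zero from `W` to `W`
which acts as zero on the cohomology is nilpotent. -/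
def KimuraTheorem (H : WeilTheoryData.{u, v, 0} C ℂ) : Prop :=
  ∀ (W : 𝒱.Obj) (z : C.A (W.prod W)), IsShortProduct ⊤ W → C.Deg W.dim z →
    (∀ x : H.A W, Van (corrAct H z x)) → ∃ n, Van (power C z n)

/-- The operator `a_* = ∑ a(γ) γ_*` on the cohomology of the product. -/
noncomputable def groupAct (H : WeilTheoryData.{u, v, 0} C ℂ) (B : 𝒱.Obj) (L : List (GCurve 𝒱))
    (a : Grp L → ℚ) (x : H.A (prodL B L)) : H.A (prodL B L) :=
  comb (fun γ => (a γ : ℂ)) fun γ => H.down (mapL B L γ) x

/-- The correspondence `∑ a(γ) [γ]`, the sum of the multiples of the graphs of the automorphisms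
`γ` of the product. -/
noncomputable def groupCorr (C : TheoryData.{u, v, 0} 𝒱 ℚ) (B : 𝒱.Obj) (L : List (GCurve 𝒱))
    (a : Grp L → ℚ) : C.A ((prodL B L).prod (prodL B L)) :=
  comb a fun γ => gph C (mapL B L γ)

/-- The motive of `Y` is the direct summand of the motive of `X` which is cut out by the
correspondence `e`: there are correspondences `α` from `X` to `Y` and `β` from `Y` to `X` of degree
zero such that the composition `Y → X → Y` is the diagonal and the composition `X → Y → X` is `e`. -/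
structure CutsOut (C : TheoryData.{u, v, 0} 𝒱 ℚ) {X Y : 𝒱.Obj} (e : C.A (X.prod X))
    (α : C.A (X.prod Y)) (β : C.A (Y.prod X)) : Prop where
  deg_left : C.Deg X.dim α
  deg_right : C.Deg Y.dim β
  diag : compo C β α = gph C (𝟙 Y)
  corr : compo C α β = e

/-- The morphism `f : X ⟶ Y` of varieties of the same dimension is the quotient of the product
`X = C_1 × ⋯ × C_n × B` by the (nonempty) subset `S` of `G_1 × ⋯ × G_n`, for instance a subgroup:
as correspondences `f_* f^* = |S|` and `f^* f_* = ∑_{γ ∈ S} γ_*`. -/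
structure IsQuotient (C : TheoryData.{u, v, 0} 𝒱 ℚ) (B : 𝒱.Obj) (L : List (GCurve 𝒱))
    (S : Set (Grp L)) (Y : 𝒱.Obj) (f : prodL B L ⟶ Y) : Prop where
  nonempty : S.Nonempty
  dim_eq : Y.dim = (prodL B L).dim
  diag : compo C (tgph C f) (gph C f) = times (Nat.card S : ℚ) (gph C (𝟙 Y))
  corr : compo C (gph C f) (tgph C f) = groupCorr C B L (S.indicator 1)

/-- `Y` is a direct summand of the product `X = C_1 × ⋯ × C_n × B` cut out by an element of the
rational group algebra of `G_1 × ⋯ × G_n`, or a quotient of `X` by a subset (for instance a subgroup)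
of `G_1 × ⋯ × G_n`. -/
inductive IsCut (C : TheoryData.{u, v, 0} 𝒱 ℚ) (B : 𝒱.Obj) (L : List (GCurve 𝒱)) : 𝒱.Obj → Prop
  | summand (Y : 𝒱.Obj) (a : Grp L → ℚ) (α : C.A ((prodL B L).prod Y))
      (β : C.A (Y.prod (prodL B L))) : CutsOut C (groupCorr C B L a) α β → IsCut C B L Y
  | quotient (Y : 𝒱.Obj) (S : Set (Grp L)) (f : prodL B L ⟶ Y) :
      IsQuotient C B L S Y f → IsCut C B L Y

/-- The pairs `(V, e)` of Hodge level at most `ℓ`, for products `X = C_1 × ⋯ × C_n × B` (`B` of
dimension zero) of curves with good groups `G_i` (`AreGood`):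

* `V = X` and `e = ∑ a(γ) [γ]`, where `a` is an element of the rational group algebra of
  `G_1 × ⋯ × G_n` which acts as zero on the spaces `H^{p,q}(X)` with `|p - q| > ℓ`;
* `V = Y` is cut out of `X` (for instance a quotient), `Y` has Hodge level at most `ℓ`, and `e` is
  the diagonal. -/
inductive IsLevelPair (H : WeilTheoryData.{u, v, 0} C ℂ) (D : ∀ V : 𝒱.Obj, HodgeRing (H.A V))
    (ℓ : ℕ) : ∀ V : 𝒱.Obj, C.A (V.prod V) → Prop
  | element (B : 𝒱.Obj) (L : List (GCurve 𝒱)) (a : Grp L → ℚ) : B.dim = 0 → AreGood H D L →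
      Kills (D (prodL B L)) ℓ ⊤ (groupAct H B L a) →
      IsLevelPair H D ℓ (prodL B L) (groupCorr C B L a)
  | variety (B : 𝒱.Obj) (L : List (GCurve 𝒱)) (Y : 𝒱.Obj) : B.dim = 0 → AreGood H D L →
      IsCut C B L Y → HasLevel (D Y) ℓ ⊤ → IsLevelPair H D ℓ Y (gph C (𝟙 Y))

/-- The correspondence `p` from `M` to `M` is a linear combination of compositions
`M → V → V → M` of homogeneous correspondences `α`, `e`, `β`, where `(V, e)` is a pair of Hodge level
at most `ℓ`, and `α` lowers the codimensions by some integer `n` (positive or not) and `β` raises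
them by `n`. If `p` is a projector, this says that the motive `(M, p)` is a direct summand of a
finite sum of twists of motives of level at most `ℓ`; if `p` is the diagonal, that `M` is built from
such motives. -/
def IsBuiltOfLevel (H : WeilTheoryData.{u, v, 0} C ℂ) (D : ∀ V : 𝒱.Obj, HodgeRing (H.A V))
    (ℓ : ℕ) {M : 𝒱.Obj} (p : C.A (M.prod M)) : Prop :=
  InSpan (F := ℚ) (fun z => ∃ (V : 𝒱.Obj) (e : C.A (V.prod V)) (n : ℤ) (α : C.A (M.prod V))
    (β : C.A (V.prod M)), IsLevelPair H D ℓ V e ∧ C.Deg ((M.dim : ℤ) - n) α ∧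
      C.Deg ((V.dim : ℤ) + n) β ∧ z = compo C (compo C α e) β) p

end Pool.Agent.U191.FL
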