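import Pool.Agent.U191.FK.SmCyc

/-!
# Abel-Jacobi maps: definitions
-/

set_option autoImplicit false

open CategoryTheory AlgebraicGeometry

universe u v

namespace Pool.Agent.U191.FL

open Pool.Agent.H914 Pool.Agent.H914.VarClass Pool.Agent.H914.VarClass.Obj Pool.Agent.W492.BB
  Pool.Agent.TH133 Pool.Agent.U191.EY

variable {k : Type u} [Field k] {𝒱 : VarClass k} {C : TheoryData.{u, v, 0} 𝒱 ℚ}
  (H : WeilTheoryData.{u, v, 0} C ℂ)

/-- The rational Abel-Jacobi maps `Φ_m : CH^m(X)_hom → J^m(X) ⊗ ℚ` (the restrictions to `CH^m(X)_hom`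
of the functions `aj`) with their known properties: they are additive; correspondences act on the
intermediate Jacobians compatibly with the Abel-Jacobi maps; and the Abel-Jacobi map is injective on
the divisor classes of degree zero on curves (theorem of Abel). -/
structure AbelJacobiMaps where
  /-- the group `J^m(X) ⊗ ℚ` -/
  J : 𝒱.Obj → ℤ → Type v
  [grp : ∀ X m, AddCommGroup (J X m)]
  /-- the Abel-Jacobi map -/
  aj : ∀ (X : 𝒱.Obj) (m : ℤ), C.A X → J X m
  add : ∀ (X : 𝒱.Obj) (m : ℤ) (y z : C.A X), IsHomTrivial H m y → IsHomTrivial H m z →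
    aj X m (y + z) = aj X m y + aj X m z
  functorial : ∀ (X Y : 𝒱.Obj) (m r : ℤ) (Γ : C.A (X.prod Y)), C.Deg r Γ →
    ∃ φ : J X m →+ J Y (m + r - X.dim), ∀ z : C.A X, IsHomTrivial H m z →
      aj Y (m + r - X.dim) (C.act Γ z) = φ (aj X m z)
  abel : ∀ (T : 𝒱.Obj) (z : C.A T), T.dim = 1 → IsHomTrivial H 1 z → aj T 1 z = 0 → Van z

attribute [instance] AbelJacobiMaps.grp

variable {H}

/-- The rational Abel-Jacobi map is injective on `CH^m(X)_hom`: its kernel is zero. -/
def AJInjective (A : AbelJacobiMaps H) (X : 𝒱.Obj) (m : ℤ) : Prop :=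
  ∀ z : C.A X, IsHomTrivial H m z → A.aj X m z = 0 → Van z

end Pool.Agent.U191.FL
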