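import Pool.Agent.U191.FK.Sm

/-!
# Homologically trivial cycles: definitions
-/

set_option autoImplicit false

open CategoryTheory AlgebraicGeometry

universe u v

namespace Pool.Agent.U191.FL

open Pool.Agent.H914 Pool.Agent.H914.VarClass Pool.Agent.H914.VarClass.Obj Pool.Agent.W492.BB
  Pool.Agent.TH133 Pool.Agent.U191.EY

variable {k : Type u} [Field k] {𝒱 : VarClass k} {C : TheoryData.{u, v, 0} 𝒱 ℚ}
  (H : WeilTheoryData.{u, v, 0} C ℂ)

/-- The class `z` lies in `CH^m(X)_hom`. -/
def IsHomTrivial {X : 𝒱.Obj} (m : ℤ) (z : C.A X) : Prop := C.Deg m z ∧ Van (cls H z)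

/-- The functoriality of the Abel-Jacobi map together with the theorem of Abel: let `Γ` be a
correspondence from `X` to a curve `T` which maps `CH^m(X)` to `CH^1(T)` and acts as zero on
`H^(2m-1)(X)`. Then `Γ` acts as zero on `CH^m(X)_hom` (with rational coefficients). -/
def AbelTheorem : Prop :=
  ∀ (X T : 𝒱.Obj) (m : ℤ) (Γ : C.A (X.prod T)) (z : C.A X), T.dim = 1 →
    C.Deg (X.dim + 1 - m) Γ → (∀ x : H.A X, H.Deg (2 * m - 1) x → Van (corrAct H Γ x)) →
      IsHomTrivial H m z → Van (C.act Γ z)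

/-- If `H^(2m-1)(X) = 0` then all homologically trivial classes in `CH^m(X)` are zero (with rational
coefficients). -/
def HomVanishing (X : 𝒱.Obj) (m : ℤ) : Prop :=
  (∀ x : H.A X, H.Deg (2 * m - 1) x → Van x) → ∀ z : C.A X, IsHomTrivial H m z → Van z

end Pool.Agent.U191.FL
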