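import Pool.Agent.U191.FK.SmMu

/-!
# Hard Lefschetz for homologically trivial cycles: definitions
-/

set_option autoImplicit false

open CategoryTheory AlgebraicGeometry

universe u v

namespace Pool.Agent.U191.FL

open Pool.Agent.H914 Pool.Agent.H914.VarClass Pool.Agent.H914.VarClass.Obj Pool.Agent.W492.BB
  Pool.Agent.TH133 Pool.Agent.U191.EY

/-- The product `d ^ r * x`. -/
def lef {M : Type v} [Ring M] (d : M) (r : ℕ) (x : M) : M := d ^ r * x

variable {k : Type u} [Field k] {𝒱 : VarClass k} {C : TheoryData.{u, v, 0} 𝒱 ℚ}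
  (H : WeilTheoryData.{u, v, 0} C ℂ)

/-- The divisor class `d` on `X`, `n = dim X`, satisfies hard Lefschetz, as the classes of ample
divisors do: for all `r ≤ n` the multiplication by `d ^ r` maps `H^(n - r)(X)` bijectively to
`H^(n + r)(X)`. -/
structure IsLefschetzClass {X : 𝒱.Obj} (d : C.A X) : Prop where
  deg : C.Deg 1 d
  inj : ∀ (r : ℕ) (x : H.A X), r ≤ X.dim → H.Deg (X.dim - r) x → Van (lef (cls H d) r x) → Van x
  surj : ∀ (r : ℕ) (y : H.A X), r ≤ X.dim → H.Deg (X.dim + r) y →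
    ∃ x : H.A X, H.Deg (X.dim - r) x ∧ lef (cls H d) r x = y

/-- **The theorem of Lieberman and Kleiman** (the standard conjecture of Lefschetz type for varieties
built from products of curves): the inverse of `d ^ r : H^(n - r)(X) → H^(n + r)(X)` is induced by a
correspondence. -/
def LefschetzStandard : Prop :=
  ∀ (X : 𝒱.Obj) (d : C.A X) (r : ℕ), IsBuiltFromCurves C Set.univ X → IsLefschetzClass H d →
    r ≤ X.dim → ∃ Λ : C.A (X.prod X), C.Deg ((X.dim : ℤ) - r) Λ ∧
      ∀ x : H.A X, H.Deg (X.dim - r) x → corrAct H Λ (lef (cls H d) r x) = x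

/-- The multiplication by `d ^ (n + 1 - 2 i)`, `n = dim X`, is injective on `CH^i(X)^0`. -/
def LefschetzInjective {X : 𝒱.Obj} (d : C.A X) (i : ℕ) : Prop :=
  ∀ z : C.A X, IsHomTrivial H i z → Van (lef d (X.dim + 1 - 2 * i) z) → Van z

/-- The multiplication by `d ^ (n + 1 - 2 i)`, `n = dim X`, maps `CH^i(X)^0` onto
`CH^(n + 1 - i)(X)^0`. -/
def LefschetzSurjective {X : 𝒱.Obj} (d : C.A X) (i : ℕ) : Prop :=
  ∀ y : C.A X, IsHomTrivial H (X.dim + 1 - i) y →
    ∃ z : C.A X, IsHomTrivial H i z ∧ lef d (X.dim + 1 - 2 * i) z = y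

end Pool.Agent.U191.FL
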