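import Pool.Agent.U191.FK.SmCyc

/-!
# Algebraically trivial cycles and cycles with orthogonal lifts: definitions
-/

set_option autoImplicit false

open CategoryTheory AlgebraicGeometry

universe u v

namespace Pool.Agent.U191.FL

open Pool.Agent.H914 Pool.Agent.H914.VarClass Pool.Agent.H914.VarClass.Obj Pool.Agent.W492.BB
  Pool.Agent.TH133 Pool.Agent.U191.EY

variable {k : Type u} [Field k] {𝒱 : VarClass k} {C : TheoryData.{u, v, 0} 𝒱 ℚ}
  (H : WeilTheoryData.{u, v, 0} C ℂ)

/-- The class `z` of codimension `m` on `X` is algebraically trivial (with rational coefficients): it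
is a linear combination of classes `Γ_* a`, where `a` is a divisor class of degree zero on a curve `T`
and `Γ` is a class of codimension `m` on `T × X` (a family of cycles on `X` parametrized by `T`). -/
def IsAlgTrivial {X : 𝒱.Obj} (m : ℤ) (z : C.A X) : Prop :=
  InSpan (F := ℚ) (fun z => ∃ (T : 𝒱.Obj) (Γ : C.A (T.prod X)) (a : C.A T), T.dim = 1 ∧
    IsHomTrivial H 1 a ∧ C.Deg m Γ ∧ z = C.act Γ a) z

/-- **Classical facts** on algebraic equivalence: zero-cycles of degree zero on products of curves are
algebraically trivial, and so are homologically trivial divisors on products of at most two curves. -/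
structure ClassicalFacts : Prop where
  points : ∀ (W : 𝒱.Obj) (z : C.A W), IsShortProduct ⊤ W → IsHomTrivial H W.dim z →
    IsAlgTrivial H W.dim z
  divisors : ∀ (W : 𝒱.Obj) (z : C.A W), IsShortProduct 2 W → IsHomTrivial H 1 z →
    IsAlgTrivial H 1 z

/-- The known properties of the homologically trivial classes `z` of codimension `m` which have
orthogonal lifts (`L X m z`): they form subspaces; they are stable under correspondences; and the
divisor classes of degree zero on curves have orthogonal lifts. -/
structure LiftTheory (L : ∀ X : 𝒱.Obj, ℤ → C.A X → Prop) : Prop where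
  zero : ∀ (X : 𝒱.Obj) (m : ℤ), L X m 0
  add : ∀ (X : 𝒱.Obj) (m : ℤ) (y z : C.A X), L X m y → L X m z → L X m (y + z)
  times : ∀ (X : 𝒱.Obj) (m : ℤ) (q : ℚ) (z : C.A X), L X m z → L X m (times q z)
  act : ∀ (X Y : 𝒱.Obj) (m r : ℤ) (Γ : C.A (X.prod Y)) (z : C.A X), C.Deg r Γ → L X m z →
    L Y (m + r - X.dim) (C.act Γ z)
  curve : ∀ (T : 𝒱.Obj) (a : C.A T), T.dim = 1 → IsHomTrivial H 1 a → L T 1 a

end Pool.Agent.U191.FL
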