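import Pool.Agent.U191.FK.SmCyc

/-!
# Chow-Kunneth decompositions of varieties and Murre's conjecture (B): definitions
-/

set_option autoImplicit false

open CategoryTheory AlgebraicGeometry

universe u v

namespace Pool.Agent.U191.FL

open Pool.Agent.H914 Pool.Agent.H914.VarClass Pool.Agent.H914.VarClass.Obj Pool.Agent.W492.BB
  Pool.Agent.TH133 Pool.Agent.U191.EY

variable {k : Type u} [Field k] {𝒱 : VarClass k} {C : TheoryData.{u, v, 0} 𝒱 ℚ}
  (H : WeilTheoryData.{u, v, 0} C ℂ)

/-- A Chow-Kunneth decomposition of `X`: self-correspondences `π 0, …, π (2 dim X)` of degree zero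
(`π i = 0` for `i > 2 dim X`) which are mutually orthogonal idempotents with sum the diagonal, and
such that `π i` acts as the identity on `H^i(X)` and as zero on `H^m(X)` for `m ≠ i`. -/
structure IsChowKunneth {X : 𝒱.Obj} (π : ℕ → C.A (X.prod X)) : Prop where
  deg : ∀ i, C.Deg X.dim (π i)
  out : ∀ i, 2 * X.dim < i → Van (π i)
  idem : ∀ i, compo C (π i) (π i) = π i
  orth : ∀ i j, i ≠ j → Van (compo C (π i) (π j))
  sum : comb (fun _ : ℕ => (1 : ℚ)) π = gph C (𝟙 X)
  act_self : ∀ (i : ℕ) (x : H.A X), H.Deg i x → corrAct H (π i) x = x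
  act_ne : ∀ (i : ℕ) (m : ℤ) (x : H.A X), m ≠ i → H.Deg m x → Van (corrAct H (π i) x)

/-- The class `z` lies in the step `F^n CH^j(X) = (π_{2 j - n} + ⋯ + π_0)_* CH^j(X)` of the filtration
attached to the Chow-Kunneth decomposition `π`. -/
def InStep (C : TheoryData.{u, v, 0} 𝒱 ℚ) {X : 𝒱.Obj} (π : ℕ → C.A (X.prod X)) (j n : ℕ)
    (z : C.A X) : Prop :=
  ∃ y : C.A X, C.Deg j y ∧
    z = C.act (comb (fun i : ℕ => if i + n ≤ 2 * j then (1 : ℚ) else 0) π) y

/-- The first half of Murre's conjecture (B) in codimension `j`: `F^0 CH^j(X) = CH^j(X)`. -/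
def FirstHalf (C : TheoryData.{u, v, 0} 𝒱 ℚ) {X : 𝒱.Obj} (π : ℕ → C.A (X.prod X)) (j : ℕ) : Prop :=
  ∀ z : C.A X, C.Deg j z → InStep C π j 0 z

/-- The second half of Murre's conjecture (B) in codimension `j`: `F^(j + 1) CH^j(X) = 0`. -/
def SecondHalf (C : TheoryData.{u, v, 0} 𝒱 ℚ) {X : 𝒱.Obj} (π : ℕ → C.A (X.prod X)) (j : ℕ) : Prop :=
  ∀ z : C.A X, InStep C π j (j + 1) z → Van z

/-- `Z` is built from products of curves with twists in `S`: the diagonal is a linear combination of
compositions `Z → W → Z` of homogeneous correspondences `α` and `β`, where `W` is a product of curves,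
and `α` lowers the codimensions by some integer `n` in `S` and `β` raises them by `n`. -/
def IsBuiltFromCurves (C : TheoryData.{u, v, 0} 𝒱 ℚ) (S : Set ℤ) (Z : 𝒱.Obj) : Prop :=
  InSpan (F := ℚ) (fun z => ∃ (W : 𝒱.Obj) (n : ℤ) (α : C.A (Z.prod W)) (β : C.A (W.prod Z)),
    n ∈ S ∧ IsShortProduct ⊤ W ∧ C.Deg ((Z.dim : ℤ) - n) α ∧ C.Deg ((W.dim : ℤ) + n) β ∧
      z = compo C α β) (gph C (𝟙 Z))

/-- **Kimura's theorem** for varieties `Z` built from products of curves: a correspondence of degree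
zero from `Z` to `Z` which acts as zero on the cohomology is nilpotent. -/
def KimuraNilpotence : Prop :=
  ∀ (Z : 𝒱.Obj) (z : C.A (Z.prod Z)), IsBuiltFromCurves C Set.univ Z → C.Deg Z.dim z →
    (∀ x : H.A Z, Van (corrAct H z x)) → ∃ n, Van (power C z n)

/-- **The classical fact on divisors**: self-correspondences of degree zero which act as zero on
`H^1(X)` act as zero on the homologically trivial divisor classes. -/
def PicardTheorem : Prop :=
  ∀ (X : 𝒱.Obj) (Γ : C.A (X.prod X)) (z : C.A X), C.Deg X.dim Γ →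
    (∀ x : H.A X, H.Deg 1 x → Van (corrAct H Γ x)) → IsHomTrivial H 1 z → Van (C.act Γ z)

end Pool.Agent.U191.FL
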