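import Pool.Agent.U191.FK.Sm

/-!
# Chow-Kunneth decompositions and Murre's conjectures for motives: definitions
-/

set_option autoImplicit false

open CategoryTheory AlgebraicGeometry

universe u v

namespace Pool.Agent.U191.FL

open Pool.Agent.H914 Pool.Agent.H914.VarClass Pool.Agent.H914.VarClass.Obj Pool.Agent.W492.BB
  Pool.Agent.TH133 Pool.Agent.U191.EY

/-- The sum. -/
def plus {M : Type v} [Ring M] (x y : M) : M := x + y

variable {k : Type u} [Field k] {𝒱 : VarClass k} {C : TheoryData.{u, v, 0} 𝒱 ℚ}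

/-- The fundamental class. -/
noncomputable def fund (C : TheoryData.{u, v, 0} 𝒱 ℚ) (X : 𝒱.Obj) : C.A X := 1

/-- The external product `a × b`. -/
noncomputable def extp (C : TheoryData.{u, v, 0} 𝒱 ℚ) {X Y : 𝒱.Obj} (a : C.A X) (b : C.A Y) :
    C.A (X.prod Y) := C.mul (C.up (fst X Y) a) (C.up (snd X Y) b)

variable (H : WeilTheoryData.{u, v, 0} C ℂ)

/-- A Chow-Kunneth decomposition of the motive `M = (X, p, n)`: a decomposition of `M` into a finite
direct sum of motives `M_i = (X, π i, n)`, `i ∈ ℤ`, with `H_*(M_i) = H_i(M)`. Here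
`H_i(M) = p_* H_(i - 2 n)(X)` and `H_j(X) = H^(2 dim X - j)(X)`. -/
structure IsCKDecomposition {X : 𝒱.Obj} (p : C.A (X.prod X)) (n : ℤ) (π : ℤ → C.A (X.prod X)) :
    Prop where
  finite : {i | ¬ Van (π i)}.Finite
  deg : ∀ i, C.Deg X.dim (π i)
  idem : ∀ i, compo C (π i) (π i) = π i
  orth : ∀ i j, i ≠ j → Van (compo C (π i) (π j))
  sum : comb (fun _ : ℤ => (1 : ℚ)) π = p
  act_self : ∀ (i : ℤ) (a : H.A X), H.Deg (2 * X.dim - (i - 2 * n)) a →
    corrAct H (π i) a = corrAct H p a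
  act_ne : ∀ (i m : ℤ) (a : H.A X), m ≠ 2 * X.dim - (i - 2 * n) → H.Deg m a →
    Van (corrAct H (π i) a)

/-- Murre's condition (B) for the decomposition `M = ⊕ M_i`, `M_i = (X, π i, n)`:
`CH_l(M_i) = (π i)_* CH_(l - n)(X)` is zero for `i < 2 l`. -/
def MurreB (C : TheoryData.{u, v, 0} 𝒱 ℚ) {X : 𝒱.Obj} (n : ℤ) (π : ℤ → C.A (X.prod X)) : Prop :=
  ∀ (l i : ℤ) (z : C.A X), i < 2 * l → C.Deg (X.dim - (l - n)) z → Van (C.act (π i) z)

/-- Murre's condition (D) for the decomposition `M = ⊕ M_i`, `M_i = (X, π i, n)`: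
`CH_l(M_(2 l))_hom = (π (2 l))_* (CH_(l - n)(X)_hom)` is zero for all `l`. -/
def MurreD {X : 𝒱.Obj} (n : ℤ) (π : ℤ → C.A (X.prod X)) : Prop :=
  ∀ (l : ℤ) (z : C.A X), C.Deg (X.dim - (l - n)) z → Van (cls H z) →
    Van (C.act (π (2 * l)) z)

/-- A Chow-Kunneth decomposition of the surface `S` of the kind constructed by Murre: `π 0` and `π 4`
are `x × S` and `S × x'` for zero-cycles `x`, `x'`, and `h^1(S) = (S, π 1)` and `h^3(S) = (S, π 3)`
are direct summands of `h(T)` and `h(T')(-1)` for curves `T` and `T'`. -/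
structure IsMurreSurface (S : 𝒱.Obj) (π : ℤ → C.A (S.prod S)) : Prop where
  dim : S.dim = 2
  ck : IsCKDecomposition H (gph C (𝟙 S)) 0 π
  range : ∀ i, i < 0 ∨ 4 < i → Van (π i)
  four : ∃ x : C.A S, C.Deg 2 x ∧ π 4 = extp C x (fund C S)
  zero : ∃ x : C.A S, C.Deg 2 x ∧ π 0 = extp C (fund C S) x
  three : ∃ (T : 𝒱.Obj) (α : C.A (S.prod T)) (β : C.A (T.prod S)), T.dim = 1 ∧ C.Deg 2 α ∧
    C.Deg 1 β ∧ π 3 = compo C α β
  one : ∃ (T : 𝒱.Obj) (α : C.A (S.prod T)) (β : C.A (T.prod S)), T.dim = 1 ∧ C.Deg 1 α ∧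
    C.Deg 2 β ∧ π 1 = compo C α β

/-- The known properties of divisors and of surfaces which are used:

* a homologically trivial divisor class on a product `X × Y` is the sum of the pull-backs of divisor
  classes on `X` and on `Y` (with rational coefficients);
* every surface has a Chow-Kunneth decomposition of Murre's kind, with `π 2` acting as zero on the
  homologically trivial divisor classes. -/
structure SurfaceFacts : Prop where
  divisors : ∀ (X Y : 𝒱.Obj) (D : C.A (X.prod Y)), C.Deg 1 D → Van (cls H D) →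
    ∃ (a : C.A X) (b : C.A Y), C.Deg 1 a ∧ C.Deg 1 b ∧
      D = plus (extp C a (fund C Y)) (extp C (fund C X) b)
  murre : ∀ S : 𝒱.Obj, S.dim = 2 → ∃ π : ℤ → C.A (S.prod S), IsMurreSurface H S π ∧
    ∀ x : C.A S, C.Deg 1 x → Van (cls H x) → Van (C.act (π 2) x)

end Pool.Agent.U191.FL
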