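import Pool.Agent.U191.FK.SmAJ

/-!
# Varieties over number fields: definitions
-/

open CategoryTheory

universe u v

namespace Pool.Agent.U191.FL

open Pool.Agent.H914 Pool.Agent.W492.BB Pool.Agent.U191.EY

variable {k : Type u} [Field k] {𝒱 : VarClass k} {C : TheoryData.{u, v, 0} 𝒱 ℚ}

/-- Families of subsets of `CH^m(V) ⊗ ℚ` for all `m`. -/
def Fam (C : TheoryData.{u, v, 0} 𝒱 ℚ) (V : 𝒱.Obj) : Type v := ℤ → C.A V → Prop

/-- For each variety `V` a set of families of subsets. -/
def Forms (C : TheoryData.{u, v, 0} 𝒱 ℚ) : Type (max (u + 1) v) :=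
  ∀ V : 𝒱.Obj, Fam C V → Prop

/-- Let `k` be the field of algebraic numbers, `X` a smooth projective variety over a number field
together with an isomorphism of the base change of `X` to `k` with `V`. The base change
`CH^m(X) ⊗ ℚ → CH^m(V) ⊗ ℚ` is injective (transfer), and `X` is represented by the family of the images
of these maps for all `m`. Let `F V` be the set of all `X` for given `V`. Known properties: all
varieties and cycles over `k` are defined over number fields; and, given `X` and a correspondence `Γ`
from `V` to `W`, there is a form `Y` of `W` over a finite extension of the field of `X` such that `Γ` is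
defined over the field of `Y`, and so maps the cycles of `X` to cycles of `Y`. -/
def IsFormsTheory (F : Forms C) : Prop :=
  (∀ (V : 𝒱.Obj) (m : ℤ) (z : C.A V), C.Deg m z → ∃ X, F V X ∧ X m z) ∧
    ∀ (V W : 𝒱.Obj) (X : Fam C V) (r : ℤ) (Γ : C.A (V.prod W)), F V X → C.Deg r Γ →
      ∃ Y, F W Y ∧ ∀ (m : ℤ) (z : C.A V), X m z → Y (m + r - V.dim) (C.act Γ z)

variable (H : WeilTheoryData.{u, v, 0} C ℂ)

/-- The Abel-Jacobi map `AJ^m` of the variety `X` over a number field (the Abel-Jacobi map over the
complex numbers composed with the base change of cycles) is injective on `CH^m_hom(X) ⊗ ℚ`. -/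
def AJInjectiveNF {H : WeilTheoryData.{u, v, 0} C ℂ} (A : AbelJacobiMaps H) (V : 𝒱.Obj)
    (X : Fam C V) (m : ℤ) : Prop :=
  ∀ z : C.A V, X m z → IsHomTrivial H m z → A.aj V m z = 0 → Van z

/-- `CH^m_hom(X) ⊗ ℚ` has finite dimension: the homologically trivial classes are linear
combinations of finitely many classes. -/
def FiniteRank (V : 𝒱.Obj) (X : Fam C V) (m : ℤ) : Prop :=
  ∃ s : Finset (C.A V), ∀ z : C.A V, X m z → IsHomTrivial H m z → InSpan (F := ℚ) (· ∈ s) z

/-- The theorem of Mordell and Weil for the Jacobians of curves over number fields. -/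
def MordellWeil (F : Forms C) : Prop :=
  ∀ (T : 𝒱.Obj) (X : Fam C T), T.dim = 1 → F T X → FiniteRank H T X 1

/-- The property `Q` holds for the varieties over number fields which become products of at most `ℓ`
curves over the algebraic numbers. -/
def ForProducts (F : Forms C) (ℓ : ℕ) (Q : ∀ V : 𝒱.Obj, Fam C V → ℤ → Prop) : Prop :=
  ∀ (W : 𝒱.Obj) (X : Fam C W) (m : ℤ), IsShortProduct ℓ W → F W X → Q W X m

/-- (1) The property `Q` holds in all codimensions `m` for all varieties `X` over number fields such
that the motive of `X` over the algebraic numbers is built from motives of level at most `ℓ`.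

(2) Let `Y` be a quotient of a product of curves, or a direct summand of the same dimension, which is
cut out by an element of the group algebra, such that `H^{p,q}(Y) = 0` if `|p - q| > ℓ` and
`min (p, q) < c`. The property `Q` holds for the varieties over number fields which become `Y` over the
algebraic numbers and for the cycles of dimension less than `c`. -/
def ForBuilt (D : ∀ V : 𝒱.Obj, HodgeRing (H.A V)) (F : Forms C) (ℓ : ℕ)
    (Q : ∀ V : 𝒱.Obj, Fam C V → ℤ → Prop) : Prop :=
  (∀ (Z : 𝒱.Obj) (X : Fam C Z) (m : ℤ), IsBuiltOfLevel H D ℓ (gph C (𝟙 Z)) → F Z X → Q Z X m) ∧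
    ∀ (B : 𝒱.Obj) (L : List (GCurve 𝒱)) (Y : 𝒱.Obj) (X : Fam C Y) (c : ℕ) (m : ℤ), B.dim = 0 →
      AreGood H D L → IsCut C B L Y → Y.dim = (prodL B L).dim → HasLevel (D Y) ℓ c →
        (Y.dim : ℤ) < m + c → F Y X → Q Y X m

end Pool.Agent.U191.FL
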