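import Pool.Agent.U191.FK.SmCyc

/-!
# Smash-nilpotent cycles: definitions
-/

set_option autoImplicit false

open CategoryTheory AlgebraicGeometry

universe u v

namespace Pool.Agent.U191.FL

open Pool.Agent.H914 Pool.Agent.H914.VarClass Pool.Agent.H914.VarClass.Obj Pool.Agent.W492.BB
  Pool.Agent.TH133 Pool.Agent.U191.EY

variable {k : Type u} [Field k] {𝒱 : VarClass k} {C : TheoryData.{u, v, 0} 𝒱 ℚ}

/-- The power `X^(m+1) = X × (X × ⋯ × X)` with `m + 1` factors. -/
noncomputable def powerObj (X : 𝒱.Obj) : ℕ → 𝒱.Obj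
  | 0 => X
  | m + 1 => X.prod (powerObj X m)

/-- The exterior product `a × a × ⋯ × a` with `m + 1` factors, a class on `X^(m+1)`. -/
noncomputable def exteriorPower (C : TheoryData.{u, v, 0} 𝒱 ℚ) {X : 𝒱.Obj} (a : C.A X) :
    ∀ m : ℕ, C.A (powerObj X m)
  | 0 => a
  | m + 1 => C.mul (C.up (fst X (powerObj X m)) a)
      (C.up (snd X (powerObj X m)) (exteriorPower C a m))

/-- The class `a` is smash-nilpotent: some exterior power `a × a × ⋯ × a` vanishes. -/
def IsSmashNilpotent (C : TheoryData.{u, v, 0} 𝒱 ℚ) {X : 𝒱.Obj} (a : C.A X) : Prop :=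
  ∃ m : ℕ, Van (exteriorPower C a m)

variable (H : WeilTheoryData.{u, v, 0} C ℂ)

/-- The homologically trivial classes of codimension `m` on `X` are smash-nilpotent. -/
def Voevodsky (X : 𝒱.Obj) (m : ℤ) : Prop :=
  ∀ z : C.A X, IsHomTrivial H m z → IsSmashNilpotent C z

/-- **The theorem of Sebastian**: homologically trivial cycles on products of at most three curves are
smash-nilpotent, and so are homologically trivial cycles of dimension at most one on all products of
curves. (Divisors and zero-cycles are algebraically trivial, and this case is due to Voevodsky and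
Voisin.) -/
structure SebastianTheorem : Prop where
  three : ∀ (W : 𝒱.Obj) (m : ℤ), IsShortProduct 3 W → Voevodsky H W m
  one : ∀ (W : 𝒱.Obj) (m : ℤ), IsShortProduct ⊤ W → (W.dim : ℤ) ≤ m + 1 → Voevodsky H W m

end Pool.Agent.U191.FL
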