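import Pool.Agent.U191.FK.Built
import Pool.Agent.X308.S.CK

/-!
# Products of at most two curves are dominated by surfaces
-/

set_option autoImplicit false
set_option linter.unusedSectionVars false

open CategoryTheory AlgebraicGeometry

universe u v

namespace Pool.Agent.U191.FK

open Pool.Agent.H914 Pool.Agent.H914.VarClass Pool.Agent.H914.VarClass.Obj Pool.Agent.W492.BB
  Pool.Agent.W550.Corr Pool.Agent.TH133 Pool.Agent.U191.EY
open Pool.Agent.W484.CK (iterate Nilpotence)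
open Pool.Agent.X308.S (throughSurfaces)

variable {k : Type u} [Field k] {𝒱 : VarClass k} {C : TheoryData.{u, v, 0} 𝒱 ℚ}
  [hC : IsChowProj C] {H : WeilTheoryData.{u, v, 0} C ℂ} [hH : IsWeilProj H]

omit hH in
lemma pow_gr' {X : 𝒱.Obj} {h : C.A X} (hh : h ∈ C.gr X 1) : ∀ n : ℕ, h ^ n ∈ C.gr X n
  | 0 => by
    rw [pow_zero]
    exact_mod_cast C.one_mem X
  | n + 1 => by
    have h1 := C.mul_mem (pow_gr' hh n) hh
    rw [pow_succ]
    exact_mod_cast h1

include hH in
lemma one_ne_zero'' (X : 𝒱.Obj) : (1 : C.A X) ≠ 0 := by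
  intro h
  have h1 : H.cl (1 : C.A X) = 0 := by rw [h, map_zero]
  rw [map_one] at h1
  exact hH.one_ne_zero X h1

include hH in
/-- There is a zero-cycle whose degree is not zero. -/
lemma exists_point (T : 𝒱.Obj) : ∃ (x : C.A T) (q : ℚ), x ∈ C.gr T T.dim ∧ q ≠ 0 ∧
    ∀ Y : 𝒱.Obj, C.push (snd T Y) (C.pull (fst T Y) x) = q • (1 : C.A Y) := by
  obtain ⟨h, hh, r, hr, hhr⟩ := hC.polarized T
  obtain ⟨q, hq⟩ := hC.degree T (h ^ T.dim) (pow_gr' hh _)
  refine ⟨h ^ T.dim, q, pow_gr' hh _, ?_, fun Y => (hq Y).1⟩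
  rintro rfl
  have h1 := (hq T).1
  rw [hhr, zero_smul] at h1
  have h2 := congrArg (fun v => r⁻¹ • v) h1
  simp only [smul_smul, inv_mul_cancel₀ hr, one_smul, smul_zero] at h2
  exact one_ne_zero'' (H := H) T h2

include hH in
/-- The motive of `W` is a direct summand of the motive of `T × W`. -/
lemma retract (T W : 𝒱.Obj) : dg C W ∈ thr C (fun V _ => V = T.prod W) W W 0 := by
  obtain ⟨x, q, hx, hq, hdeg⟩ := exists_point (H := H) (C := C) T
  set a : C.A (W.prod (T.prod W)) := C.push (Obj.lift (snd T W) (𝟙 (T.prod W)))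
    (C.pull (fst T W) x) with ha
  have h1 : C.comp a (C.graph (snd T W)) = q • dg C W := by
    rw [comp_eq_extR, extR_graph, ha, ← C.push_comp]
    have e1 : Obj.lift (snd T W) (𝟙 (T.prod W)) ≫ prodMap (𝟙 W) (snd T W) =
        snd T W ≫ Obj.lift (𝟙 W) (𝟙 W) := by
      apply prod_ext <;> simp
    rw [e1, C.push_comp, hdeg, map_smul]
    rfl
  have h2 : dg C W = q⁻¹ • C.comp a (C.graph (snd T W)) := by
    rw [h1, smul_smul, inv_mul_cancel₀ hq, one_smul]
  rw [h2]
  refine Submodule.smul_mem _ _ (Submodule.subset_span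
    ⟨T.prod W, 0, a, C.graph (snd T W), rfl, ?_, ?_, rfl⟩)
  · have h3 := C.push_mem (Obj.lift (snd T W) (𝟙 (T.prod W))) (C.pull_mem (fst T W) hx)
    have e1 : (T.dim : ℤ) + 1 * (((W.prod (T.prod W)).dim : ℤ) - ((T.prod W).dim : ℤ)) =
        (T.prod W).dim + 0 := by
      rw [dim_prod, dim_prod]; push_cast; ring
    rwa [e1] at h3
  · have h3 := graph_deg (C := C) (snd T W)
    have e1 : (W.dim : ℤ) - 0 + 0 = W.dim := by ring
    rw [e1]
    exact h3

omit hH in
/-- Replacement of the varieties through which the correspondences factor. -/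
lemma thr_subst {P P' : 𝒱.Obj → ℤ → Prop} {X Y : 𝒱.Obj} {e : ℤ}
    (h : ∀ W δ, P W δ → dg C W ∈ thr C (fun V δ' => P' V (δ' + δ)) W W 0) :
    thr C P X Y e ≤ thr C P' X Y e := by
  refine Submodule.span_le.2 ?_
  rintro _ ⟨W, δ, a, b, hW, ha, hb, rfl⟩
  have h1 : C.comp a b = C.comp a (C.comp (dg C W) b) := by rw [dg_comp]
  rw [h1]
  have hb' : b ∈ C.gr (W.prod Y) (W.dim + (X.dim - δ + e - W.dim)) := by
    have e1 : (W.dim : ℤ) + (X.dim - δ + e - W.dim) = X.dim - δ + e := by ring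
    rw [e1]
    exact hb
  exact comp_thr (P := fun V δ' => P' V (δ' + δ)) (P' := P') ha
    (thr_comp hb' (h W δ hW) rfl) (fun _ _ h => h) (by ring)

/-- `W` is a surface. -/
def IsSurf (W : 𝒱.Obj) : Prop := W.dim = 2

include hH in
lemma thr_surfaces {T : 𝒱.Obj} (hT : T.dim = 1) {X Y : 𝒱.Obj} {e : ℤ} :
    thr C (fun W _ => IsShortProduct 2 W) X Y e ≤ thr C (fun W _ => W.dim = 2) X Y e := by
  have h1 : thr C (fun W _ => W.dim = 1) X Y e ≤ thr C (fun W _ => W.dim = 2) X Y e := by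
    refine thr_subst fun W δ hW => thr_mono ?_ (retract (H := H) T W)
    rintro V _ rfl
    rw [dim_prod, hT, hW]
  have h0 : thr C (fun W _ => W.dim = 0) X Y e ≤ thr C (fun W _ => W.dim = 1) X Y e := by
    refine thr_subst fun W δ hW => thr_mono ?_ (retract (H := H) T W)
    rintro V _ rfl
    rw [dim_prod, hT, hW]
  refine Submodule.span_le.2 ?_
  rintro _ ⟨W, δ, a, b, hW, ha, hb, rfl⟩
  have hdim : W.dim = 0 ∨ W.dim = 1 ∨ W.dim = 2 := by
    obtain ⟨B, L, hB, hL, hL1, rfl⟩ := hW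
    match L, hL, hL1 with
    | [], _, _ => exact Or.inl hB
    | [c], _, h => 
      right; left
      change (c.V.prod B).dim = 1
      rw [dim_prod, h c (by simp), hB]
    | [c, c'], _, h =>
      right; right
      change (c.V.prod (c'.V.prod B)).dim = 2
      rw [dim_prod, dim_prod, h c (by simp), h c' (by simp), hB]
    | c :: c' :: c'' :: L, h, _ =>
      simp only [List.length_cons] at h
      omega
  rcases hdim with h | h | h
  · exact h1 (h0 (Submodule.subset_span ⟨W, δ, a, b, h, ha, hb, rfl⟩))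
  · exact h1 (Submodule.subset_span ⟨W, δ, a, b, h, ha, hb, rfl⟩)
  · exact Submodule.subset_span ⟨W, δ, a, b, h, ha, hb, rfl⟩

omit hC hH in
lemma thr_le_throughSurfaces {X : 𝒱.Obj} :
    thr C (fun W _ => W.dim = 2) X X 0 ≤ throughSurfaces C X := by
  refine Submodule.span_le.2 ?_
  rintro _ ⟨W, δ, a, b, hW, ha, hb, rfl⟩
  refine Submodule.subset_span ⟨W, X.dim - 2 - δ, a, b, hW, ?_, ?_, rfl⟩
  · have e1 : (X.dim : ℤ) - (X.dim - 2 - δ) = W.dim + δ := by rw [hW]; push_cast; ring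
    rw [e1]
    exact ha
  · have e1 : (2 : ℤ) + (X.dim - 2 - δ) = X.dim - δ + 0 := by ring
    rw [e1]
    exact hb

/-- **Motives of level at most two are dominated by surfaces.** -/
theorem IsBuiltOfLevel.throughSurfaces {D : ∀ V : 𝒱.Obj, HodgeRing (H.A V)} (hD : IsHodge H D)
    (hN : KimuraTheorem H) {T : 𝒱.Obj} (hT : T.dim = 1) {M : 𝒱.Obj} {p : C.A (M.prod M)}
    (h : IsBuiltOfLevel H D 2 p) : p ∈ X308.S.throughSurfaces C M :=
  thr_le_throughSurfaces (thr_surfaces (H := H) hT (IsBuiltOfLevel.thr hD hN h))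

end Pool.Agent.U191.FK
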