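import Pool.Agent.U191.FK.Prod

/-!
# Correspondences which factor through varieties with a given property
-/

set_option autoImplicit false
set_option linter.unusedSectionVars false

open CategoryTheory AlgebraicGeometry

universe u v

namespace Pool.Agent.U191.FK

open Pool.Agent.H914 Pool.Agent.H914.VarClass Pool.Agent.H914.VarClass.Obj Pool.Agent.W492.BB
  Pool.Agent.W550.Corr Pool.Agent.TH133 Pool.Agent.U191.EY

variable {k : Type u} [Field k] {𝒱 : VarClass k} {C : TheoryData.{u, v, 0} 𝒱 ℚ}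

/-- The correspondences of degree `e` from `X` to `Y` which are sums of compositions of
correspondences from `X` to `W` which lower the dimension of cycles by `δ` and correspondences from
`W` to `Y`, for varieties `W` and integers `δ` with `P W δ`. -/
noncomputable def thr (C : TheoryData.{u, v, 0} 𝒱 ℚ) (P : 𝒱.Obj → ℤ → Prop) (X Y : 𝒱.Obj)
    (e : ℤ) : Submodule ℚ (C.A (X.prod Y)) :=
  Submodule.span ℚ {z | ∃ (W : 𝒱.Obj) (δ : ℤ) (a : C.A (X.prod W)) (b : C.A (W.prod Y)), P W δ ∧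
    C.Deg ((W.dim : ℤ) + δ) a ∧ C.Deg (X.dim - δ + e) b ∧ z = C.comp a b}

variable [hC : IsChowProj C] {H : WeilTheoryData.{u, v, 0} C ℂ} [hH : IsWeilProj H]
  {P P' : 𝒱.Obj → ℤ → Prop} {X Y Z V : 𝒱.Obj}

omit hH in
lemma comp_deg' {Γ : C.A (X.prod Y)} {Δ : C.A (Y.prod Z)} {d e : ℤ} (hΓ : Γ ∈ C.gr (X.prod Y) d)
    (hΔ : Δ ∈ C.gr (Y.prod Z) e) : C.comp Γ Δ ∈ C.gr (X.prod Z) (d + e - Y.dim) := by
  have h := C.push_mem (t13 X Y Z) (C.mul_mem (C.pull_mem (t23 X Y Z) hΔ)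
    (C.pull_mem (fst (X.prod Y) Z) hΓ))
  have e1 : e + d + 1 * (((X.prod Z).dim : ℤ) - (((X.prod Y).prod Z).dim : ℤ)) =
      d + e - Y.dim := by
    rw [dim_prod, dim_prod, dim_prod]; push_cast; ring
  rwa [e1] at h

lemma act_cl_comp (Γ : C.A (X.prod Y)) (Δ : C.A (Y.prod Z)) (a : H.A X) :
    H.act (H.cl (C.comp Γ Δ)) a = H.act (H.cl Δ) (H.act (H.cl Γ) a) := by
  have : H.cl (C.comp Γ Δ) = H.comp (H.cl Γ) (H.cl Δ) := by
    rw [TheoryData.comp, TheoryData.comp, H.cl_push, map_mul, H.cl_pull, H.cl_pull]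
  rw [this, H.act_comp]

omit hH in
lemma comp_graph (f : X ⟶ Y) (g : Y ⟶ Z) : C.comp (C.graph f) (C.graph g) = C.graph (f ≫ g) := by
  rw [comp_eq_extR, extR_graph, TheoryData.graph, TheoryData.graph, ← C.push_comp]
  congr 2
  apply prod_ext <;> simp

lemma thr_deg {e : ℤ} {z : C.A (X.prod Y)} (hz : z ∈ thr C P X Y e) :
    z ∈ C.gr (X.prod Y) (X.dim + e) := by
  refine (show thr C P X Y e ≤ _ from Submodule.span_le.2 ?_) hz
  rintro _ ⟨W, δ, a, b, -, ha, hb, rfl⟩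
  have h := comp_deg' ha hb
  have e1 : (W.dim : ℤ) + δ + (X.dim - δ + e) - W.dim = X.dim + e := by ring
  rwa [e1] at h

/-- Composition with a correspondence on the left which lowers the dimension by `s`. -/
lemma comp_thr {e s e'' : ℤ} {c : C.A (X.prod Y)} (hc : c ∈ C.gr (X.prod Y) (Y.dim + s))
    {z : C.A (Y.prod Z)} (hz : z ∈ thr C P Y Z e) (hP : ∀ W δ, P W δ → P' W (δ + s))
    (he : Y.dim + s - X.dim + e = e'') : C.comp c z ∈ thr C P' X Z e'' := by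
  subst he
  refine (show thr C P Y Z e ≤ Submodule.comap (compL C c) (thr C P' X Z _) from
    Submodule.span_le.2 ?_) hz
  rintro _ ⟨W, δ, a, b, hW, ha, hb, rfl⟩
  change C.comp c (C.comp a b) ∈ thr C P' X Z _
  rw [← comp_assoc]
  refine Submodule.subset_span ⟨W, δ + s, _, b, hP W δ hW, ?_, ?_, rfl⟩
  · have h := comp_deg' hc ha
    have e1 : (Y.dim : ℤ) + s + (W.dim + δ) - Y.dim = W.dim + (δ + s) := by ring
    rwa [e1] at h
  · have e1 : (Y.dim : ℤ) - δ + e = X.dim - (δ + s) + (Y.dim + s - X.dim + e) := by ring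
    rwa [e1] at hb

lemma thr_comp {e e' e'' : ℤ} {c : C.A (Y.prod Z)} (hc : c ∈ C.gr (Y.prod Z) (Y.dim + e'))
    {z : C.A (X.prod Y)} (hz : z ∈ thr C P X Y e) (he : e + e' = e'') :
    C.comp z c ∈ thr C P X Z e'' := by
  subst he
  refine (show thr C P X Y e ≤ Submodule.comap ((compL C).flip c) (thr C P X Z (e + e')) from
    Submodule.span_le.2 ?_) hz
  rintro _ ⟨W, δ, a, b, hW, ha, hb, rfl⟩
  change C.comp (C.comp a b) c ∈ thr C P X Z (e + e')
  rw [comp_assoc]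
  refine Submodule.subset_span ⟨W, δ, a, _, hW, ha, ?_, rfl⟩
  have h := comp_deg' hb hc
  have e1 : (X.dim : ℤ) - δ + e + (Y.dim + e') - Y.dim = X.dim - δ + (e + e') := by ring
  rwa [e1] at h

lemma thr_mono (h : ∀ W δ, P W δ → P' W δ) {e : ℤ} : thr C P X Y e ≤ thr C P' X Y e := by
  refine Submodule.span_mono ?_
  rintro _ ⟨W, δ, a, b, hW, ha, hb, rfl⟩
  exact ⟨W, δ, a, b, h W δ hW, ha, hb, rfl⟩

lemma dg_deg (X : 𝒱.Obj) : dg C X ∈ C.gr (X.prod X) X.dim := by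
  have h := C.push_mem (Obj.lift (𝟙 X) (𝟙 X)) (C.one_mem X)
  have e1 : (0 : ℤ) + 1 * (((X.prod X).dim : ℤ) - (X.dim : ℤ)) = X.dim := by
    rw [dim_prod]; push_cast; ring
  rwa [e1] at h

lemma dg_mem (hX : P X 0) : dg C X ∈ thr C P X X 0 := by
  refine Submodule.subset_span ⟨X, 0, dg C X, dg C X, hX, ?_, ?_, (comp_dg C _).symm⟩
  · rw [add_zero]
    exact dg_deg X
  · rw [add_zero, sub_zero]
    exact dg_deg X

variable {K : Type} [Field K] [NumberField K]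

/-- There is a correspondence of degree zero which is the identity on the product classes and
which factors through varieties with the property `P`. -/
def GoodT (H : WeilTheoryData.{u, v, 0} C ℂ) (P : 𝒱.Obj → ℤ → Prop) (B : 𝒱.Obj)
    (L : List (Fac 𝒱 K)) : Prop :=
  ∃ Γ ∈ thr C P (prodL B (cs L)) (prodL B (cs L)) 0, ∀ σ w, PC H B σ L w →
    H.act (H.cl Γ) w = w

variable {B : 𝒱.Obj}

lemma act_cl_dg (a : H.A X) : H.act (H.cl (dg C X)) a = a := by
  have : H.cl (dg C X) = dg H.toTheoryData X := by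
    rw [dg, dg, TheoryData.graph, TheoryData.graph, H.cl_push, map_one]
  rw [this, act_dg]

lemma goodT_base {L : List (Fac 𝒱 K)} (h : P (prodL B (cs L)) 0) : GoodT H P B L :=
  ⟨dg C _, dg_mem h, fun _ _ _ => act_cl_dg _⟩

/-- If some factor has no eigenclasses then product classes are zero. -/
lemma pc_zero (σ : K →+* ℂ) : ∀ (L : List (Fac 𝒱 K)),
    (∃ f ∈ L, ∀ i x, Eig H f σ i x → x = 0) →
    ∀ w : H.A (prodL B (cs L)), PC H B σ L w → w = 0
  | [], ⟨f, hf, _⟩, _, _ => absurd hf List.not_mem_nil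
  | f :: L, ⟨f', hf', h0⟩, w, hw => by
    obtain ⟨i, x, t, hx, ht, rfl⟩ := hw
    rcases List.mem_cons.1 hf' with h | h
    · subst h
      rw [h0 i x hx, TheoryData.ext_zero_left]
      rfl
    · rw [pc_zero σ L ⟨f', h, h0⟩ t ht, TheoryData.ext_zero_right]
      rfl

lemma goodT_void {L : List (Fac 𝒱 K)} {f : Fac 𝒱 K} (hf : f ∈ L)
    (h : ∀ σ i x, Eig H f σ i x → x = 0) : GoodT H P B L := by
  refine ⟨0, Submodule.zero_mem _, fun σ w hw => ?_⟩
  rw [pc_zero σ L ⟨f, hf, h σ⟩ w hw]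
  exact H.act_map_zero _

/-- Block correspondences. -/
lemma blockT {Z S R : 𝒱.Obj} (e : Z ⟶ S.prod R) (e' : S.prod R ⟶ Z) (h1 : e ≫ e' = 𝟙 _)
    (h2 : e' ≫ e = 𝟙 _) (hdim : Z.dim = S.dim + R.dim) {Γ : C.A (R.prod R)}
    (hΓ : Γ ∈ thr C P R R 0) {n : ℕ} (d : Fin n → ℤ)
    (hP : ∀ i W δ, P W δ → P' W (δ + d i)) (u v : Fin n → C.A S)
    (hu : ∀ i, u i ∈ C.gr S (d i)) (hv : ∀ i, v i ∈ C.gr S (S.dim - d i)) :
    ∃ Γ' ∈ thr C P' Z Z 0,
      ∀ (τ : H.A S →ₗ[ℂ] ℂ), (∀ s, H.push (snd S R) (H.pull (fst S R) s) = τ s • 1) →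
        ∀ ω t, H.act (H.cl Γ) t = t → ∑ i, τ (H.cl (u i) * ω) • H.cl (v i) = ω →
        H.act (H.cl Γ') (H.pull (e ≫ fst S R) ω * H.pull (e ≫ snd S R) t) =
          H.pull (e ≫ fst S R) ω * H.pull (e ≫ snd S R) t := by
  set p := e ≫ fst S R with hp
  set q := e ≫ snd S R with hq
  have hL : ∀ i, ∃ G ∈ C.gr (Z.prod R) (R.dim + d i), ∀ w, H.act (H.cl G) w =
      H.push q (H.cl (C.pull p (u i)) * w) := by
    intro i
    obtain ⟨G, hG, -, hG2⟩ := (Realised.mul (H := H) (C.pull_mem p (hu i))).comp (Realised.push q)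
    refine ⟨G, ?_, hG2⟩
    have e1 : (Z.dim : ℤ) + (d i + ((R.dim : ℤ) - Z.dim)) = R.dim + d i := by ring
    rwa [e1] at hG
  have hR : ∀ i, ∃ G ∈ C.gr (R.prod Z) (R.dim + (S.dim - d i)), ∀ w, H.act (H.cl G) w =
      H.cl (C.pull p (v i)) * H.pull q w := by
    intro i
    obtain ⟨G, hG, -, hG2⟩ := (Realised.pull (H := H) q).comp
      (Realised.mul (C.pull_mem p (hv i)))
    refine ⟨G, ?_, hG2⟩
    rwa [zero_add] at hG
  choose G₁ hG₁ hG₁2 using hL
  choose G₂ hG₂ hG₂2 using hR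
  refine ⟨∑ i, C.comp (G₁ i) (C.comp Γ (G₂ i)), Submodule.sum_mem _ fun i _ => ?_, ?_⟩
  · exact comp_thr (hG₁ i) (thr_comp (hG₂ i) hΓ (zero_add _)) (hP i)
      (by rw [hdim]; push_cast; ring)
  · intro τ hτ ω t ht hω
    have h4 : ∀ i, H.push q (H.cl (C.pull p (u i)) * (H.pull p ω * H.pull q t)) =
        τ (H.cl (u i) * ω) • t := by
      intro i
      rw [H.cl_pull, ← mul_assoc, ← map_mul, H.proj_right]
      have h5 : H.push q (H.pull p (H.cl (u i) * ω)) = τ (H.cl (u i) * ω) • 1 := by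
        rw [← hτ, hq, hp, H.push_comp, H.pull_comp]
        congr 1
        exact push_pull_iso H.toTheoryData e e' h1 h2 _
      rw [h5, smul_mul_assoc, one_mul]
    have h6 : ∀ i, H.act (H.cl (C.comp (G₁ i) (C.comp Γ (G₂ i))))
        (H.pull p ω * H.pull q t) = H.pull p (τ (H.cl (u i) * ω) • H.cl (v i)) * H.pull q t := by
      intro i
      rw [act_cl_comp, act_cl_comp, hG₁2, h4, hG₂2, act_map_smul, ht, H.cl_pull, map_smul,
        map_smul, mul_smul_comm, smul_mul_assoc]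
    rw [map_sum, act_sum, Finset.sum_congr rfl fun i _ => h6 i, ← Finset.sum_mul, ← map_sum, hω]

lemma goodT_pair {Dt : HodgeData H} (hD : Dt.IsHodge) {f f' : Fac 𝒱 K}
    (hf : f.Ok) (hf' : f'.Ok)
    (h11 : ∀ (σ : K →+* ℂ) (i i' : ℤ) (x : H.A f.c.V) (y : H.A f'.c.V), Eig H f σ i x →
      Eig H f' σ i' y → H.ext x y ∈ Dt.hdg (f.c.V.prod f'.c.V) 1 1)
    (hP : ∀ W δ, P W δ → P' W (δ + 1))
    {L : List (Fac 𝒱 K)} (hL : GoodT H P B L) : GoodT H P' B (f :: f' :: L) := by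
  obtain ⟨Γ, hΓ, hψ⟩ := hL
  obtain ⟨n, u, v, hu, hv, huv⟩ := exists_pair hD hf hf' h11
  obtain ⟨τ, -, hτ, -, -⟩ := exists_integral H (f.c.V.prod f'.c.V)
  set R := prodL B (cs L) with hR
  have hdS : (f.c.V.prod f'.c.V).dim = 2 := by rw [dim_prod, hf.act.dim_eq, hf'.act.dim_eq]
  have hdim : (f.c.V.prod (f'.c.V.prod R)).dim = (f.c.V.prod f'.c.V).dim + R.dim := by
    rw [dim_prod, dim_prod, dim_prod, add_assoc]
  obtain ⟨Γ', hΓ', hψ'⟩ := blockT (H := H) (aJ f.c.V f'.c.V R) (aI f.c.V f'.c.V R) aJ_aI aI_aJ hdim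
    hΓ (fun _ => 1) (fun _ => hP) u v hu (fun i => by
      rw [hdS]
      exact hv i)
  refine ⟨Γ', hΓ', ?_⟩
  rintro σ w ⟨i, x, s, hx, ⟨i', y, t, hy, ht, rfl⟩, rfl⟩
  have h1 := hψ' τ (hτ R) (H.ext x y) t (hψ σ t ht) (huv τ (hτ _) _
    (Submodule.subset_span ⟨σ, i, i', x, y, hx, hy, rfl⟩))
  have h2 : H.pull (aJ f.c.V f'.c.V R ≫ fst (f.c.V.prod f'.c.V) R) (H.ext x y) *
      H.pull (aJ f.c.V f'.c.V R ≫ snd (f.c.V.prod f'.c.V) R) t = H.ext x (H.ext y t) := by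
    rw [TheoryData.ext, TheoryData.ext, TheoryData.ext, map_mul, map_mul, ← H.pull_comp,
      ← H.pull_comp, ← H.pull_comp, ← H.pull_comp, mul_assoc]
    have e1 : (aJ f.c.V f'.c.V R ≫ fst (f.c.V.prod f'.c.V) R) ≫ fst f.c.V f'.c.V =
        fst f.c.V (f'.c.V.prod R) := by simp [aJ]
    have e2 : (aJ f.c.V f'.c.V R ≫ fst (f.c.V.prod f'.c.V) R) ≫ snd f.c.V f'.c.V =
        snd f.c.V (f'.c.V.prod R) ≫ fst f'.c.V R := by simp [aJ]
    have e3 : aJ f.c.V f'.c.V R ≫ snd (f.c.V.prod f'.c.V) R =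
        snd f.c.V (f'.c.V.prod R) ≫ snd f'.c.V R := by simp [aJ]
    rw [e1, e2, e3]
  rw [h2] at h1
  exact h1

lemma goodT_triv {f : Fac 𝒱 K} (hf : f.c.IsAction) (h0 : ∀ σ x, Eig H f σ 1 x → x = 0)
    (hP : ∀ W δ, P W δ → P' W δ ∧ P' W (δ + 1))
    {L : List (Fac 𝒱 K)} (hL : GoodT H P B L) : GoodT H P' B (f :: L) := by
  obtain ⟨Γ, hΓ, hψ⟩ := hL
  obtain ⟨τ, ⟨κ, hκ, hτκ⟩, hτ, -, hτ2⟩ := exists_integral H f.c.V
  obtain ⟨a, ha, ha1, ha2⟩ := exists_deg_one C f.c.V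
  have hd1 := hf.dim_eq
  set R := prodL B (cs L) with hR
  have hdim : (f.c.V.prod R).dim = f.c.V.dim + R.dim := dim_prod _ _
  have haD : HasDegree C a 1 := fun Y => by
    rw [ha1, ha2, one_smul]
    exact ⟨rfl, rfl⟩
  have hτa : τ (H.cl a) = 1 := by
    rw [hτ2 a ha 1 haD, Rat.cast_one]
  have ha' : a ∈ C.gr f.c.V 1 := by
    rw [hd1] at ha
    exact ha
  obtain ⟨Γ', hΓ', hψ'⟩ := blockT (H := H) (P' := P') (𝟙 (f.c.V.prod R)) (𝟙 (f.c.V.prod R))
    (Category.comp_id _) (Category.comp_id _) hdim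
    hΓ ![0, 1] (fun i W δ h => by
      fin_cases i
      · change P' W (δ + 0)
        rw [add_zero]
        exact (hP W δ h).1
      · exact (hP W δ h).2) ![1, a] ![a, 1] (fun i => by
      fin_cases i
      · exact C.one_mem _
      · exact ha') (fun i => by
      rw [hd1]
      fin_cases i
      · exact ha'
      · exact C.one_mem _)
  have hτ0 : ∀ i : ℤ, i ≠ 2 → ∀ x ∈ H.gr f.c.V i, τ x = 0 := by
    intro i hi x hx
    rw [hτκ, LinearMap.smul_apply, tr_zero H hx (by rw [hd1]; exact_mod_cast hi), smul_zero]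
  have key : ∀ σ i x, Eig H f σ i x → τ x • H.cl a + τ (H.cl a * x) • 1 = x := by
    intro σ i x hx
    by_cases hx0 : x = 0
    · rw [hx0, map_zero, mul_zero, map_zero, zero_smul, zero_smul, add_zero]
    have hi := nonneg_of_mem H hx.1 hx0
    have hi2 : i ≤ 2 := by
      by_contra hlt
      have h1 := hx.1
      rw [gr_top H (by rw [hd1]; push_cast; omega)] at h1
      exact hx0 ((Submodule.mem_bot _).1 h1)
    have hcl := H.cl_mem ha
    have h3 : i = 0 ∨ i = 1 ∨ i = 2 := by omega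
    rcases h3 with rfl | rfl | rfl
    · obtain ⟨q, rfl⟩ := hH.gr_zero _ x hx.1
      rw [hτ0 0 (by norm_num) _ hx.1, zero_smul, zero_add, mul_smul_comm, mul_one, map_smul, hτa,
        smul_eq_mul, mul_one]
    · exact absurd (h0 σ x hx) hx0
    · have h4 := H.mul_mem hcl hx.1
      rw [hτ0 _ (by rw [hd1]; norm_num) _ h4, zero_smul, add_zero, ← sub_eq_zero]
      apply eq_zero_of_tr (S := f.c.V)
      · rw [hd1] at hcl ⊢
        exact Submodule.sub_mem _ (Submodule.smul_mem _ _ hcl) hx.1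
      · have h5 : τ (τ x • H.cl a - x) = 0 := by
          rw [map_sub, map_smul, hτa, smul_eq_mul, mul_one, sub_self]
        have h6 : κ * H.tr f.c.V (τ x • H.cl a - x) = 0 := by
          rw [← smul_eq_mul, ← LinearMap.smul_apply, ← hτκ]
          exact h5
        exact (mul_eq_zero.1 h6).resolve_left hκ
  refine ⟨Γ', hΓ', ?_⟩
  rintro σ w ⟨i, x, t, hx, ht, rfl⟩
  have h1 := hψ' τ (hτ R) x t (hψ σ t ht) (by
    rw [Fin.sum_univ_two]
    change τ (H.cl 1 * x) • H.cl a + τ (H.cl a * x) • H.cl 1 = x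
    rw [map_one, one_mul]
    exact key σ i x hx)
  rw [Category.id_comp, Category.id_comp] at h1
  exact h1

/-- Two lists of factors have isomorphic products, compatibly with product classes. -/
def IsoPC (H : WeilTheoryData.{u, v, 0} C ℂ) (B : 𝒱.Obj) (L L' : List (Fac 𝒱 K)) : Prop :=
  ∃ (s : prodL B (cs L) ⟶ prodL B (cs L')) (t : prodL B (cs L') ⟶ prodL B (cs L)),
    s ≫ t = 𝟙 _ ∧ t ≫ s = 𝟙 _ ∧ (prodL B (cs L)).dim = (prodL B (cs L')).dim ∧
    (∀ σ w, PC H B σ L' w → H.pull s w ∈ Submodule.span ℂ {w | PC H B σ L w}) ∧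
    (∀ σ w, PC H B σ L w → H.pull t w ∈ Submodule.span ℂ {w | PC H B σ L' w})

lemma goodT_iso {L L' : List (Fac 𝒱 K)} (h : IsoPC H B L L') (hL : GoodT H P B L') :
    GoodT H P B L := by
  obtain ⟨s, t, hst, hts, hd, h1, h2⟩ := h
  obtain ⟨Γ, hΓ, hψ⟩ := hL
  obtain ⟨G₁, hG₁, -, hG₁2⟩ := Realised.pull (H := H) t
  obtain ⟨G₂, hG₂, -, hG₂2⟩ := Realised.pull (H := H) s
  refine ⟨C.comp G₁ (C.comp Γ G₂), comp_thr (s := 0) (by rw [← hd]; exact hG₁)
    (thr_comp hG₂ hΓ (zero_add _)) (fun W δ h => by rw [add_zero]; exact h)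
    (by rw [hd]; ring), ?_⟩
  intro σ w hw
  have h3 : ∀ w' ∈ Submodule.span ℂ {w | PC H B σ L' w}, H.act (H.cl Γ) w' = w' := by
    intro w' hw'
    refine (show _ ≤ LinearMap.eqLocus (H.actL (H.cl Γ)) LinearMap.id from
      Submodule.span_le.2 ?_) hw'
    intro x hx
    exact hψ σ x hx
  rw [act_cl_comp, act_cl_comp, hG₁2, hG₂2, h3 _ (h2 σ w hw), ← H.pull_comp, hst, H.pull_id]

lemma isoPC_refl (L : List (Fac 𝒱 K)) : IsoPC H B L L :=
  ⟨𝟙 _, 𝟙 _, Category.comp_id _, Category.comp_id _, rfl,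
    fun σ w hw => by rw [H.pull_id]; exact Submodule.subset_span hw,
    fun σ w hw => by rw [H.pull_id]; exact Submodule.subset_span hw⟩

lemma isoPC_trans {L L' L'' : List (Fac 𝒱 K)} (h : IsoPC H B L L') (h' : IsoPC H B L' L'') :
    IsoPC H B L L'' := by
  obtain ⟨s, t, hst, hts, hd, h1, h2⟩ := h
  obtain ⟨s', t', hst', hts', hd', h1', h2'⟩ := h'
  refine ⟨s ≫ s', t' ≫ t, ?_, ?_, hd.trans hd', fun σ w hw => ?_, fun σ w hw => ?_⟩
  · rw [Category.assoc, ← Category.assoc s', hst', Category.id_comp, hst]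
  · rw [Category.assoc, ← Category.assoc t, hts, Category.id_comp, hts']
  · rw [H.pull_comp]
    exact pull_span s (h1 σ) (h1' σ w hw)
  · rw [H.pull_comp]
    exact pull_span t' (h2' σ) (h2 σ w hw)

lemma isoPC_cons (f : Fac 𝒱 K) {L L' : List (Fac 𝒱 K)} (h : IsoPC H B L L') :
    IsoPC H B (f :: L) (f :: L') := by
  obtain ⟨s, t, hst, hts, hd, h1, h2⟩ := h
  have key : ∀ {L L' : List (Fac 𝒱 K)} (s : prodL B (cs L) ⟶ prodL B (cs L')),
      (∀ σ w, PC H B σ L' w → H.pull s w ∈ Submodule.span ℂ {w | PC H B σ L w}) →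
      ∀ σ w, PC H B σ (f :: L') w → H.pull (prodMap (𝟙 f.c.V) s) w ∈
        Submodule.span ℂ {w | PC H B σ (f :: L) w} := by
    rintro L L' s h1 σ w ⟨i, x, y, hx, hy, rfl⟩
    rw [pull_ext, H.pull_id]
    refine (show _ ≤ Submodule.comap (extB H f.c.V (prodL B (cs L)) x) (Submodule.span ℂ
      {w | PC H B σ (f :: L) w}) from Submodule.span_le.2 ?_) (h1 σ y hy)
    intro y' hy'
    exact Submodule.subset_span ⟨i, x, y', hx, hy', rfl⟩
  refine ⟨prodMap (𝟙 f.c.V) s, prodMap (𝟙 f.c.V) t, ?_, ?_, ?_, key s h1, key t h2⟩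
  · change prodMap (𝟙 f.c.V) s ≫ prodMap (𝟙 f.c.V) t = 𝟙 (f.c.V.prod (prodL B (cs L)))
    rw [prodMap_comp, hst, Category.comp_id]
    apply prod_ext
    · rw [prodMap_fst, Category.comp_id, Category.id_comp]
    · rw [prodMap_snd, Category.comp_id, Category.id_comp]
  · change prodMap (𝟙 f.c.V) t ≫ prodMap (𝟙 f.c.V) s = 𝟙 (f.c.V.prod (prodL B (cs L')))
    rw [prodMap_comp, hts, Category.comp_id]
    apply prod_ext
    · rw [prodMap_fst, Category.comp_id, Category.id_comp]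
    · rw [prodMap_snd, Category.comp_id, Category.id_comp]
  · change (f.c.V.prod (prodL B (cs L))).dim = (f.c.V.prod (prodL B (cs L'))).dim
    rw [dim_prod, dim_prod, hd]

lemma isoPC_swap {Dt : HodgeData H} (hD : Dt.IsHodge) (f f' : Fac 𝒱 K) (L : List (Fac 𝒱 K)) :
    IsoPC H B (f :: f' :: L) (f' :: f :: L) := by
  have key0 : ∀ (f f' : Fac 𝒱 K) (σ : K →+* ℂ)
      (w : H.A (f'.c.V.prod (f.c.V.prod (prodL B (cs L))))),
      PC H B σ (f' :: f :: L) w → ∃ (r : ℂ) (w' : H.A (f.c.V.prod (f'.c.V.prod (prodL B (cs L))))),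
      PC H B σ (f :: f' :: L) w' ∧ H.pull (swp f.c.V f'.c.V (prodL B (cs L))) w = r • w' := by
    rintro f f' σ w ⟨i, x, y, hx, ⟨i', x', t, hx', ht, rfl⟩, rfl⟩
    by_cases hx0 : x = 0
    · refine ⟨0, H.ext x' (H.ext x t), ⟨i', x', H.ext x t, hx', ⟨i, x, t, hx, ht, rfl⟩, rfl⟩, ?_⟩
      refine (swp_ext x x' t).trans ?_
      rw [hx0, map_zero, map_zero, zero_mul, zero_mul]
      exact (zero_smul ℂ _).symm
    by_cases hx0' : x' = 0
    · refine ⟨0, H.ext x' (H.ext x t), ⟨i', x', H.ext x t, hx', ⟨i, x, t, hx, ht, rfl⟩, rfl⟩, ?_⟩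
      refine (swp_ext x x' t).trans ?_
      rw [hx0', map_zero, mul_zero, zero_mul]
      exact (zero_smul ℂ _).symm
    obtain ⟨n, rfl⟩ := Int.eq_ofNat_of_zero_le (nonneg_of_mem H hx.1 hx0)
    obtain ⟨n', rfl⟩ := Int.eq_ofNat_of_zero_le (nonneg_of_mem H hx'.1 hx0')
    have h2 := hD.comm _ n n' _ _ (H.pull_mem (snd f.c.V (f'.c.V.prod (prodL B (cs L))))
      (H.pull_mem (fst f'.c.V (prodL B (cs L))) hx.1))
      (H.pull_mem (fst f.c.V (f'.c.V.prod (prodL B (cs L)))) hx'.1)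
    have h4 : H.pull (snd f.c.V (f'.c.V.prod (prodL B (cs L))))
        (H.pull (fst f'.c.V (prodL B (cs L))) x) *
        H.pull (fst f.c.V (f'.c.V.prod (prodL B (cs L)))) x' = (-1 : ℂ) ^ (n * n') •
          (H.pull (fst f.c.V (f'.c.V.prod (prodL B (cs L)))) x' *
            H.pull (snd f.c.V (f'.c.V.prod (prodL B (cs L))))
              (H.pull (fst f'.c.V (prodL B (cs L))) x)) := h2
    refine ⟨(-1 : ℂ) ^ (n * n'), H.ext x' (H.ext x t),
      ⟨n', x', H.ext x t, hx', ⟨n, x, t, hx, ht, rfl⟩, rfl⟩, ?_⟩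
    refine (swp_ext x x' t).trans ?_
    rw [h4, smul_mul_assoc, mul_assoc, ← map_mul]
    rfl
  have key : ∀ (f f' : Fac 𝒱 K) (σ : K →+* ℂ) (w : H.A (prodL B (cs (f' :: f :: L)))),
      PC H B σ (f' :: f :: L) w →
      H.pull (swp f.c.V f'.c.V (prodL B (cs L)) : prodL B (cs (f :: f' :: L)) ⟶
        prodL B (cs (f' :: f :: L))) w ∈ Submodule.span ℂ {w | PC H B σ (f :: f' :: L) w} := by
    intro f f' σ w hw
    obtain ⟨r, w', h1, h2⟩ := key0 f f' σ w hw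
    exact Eq.subst (motive := fun y : H.A (prodL B (cs (f :: f' :: L))) =>
      y ∈ Submodule.span ℂ {w | PC H B σ (f :: f' :: L) w}) h2.symm
      (Submodule.smul_mem _ r (Submodule.subset_span h1))
  refine ⟨swp _ _ _, swp _ _ _, swp_swp _ _ _, swp_swp _ _ _, ?_, key f f', key f' f⟩
  change (f.c.V.prod (f'.c.V.prod (prodL B (cs L)))).dim =
    (f'.c.V.prod (f.c.V.prod (prodL B (cs L)))).dim
  rw [dim_prod, dim_prod, dim_prod, dim_prod]
  ring

lemma isoPC_perm {Dt : HodgeData H} (hD : Dt.IsHodge) {L L' : List (Fac 𝒱 K)} (h : L.Perm L') :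
    IsoPC H B L L' := by
  induction h with
  | nil => exact isoPC_refl _
  | cons f _ ih => exact isoPC_cons f ih
  | swap f f' L => exact isoPC_swap hD f' f L
  | trans _ _ h1 h2 => exact isoPC_trans h1 h2

lemma goodT_perm {Dt : HodgeData H} (hD : Dt.IsHodge) {L L' : List (Fac 𝒱 K)}
    (h : L.Perm L') (hL : GoodT H P B L') : GoodT H P B L := goodT_iso (isoPC_perm hD h) hL

end Pool.Agent.U191.FK
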